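import Pool.Agent.Lib.MP_b1b13a_lc.Serial

/-!
Consequences: growth bounds give sparse zeros, so solvability in any set of entire functions
between `ℤ[z]` and a tower class is undecidable.
-/

namespace Pool.Agent.Lib.MP_b1b13a_lc.Ser

open Complex Metric Set Filter Topology

theorem sparse_of_growth {K : ℕ} {f : ℂ → ℂ} (hf : Differentiable ℂ f)
    (h : ∃ᶠ r : ℝ in atTop, ∀ z : ℂ, ‖z‖ ≤ r → ‖f z‖ ≤ Real.exp^[K] r) : Sparse (K + 2) f := by
  by_cases h0 : ∀ z, f z = 0
  · exact Or.inl h0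
  right
  push Not at h0
  obtain ⟨z₁, hz₁⟩ := h0
  have hη : 0 < ‖f z₁‖ := norm_pos_iff.2 hz₁
  rw [frequently_atTop]
  intro a
  obtain ⟨r, h1, h2, h3, h4, h5⟩ := (h.and_eventually ((eventually_ge_atTop (2 * a)).and
    ((eventually_ge_atTop (2 * ‖z₁‖)).and ((eventually_ge_atTop 48).and
      (eventually_ge_atTop (-Real.log ‖f z₁‖)))))).exists
  refine ⟨r / 2, by linarith, fun S hS => ?_⟩
  obtain ⟨E, hE⟩ : ∃ E, E = Real.exp^[K] r := ⟨_, rfl⟩
  have hEr : r ≤ E := hE ▸ le_tw K r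
  rw [← hE] at h1
  have hb := blaschke (c := 0) (ρ := r) (ρ' := r + 1) (δ := r / 2) (B := E) (by linarith)
    (by linarith) (by linarith) S hf.differentiableOn
    (fun z hz => h1 z (by rw [mem_sphere, dist_zero_right] at hz; exact hz.le))
    (fun w hw => ⟨by rw [sub_zero]; linarith [(hS w hw).1], (hS w hw).2⟩) z₁
    (by rw [sub_zero]; linarith)
  have e : r / 2 / (6 * r) = 1 / 12 := by field_simp; norm_num
  rw [e] at hb
  have k1 : E ≤ Real.exp E := by linarith [Real.add_one_le_exp E]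
  have k2 : Real.exp (Real.log ‖f z₁‖) ≤ Real.exp (E + -(S.card * (1 / 12))) := by
    rw [Real.exp_log hη, Real.exp_add]
    exact hb.trans (mul_le_mul_of_nonneg_right k1 (Real.exp_pos _).le)
  have k3 := Real.exp_le_exp.1 k2
  have k4 : r ≤ Real.exp (r / 2) := by
    have := Real.pow_div_factorial_le_exp (r / 2) (by linarith) 2
    simp only [Nat.factorial, Nat.succ_eq_add_one, Nat.reduceAdd, Nat.reduceMul,
      Nat.cast_ofNat] at this
    nlinarith
  have k5 : E ≤ Real.exp^[K + 1] (r / 2) := hE ▸ tw_mono K k4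
  have k6 := Real.pow_div_factorial_le_exp E (by linarith) 2
  simp only [Nat.factorial, Nat.succ_eq_add_one, Nat.reduceAdd, Nat.reduceMul,
    Nat.cast_ofNat] at k6
  rw [tw_succ]
  have k7 := Real.exp_le_exp.2 k5
  nlinarith

/-- Solvability in any set of entire functions that contains `ℤ[z]` and whose members are bounded
by a fixed tower at arbitrarily large radii is undecidable. -/
theorem classes (K : ℕ) (F : Set (ℂ → ℂ))
    (h1 : ∀ p : Polynomial ℤ, (fun z => Polynomial.aeval z p) ∈ F)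
    (h2 : ∀ f ∈ F, Differentiable ℂ f ∧
      ∃ᶠ r : ℝ in atTop, ∀ z : ℂ, ‖z‖ ≤ r → ‖f z‖ ≤ Real.exp^[K] r) :
    ¬ ComputablePred (Solvable F) :=
  one_unknown (K + 2) _
    (fun _ ⟨xs, hx, hs⟩ => ⟨xs, fun i => by
      obtain ⟨p, hp⟩ := hx i
      have : xs i = fun z => Polynomial.aeval z p := funext hp
      exact this ▸ h1 p, hs⟩)
    fun _ ⟨xs, hx, hs⟩ => ⟨xs, fun i => (h2 _ (hx i)).1,
      sparse_of_growth (h2 _ (hx 0)).1 (h2 _ (hx 0)).2, hs⟩

end Pool.Agent.Lib.MP_b1b13a_lc.Ser
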