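import Mathlib

namespace Pool.Agent.Lib.MP_b1b13a_lc

/-- A system is a finite list of polynomials with integer coefficients in `z` and unknowns
`x 0, x 1, ...`; a polynomial is a list of monomials (coefficient, list of exponents), the exponent
number `0` being that of `z` and the exponent number `k + 1` that of `x k` (the coding of the
frozen statement).  The system is solvable in `R` if functions from `R` make all of its polynomials
vanish identically. -/
def Solvable (R : Set (ℂ → ℂ)) (sys : List (List (ℤ × List ℕ))) : Prop :=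
  ∃ xs : ℕ → ℂ → ℂ, (∀ i, xs i ∈ R) ∧ ∀ p ∈ sys, ∀ w : ℂ,
    (p.map (fun m => (m.1 : ℂ) *
      ((List.range m.2.length).map
        (fun k => (if k = 0 then w else xs (k - 1) w) ^ (m.2.getD k 0))).prod)).sum = 0

/-- The maximum of `|g|` on the closed disc of radius `r` is at most that of `|f|`, for all
large `r`. -/
def Dominates (f g : ℂ → ℂ) : Prop :=
  ∀ᶠ r : ℝ in Filter.atTop, ∀ z : ℂ, ‖z‖ ≤ r → ∃ w : ℂ, ‖w‖ ≤ r ∧ ‖g z‖ ≤ ‖f w‖

end Pool.Agent.Lib.MP_b1b13a_lc
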