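import Pool.Agent.Lib.MP_b1b13a_lc.Defs
import Pool.Agent.Lib.Common.DPRM.Main

/-!
Coding of polynomial systems and the reduction from Diophantine equations over the integers.
-/

namespace Pool.Agent.Lib.MP_b1b13a_lc

open MvPolynomial

noncomputable def ev (p : List (ℤ × List ℕ)) (y : ℕ → ℂ) : ℂ :=
  (p.map (fun m => (m.1 : ℂ) *
    ((List.range m.2.length).map (fun k => y k ^ (m.2.getD k 0))).prod)).sum

def val (w : ℂ) (x : ℕ → ℂ) : ℕ → ℂ := fun k => if k = 0 then w else x (k - 1)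

@[simp] theorem val_zero (w : ℂ) (x : ℕ → ℂ) : val w x 0 = w := rfl

@[simp] theorem val_succ (w : ℂ) (x : ℕ → ℂ) (k : ℕ) : val w x (k + 1) = x k := by simp [val]

def Holds (sys : List (List (ℤ × List ℕ))) (xs : ℕ → ℂ → ℂ) : Prop :=
  ∀ p ∈ sys, ∀ w : ℂ, ev p (val w fun i => xs i w) = 0

theorem solvable_iff (R : Set (ℂ → ℂ)) (sys : List (List (ℤ × List ℕ))) :
    Solvable R sys ↔ ∃ xs : ℕ → ℂ → ℂ, (∀ i, xs i ∈ R) ∧ Holds sys xs := Iff.rfl

theorem ev_append (p q : List (ℤ × List ℕ)) (y : ℕ → ℂ) : ev (p ++ q) y = ev p y + ev q y := by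
  simp [ev]

theorem list_prod_range (n : ℕ) (f : ℕ → ℂ) :
    ((List.range n).map f).prod = ∏ k ∈ Finset.range n, f k := by
  induction n with
  | zero => simp
  | succ n ih => rw [List.prod_range_succ, Finset.prod_range_succ, ih]

theorem exists_ev (Q : MvPolynomial ℕ ℤ) : ∃ p, ∀ y : ℕ → ℂ, ev p y = aeval y Q := by
  induction Q using MvPolynomial.induction_on' with
  | monomial s a =>
    obtain ⟨N, hN⟩ : ∃ N, s.support ⊆ Finset.range N := ⟨_, Finset.subset_range_sup_succ _⟩
    refine ⟨[(a, (List.range N).map s)], fun y => ?_⟩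
    rw [aeval_monomial, Finsupp.prod_of_support_subset s hN _ (by simp)]
    simp only [ev, List.map_cons, List.map_nil, List.sum_cons, List.sum_nil, add_zero,
      List.length_map, List.length_range, list_prod_range, algebraMap_int_eq, eq_intCast]
    congr 1
    refine Finset.prod_congr rfl fun k hk => ?_
    rw [List.getD_eq_getElem _ _ (by simpa using hk)]
    simp
  | add p q hp hq =>
    obtain ⟨p', hp'⟩ := hp
    obtain ⟨q', hq'⟩ := hq
    exact ⟨p' ++ q', fun y => by rw [ev_append, hp', hq', map_add]⟩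

/-- A property of a doubly indexed family of functions given by a finite system. -/
def Rep (S : (ℕ → ℕ → ℂ → ℂ) → Prop) : Prop :=
  ∀ enc : ℕ → ℕ → ℕ, ∃ sys, ∀ xs, Holds sys xs ↔ S fun t i => xs (enc t i)

theorem Rep.and {S T : (ℕ → ℕ → ℂ → ℂ) → Prop} (hS : Rep S) (hT : Rep T) :
    Rep fun X => S X ∧ T X := fun enc => by
  obtain ⟨s, hs⟩ := hS enc
  obtain ⟨t, ht⟩ := hT enc
  refine ⟨s ++ t, fun xs => ?_⟩
  beta_reduce
  rw [← hs, ← ht]
  simp only [Holds, List.mem_append]
  exact ⟨fun h => ⟨fun p hp => h p (Or.inl hp), fun p hp => h p (Or.inr hp)⟩,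
    fun h p hp => hp.elim (h.1 p) (h.2 p)⟩

theorem Rep.congr {S T : (ℕ → ℕ → ℂ → ℂ) → Prop} (hS : Rep S) (h : ∀ X, S X ↔ T X) : Rep T := by
  have : S = T := funext fun X => propext (h X)
  rwa [← this]

theorem Rep.ball {S : ℕ → (ℕ → ℕ → ℂ → ℂ) → Prop} (hS : ∀ i, Rep (S i)) (d : ℕ) :
    Rep fun X => ∀ i < d, S i X := by
  induction d with
  | zero => exact fun _ => ⟨[], fun xs => by simp [Holds]⟩
  | succ d ih =>
    refine (ih.and (hS d)).congr fun X => ⟨fun h i hi => ?_, fun h => ⟨fun i hi => h i (by omega),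
      h d (by omega)⟩⟩
    rcases Nat.lt_succ_iff_lt_or_eq.1 hi with h1 | h1
    · exact h.1 i h1
    · exact h1 ▸ h.2

theorem Rep.shift {S : (ℕ → ℕ → ℂ → ℂ) → Prop} (hS : Rep S) : Rep fun X => S fun t => X (t + 1) :=
  fun enc => hS fun t => enc (t + 1)

theorem rep_atom (P Q : MvPolynomial (Option (ℕ × ℕ)) ℤ) :
    Rep fun X => ∀ w : ℂ, aeval (fun o : Option (ℕ × ℕ) => o.elim w fun v => X v.1 v.2 w) P
      = aeval (fun o : Option (ℕ × ℕ) => o.elim w fun v => X v.1 v.2 w) Q := fun enc => by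
  obtain ⟨p, hp⟩ := exists_ev
    (rename (fun o : Option (ℕ × ℕ) => o.elim 0 fun v => enc v.1 v.2 + 1) (P - Q))
  refine ⟨[p], fun xs => ?_⟩
  simp only [Holds, List.mem_singleton, forall_eq, hp, aeval_rename]
  refine forall_congr' fun w => ?_
  have : ((val w fun i => xs i w) ∘ fun o : Option (ℕ × ℕ) => o.elim 0 fun v => enc v.1 v.2 + 1)
      = fun o : Option (ℕ × ℕ) => o.elim w fun v => xs (enc v.1 v.2) w := by
    funext o; cases o <;> simp
  rw [this, map_sub, sub_eq_zero]

/-- The reduction: a way of defining the integers as values at the origin gives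
undecidability. -/
theorem undecidable_of_intDef (R : Set (ℂ → ℂ)) (T : Subring (ℂ → ℂ)) (hT : ∀ f ∈ T, f ∈ R)
    (hdiv : ∀ f ∈ T, f 0 = 0 → ∃ q ∈ T, ∀ w, f w = w * q w)
    (hdef : ∀ d : ℕ, ∃ S : (ℕ → ℕ → ℂ → ℂ) → Prop, Rep S ∧
      (∀ X, (∀ t i, X t i ∈ R) → S X → ∀ i < d, ∃ a : ℤ, X 0 i 0 = a) ∧
      ∀ y : ℕ → ℤ, ∃ X, (∀ t i, X t i ∈ T) ∧ S X ∧ ∀ i, X 0 i 0 = y i) :
    ¬ ComputablePred (Solvable R) := by
  classical
  obtain ⟨Q, hQ⟩ := Common.DPRM.exists_mvPoly_not_computable
  obtain ⟨d, hd⟩ : ∃ d, insert 0 Q.vars ⊆ Finset.range d := ⟨_, Finset.subset_range_sup_succ _⟩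
  obtain ⟨S, hS, h1, h2⟩ := hdef d
  have hrep : Rep fun X => S (fun t => X (t + 1)) ∧
      ∀ w : ℂ, aeval (fun i => X 1 i w) Q = w * X 0 0 w := by
    refine hS.shift.and ((rep_atom (rename (fun i => some (1, i)) Q)
      (MvPolynomial.X none * MvPolynomial.X (some (0, 0)))).congr fun X => ?_)
    simp only [aeval_rename, map_mul, aeval_X, Option.elim_none, Option.elim_some]
    rfl
  obtain ⟨sys, hsys⟩ := hrep Nat.pair
  obtain ⟨p, hp⟩ := exists_ev
    (MvPolynomial.X 0 * MvPolynomial.X (Nat.pair 0 1 + 1) - MvPolynomial.X (Nat.pair 1 0 + 1))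
  have hcast : ∀ y : ℕ → ℤ, aeval (fun i => (y i : ℂ)) Q = ((eval y Q : ℤ) : ℂ) := fun y => by
    clear hQ hd hrep hsys
    induction Q using MvPolynomial.induction_on with
    | C a => simp
    | add p q hp hq => simp [hp, hq]
    | mul_X p i hp => simp [hp]
  have hev : ∀ (n : ℕ) (y : ℕ → ℂ),
      ev ((List.range n).map (fun _ => ((1 : ℤ), ([] : List ℕ))) ++ p) y
        = n + (y 0 * y (Nat.pair 0 1 + 1) - y (Nat.pair 1 0 + 1)) := fun n y => by
    rw [ev_append, hp]
    simp [ev]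
  have key : ∀ n : ℕ, Solvable R
      (((List.range n).map (fun _ => ((1 : ℤ), ([] : List ℕ))) ++ p) :: sys) ↔
      ∃ y : ℕ → ℤ, y 0 = n ∧ eval y Q = 0 := by
    intro n
    rw [solvable_iff]
    constructor
    · rintro ⟨xs, hR, hh⟩
      obtain ⟨k1, k2⟩ := (hsys xs).1 fun q hq => hh q (List.mem_cons_of_mem _ hq)
      have k3 := hh _ List.mem_cons_self 0
      rw [hev] at k3
      simp only [val_zero, val_succ, zero_mul, zero_sub] at k3
      choose! y hy using h1 _ (fun t i => hR _) k1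
      have hy' : ∀ i < d, xs (Nat.pair 1 i) 0 = y i := hy
      refine ⟨y, ?_, ?_⟩
      · have := hy' 0 (Finset.mem_range.1 (hd (Finset.mem_insert_self _ _)))
        have k4 : ((y 0 : ℤ) : ℂ) = (n : ℤ) := by push_cast; linear_combination -this - k3
        exact_mod_cast k4
      · have k4 := k2 0
        rw [zero_mul] at k4
        have k5 : aeval (fun i => xs (Nat.pair 1 i) 0) Q = aeval (fun i => (y i : ℂ)) Q :=
          eval₂Hom_congr' rfl (fun i hi _ => hy' i
            (Finset.mem_range.1 (hd (Finset.mem_insert_of_mem hi)))) rfl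
        rw [k5, hcast] at k4
        exact_mod_cast k4
    · rintro ⟨y, hy0, hyQ⟩
      obtain ⟨X, hX, hSX, hXy⟩ := h2 y
      have m1 : (fun w => aeval (fun i => X 0 i w) Q) ∈ T := by
        clear hQ hd hrep hsys hcast hyQ
        induction Q using MvPolynomial.induction_on with
        | C a =>
          have : (fun w => aeval (fun i => X 0 i w) (C a : MvPolynomial ℕ ℤ)) = ((a : ℤ) : ℂ → ℂ) := by
            funext w; simp
          rw [this]; exact intCast_mem T a
        | add p q hp hq =>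
          simp only [map_add]; exact T.add_mem hp hq
        | mul_X p i hp =>
          simp only [map_mul, aeval_X]; exact T.mul_mem hp (hX 0 i)
      obtain ⟨q₁, hq₁, e₁⟩ := hdiv _ m1 (by
        simp only [hXy]; rw [hcast, hyQ]; simp)
      obtain ⟨q₂, hq₂, e₂⟩ := hdiv (X 0 0 - (n : ℂ → ℂ)) (T.sub_mem (hX 0 0) (natCast_mem T n))
        (by simp [hXy, hy0])
      obtain ⟨X', hX'⟩ : ∃ X' : ℕ → ℕ → ℂ → ℂ,
        X' = fun t => Nat.casesOn t (fun i => if i = 0 then q₁ else q₂) X := ⟨_, rfl⟩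
      refine ⟨fun m => X' m.unpair.1 m.unpair.2, fun m => hT _ ?_, fun q hq => ?_⟩
      · rw [hX']
        beta_reduce
        rcases m.unpair.1 with _ | t
        · show (if m.unpair.2 = 0 then q₁ else q₂) ∈ T
          split_ifs <;> assumption
        · exact hX t _
      · rcases List.mem_cons.1 hq with rfl | hq
        · intro w
          rw [hev]
          simp only [val_zero, val_succ, Nat.unpair_pair, hX']
          have := e₂ w
          simp only [Pi.sub_apply, Pi.natCast_apply] at this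
          simp only [Nat.rec_zero, one_ne_zero, if_false]
          linear_combination -this
        · refine (hsys _).2 ⟨?_, fun w => ?_⟩ q hq
          · simpa only [Nat.unpair_pair, hX'] using hSX
          · simp only [Nat.unpair_pair, hX']
            exact e₁ w
  rintro ⟨inst, hc⟩
  apply hQ
  have hf : Computable fun n : ℕ =>
      (((List.range n).map (fun _ => ((1 : ℤ), ([] : List ℕ))) ++ p) :: sys) := by
    apply Primrec.to_comp
    refine Primrec.list_cons.comp (Primrec.list_append.comp ?_ (Primrec.const _)) (Primrec.const _)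
    exact Primrec.list_map Primrec.list_range (Primrec.const _).to₂
  refine ⟨inferInstance, (hc.comp hf).of_eq fun n => ?_⟩
  simp only [key]

end Pool.Agent.Lib.MP_b1b13a_lc
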