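import Pool.Agent.Lib.MP_b1b13a_lc.Tools

/-!
A Bloch-type lemma with a disc centred on the real axis.
-/

namespace Pool.Agent.Lib.MP_b1b13a_lc

open Complex Metric Set Filter Topology

/-- Growing homothetic discs until they touch the set where the imaginary part vanishes. -/
theorem touch {g : ℂ → ℂ} (hg : Continuous g) (h0 : (g 0).im ≤ 0) {q : ℂ} (hq : 0 < (g q).im)
    {ρ₀ : ℝ} (hρ : ‖q‖ < ρ₀) :
    ∃ (τ : ℝ) (t : ℂ), 0 < τ ∧ τ ≤ 1 ∧ ‖t - (1 - τ) * q‖ = τ * ρ₀ ∧ (g t).im = 0 ∧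
      ∀ z, ‖z - (1 - τ) * q‖ < τ * ρ₀ → 0 < (g z).im := by
  have hρ0 : 0 < ρ₀ := (norm_nonneg _).trans_lt hρ
  obtain ⟨T, hT⟩ : ∃ T : Set (ℝ × ℂ), T = (Icc (0 : ℝ) 1 ×ˢ closedBall (0 : ℂ) ρ₀) ∩
    {p | (g (q + p.1 * (p.2 - q))).im ≤ 0} := ⟨_, rfl⟩
  have hTc : IsCompact T := by
    rw [hT]
    refine (isCompact_Icc.prod (isCompact_closedBall _ _)).inter_right ?_
    exact isClosed_le (by fun_prop) continuous_const
  have hTne : T.Nonempty := ⟨(1, 0), by
    rw [hT]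
    refine ⟨⟨⟨zero_le_one, le_rfl⟩, by simp [hρ0.le]⟩, ?_⟩
    simpa using h0⟩
  obtain ⟨⟨τ, ζ⟩, hmem, hmin⟩ := hTc.exists_isMinOn hTne continuous_fst.continuousOn
  rw [hT] at hmem
  obtain ⟨⟨⟨hτ0, hτ1⟩, hζ⟩, him⟩ := hmem
  simp only [mem_closedBall, dist_zero_right, mem_ofPred_eq] at hτ0 hτ1 hζ him
  have hτ : 0 < τ := by
    rcases hτ0.lt_or_eq with h | h
    · exact h
    · rw [← h] at him
      simp at him
      linarith
  have hτc : (τ : ℂ) ≠ 0 := by exact_mod_cast hτ.ne'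
  have hpos : ∀ z, ‖z - (1 - τ) * q‖ < τ * ρ₀ → 0 < (g z).im := by
    intro z hz
    by_contra hle
    push Not at hle
    obtain ⟨ξ, hξ⟩ : ∃ ξ, ξ = (z - (1 - τ) * q) / τ := ⟨_, rfl⟩
    have hξn : ‖ξ‖ < ρ₀ := by
      rw [hξ, norm_div, norm_real, Real.norm_eq_abs, abs_of_pos hτ, div_lt_iff₀ hτ]; linarith
    obtain ⟨ε, hε⟩ : ∃ ε : ℝ, ε = (ρ₀ - ‖ξ‖) / (‖ξ - q‖ + 1) := ⟨_, rfl⟩
    have hε0 : 0 < ε := by rw [hε]; have := norm_nonneg (ξ - q); apply div_pos <;> linarith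
    have hε1 : ε * ‖ξ - q‖ ≤ ρ₀ - ‖ξ‖ := by
      have h1 : ε * (‖ξ - q‖ + 1) = ρ₀ - ‖ξ‖ := by
        rw [hε]; have := norm_nonneg (ξ - q); field_simp
      nlinarith
    have hmem : (τ / (1 + ε), ξ + ε * (ξ - q)) ∈ T := by
      rw [hT]
      refine ⟨⟨⟨by positivity, ?_⟩, ?_⟩, ?_⟩
      · show τ / (1 + ε) ≤ 1
        rw [div_le_one (by linarith)]; linarith
      · simp only [mem_closedBall, dist_zero_right]
        refine (norm_add_le _ _).trans ?_
        rw [norm_mul, norm_real, Real.norm_eq_abs, abs_of_pos hε0]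
        linarith
      · have hεc : (1 + (ε : ℂ)) ≠ 0 := by exact_mod_cast (by linarith : (1 + ε) ≠ 0)
        have e : q + ((τ / (1 + ε) : ℝ) : ℂ) * (ξ + ε * (ξ - q) - q) = z := by
          rw [hξ]; push_cast; field_simp; ring
        show (g (q + ((τ / (1 + ε) : ℝ) : ℂ) * (ξ + ε * (ξ - q) - q))).im ≤ 0
        rw [e]; exact hle
    have := hmin hmem
    simp only [mem_ofPred_eq] at this
    rw [le_div_iff₀ (by linarith)] at this
    nlinarith
  have et : q + τ * (ζ - q) - (1 - τ) * q = τ * ζ := by ring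
  have hle : ‖q + τ * (ζ - q) - (1 - τ) * q‖ ≤ τ * ρ₀ := by
    rw [et, norm_mul, norm_real, Real.norm_eq_abs, abs_of_pos hτ]; gcongr
  refine ⟨τ, q + τ * (ζ - q), hτ, hτ1, ?_, ?_, hpos⟩
  · rcases hle.lt_or_eq with h | h
    · exact absurd (hpos _ h) (not_lt.2 him)
    · exact h
  · refine le_antisymm him ?_
    have hcl : IsClosed {z | 0 ≤ (g z).im} := isClosed_le continuous_const (by fun_prop)
    have hsub : ball ((1 - τ) * q) (τ * ρ₀) ⊆ {z | 0 ≤ (g z).im} := fun z hz =>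
      (hpos z (by rwa [mem_ball, dist_eq_norm] at hz)).le
    have := hcl.closure_subset_iff.2 hsub
    rw [closure_ball _ (by positivity)] at this
    exact this (by rwa [mem_closedBall, dist_eq_norm])

/-- Hopf-type boundary lemma. -/
theorem hopf {g : ℂ → ℂ} (hg : Differentiable ℂ g) {c t : ℂ} {ρ : ℝ} (hρ : 0 < ρ)
    (ht : ‖t - c‖ = ρ) (him : (g t).im = 0) (hpos : ∀ z, ‖z - c‖ < ρ → 0 < (g z).im) :
    (g c).im / (3 * ρ) ≤ ‖deriv g t‖ := by
  have ha : 0 < (g c).im := hpos c (by simpa using hρ)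
  have hf : ∀ w : ℂ, ‖w‖ < ρ → 0 < (g (c + w) - g t).im := fun w hw => by
    rw [sub_im, him, sub_zero]; exact hpos _ (by simpa using hw)
  have hne : ∀ w : ℂ, ‖w‖ < ρ → g (c + w) - g t ≠ 0 := fun w hw h => by
    have := hf w hw
    rw [h] at this
    simp at this
  have key : ∀ w : ℂ, ‖w‖ < ρ → (g c).im * (ρ - ‖w‖) ≤ 3 * ρ * ‖g (c + w) - g t‖ := by
    intro w hw
    have h := halfplane (k := fun w => -I * (g (c + w) - g t)⁻¹) (ρ := ρ) ?_ ?_ ?_ hw
    · simp only [norm_mul, norm_neg, norm_I, one_mul, norm_inv, add_zero] at h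
      have h1 : 0 < ‖g (c + w) - g t‖ := norm_pos_iff.2 (hne w hw)
      have h2 : (g c).im ≤ ‖g c - g t‖ := by
        have := (le_abs_self _).trans (abs_im_le_norm (g c - g t))
        rwa [sub_im, him, sub_zero] at this
      have h3 : 0 < ‖g c - g t‖ := ha.trans_le h2
      have h4 : ‖g c - g t‖ * (ρ - ‖w‖) ≤ 3 * ρ * ‖g (c + w) - g t‖ := by
        have h5 := mul_le_mul_of_nonneg_left h (mul_pos h1 h3).le
        have e1 : ‖g (c + w) - g t‖ * ‖g c - g t‖ * (‖g (c + w) - g t‖⁻¹ * (ρ - ‖w‖))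
            = ‖g c - g t‖ * (ρ - ‖w‖) := by field_simp
        have e2 : ‖g (c + w) - g t‖ * ‖g c - g t‖ * (3 * ρ * ‖g c - g t‖⁻¹)
            = 3 * ρ * ‖g (c + w) - g t‖ := by field_simp
        rwa [e1, e2] at h5
      have : (g c).im * (ρ - ‖w‖) ≤ ‖g c - g t‖ * (ρ - ‖w‖) := by
        gcongr
      linarith
    · apply DifferentiableOn.const_mul
      apply DifferentiableOn.inv (by fun_prop)
      exact fun w hw => hne w (mem_ball_zero_iff.1 hw)
    · intro w hw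
      have h1 := hf w (mem_ball_zero_iff.1 hw)
      have h2 : 0 ≤ normSq (g (c + w) - g t) := normSq_nonneg _
      simp only [neg_mul, neg_re, mul_re, I_re, zero_mul, I_im, inv_im, one_mul, zero_sub, neg_neg]
      exact div_nonpos_of_nonpos_of_nonneg (by linarith) h2
    · simp only [ne_eq, mul_eq_zero, neg_eq_zero, I_ne_zero, inv_eq_zero, false_or]
      exact hne 0 (by simpa using hρ)
  have htc : t - c ≠ 0 := norm_pos_iff.1 (by linarith)
  have hlim : Tendsto (fun θ : ℝ => c + θ * (t - c)) (𝓝[<] 1) (𝓝[≠] t) := by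
    apply tendsto_nhdsWithin_iff.2
    constructor
    · have : Tendsto (fun θ : ℝ => c + θ * (t - c)) (𝓝 1) (𝓝 (c + (1 : ℝ) * (t - c))) :=
        Continuous.tendsto (by fun_prop) 1
      simp only [ofReal_one, one_mul, add_sub_cancel] at this
      exact this.mono_left nhdsWithin_le_nhds
    · filter_upwards [self_mem_nhdsWithin] with θ hθ h
      have h1 : ((θ : ℂ) - 1) * (t - c) = 0 := by
        have : c + θ * (t - c) = t := h
        linear_combination this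
      rcases mul_eq_zero.1 h1 with h2 | h2
      · have : θ = 1 := by exact_mod_cast sub_eq_zero.1 h2
        exact absurd this (ne_of_lt hθ)
      · exact htc h2
  have hs := ((hasDerivAt_iff_tendsto_slope.1 (hg t).hasDerivAt).comp hlim).norm
  refine ge_of_tendsto hs ?_
  filter_upwards [Ioo_mem_nhdsLT (zero_lt_one' ℝ)] with θ hθ
  have hn : ‖(θ : ℂ) * (t - c)‖ = θ * ρ := by
    rw [norm_mul, norm_real, Real.norm_eq_abs, abs_of_pos hθ.1, ht]
  have h1 := key (θ * (t - c)) (by rw [hn]; nlinarith [hθ.2])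
  have hn2 : ‖c + θ * (t - c) - t‖ = (1 - θ) * ρ := by
    have : c + θ * (t - c) - t = -(((1 - θ : ℝ) : ℂ) * (t - c)) := by push_cast; ring
    rw [this, norm_neg, norm_mul, norm_real, Real.norm_eq_abs, abs_of_pos (by linarith [hθ.2]), ht]
  simp only [Function.comp_apply, slope_def_field, norm_div, hn2]
  rw [hn] at h1
  rw [div_le_div_iff₀ (by positivity) (by nlinarith [hθ.2])]
  nlinarith

theorem geom1 {g : ℂ → ℂ} (hg : Differentiable ℂ g) (h0 : g 0 = 0) {R m : ℝ} (hR : 0 < R)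
    (hm : 0 < m) {z₀ : ℂ} (hz₀ : ‖z₀‖ ≤ R / 4) (hmz : m ≤ ‖g z₀‖) :
    ∃ (M x : ℝ) (t : ℂ), 0 < M ∧ 0 < x ∧ x ≤ 1 ∧ (3 / 4) ^ 14 * m ≤ x ^ 14 * M ∧
      (∀ z, ‖z‖ ≤ R - x * R / 2 → ‖g z‖ ≤ 2 ^ 14 * M) ∧ ‖t‖ ≤ R - 3 * (x * R) / 4 ∧
      (g t).im = 0 ∧ M * x ^ 2 / (2 ^ 11 * R) ≤ ‖deriv g t‖ := by
  have hgc := hg.continuous
  obtain ⟨p, hp, hmax⟩ := (isCompact_closedBall (0 : ℂ) R).exists_isMaxOn
    ⟨0, by simp [hR.le]⟩ (f := fun z => (R - ‖z‖) ^ 14 * ‖g z‖) (by fun_prop)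
  have hpR : ‖p‖ ≤ R := by simpa using hp
  have hmax' : ∀ z, ‖z‖ ≤ R → (R - ‖z‖) ^ 14 * ‖g z‖ ≤ (R - ‖p‖) ^ 14 * ‖g p‖ :=
    fun z hz => hmax (by simpa using hz)
  obtain ⟨η, hη⟩ : ∃ η, η = R - ‖p‖ := ⟨_, rfl⟩
  obtain ⟨M, hM⟩ : ∃ M, M = ‖g p‖ := ⟨_, rfl⟩
  rw [← hη, ← hM] at hmax'
  have hlow : (3 / 4 * R) ^ 14 * m ≤ η ^ 14 * M := by
    refine le_trans ?_ (hmax' z₀ (by linarith))
    gcongr
    linarith
  have hpos : 0 < η ^ 14 * M := lt_of_lt_of_le (by positivity) hlow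
  have hη0 : 0 ≤ η := by linarith
  have hM0 : 0 ≤ M := hM ▸ norm_nonneg _
  have hηp : 0 < η := by
    rcases hη0.lt_or_eq with h | h
    · exact h
    · rw [← h] at hpos; simp at hpos
  have hMp : 0 < M := by
    rcases hM0.lt_or_eq with h | h
    · exact h
    · rw [← h] at hpos; simp at hpos
  have hηR : η ≤ R := by linarith [norm_nonneg p]
  obtain ⟨x, hx⟩ : ∃ x, x = η / R := ⟨_, rfl⟩
  have hxR : x * R = η := by rw [hx]; field_simp
  have hx0 : 0 < x := by rw [hx]; positivity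
  have hx1 : x ≤ 1 := by rw [hx, div_le_one hR]; exact hηR
  -- a point with large imaginary part
  obtain ⟨q, hq, hqi⟩ : ∃ q : ℂ, ‖q‖ < ‖p‖ + η / 8 ∧ M * x / 17 < (g q).im := by
    by_contra hcon
    push Not at hcon
    have h := Complex.borelCaratheodory_zero (f := fun z => -I * g z) (M := M * x / 17)
      (R := ‖p‖ + η / 8) (z := p) (by positivity) (by fun_prop)
      (fun z hz => by simpa using hcon z (mem_ball_zero_iff.1 hz))
      (by positivity) (mem_ball_zero_iff.2 (by linarith)) (by simp [h0])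
    simp only [norm_mul, norm_neg, norm_I, one_mul, add_sub_cancel_left] at h
    rw [← hM, le_div_iff₀ (by positivity)] at h
    have h2 : M * x * ‖p‖ ≤ M * x * R := by gcongr
    have h3 : M * x * R = M * η := by rw [mul_assoc, hxR]
    nlinarith [mul_pos hMp hηp]
  have hqpos : 0 < (g q).im := lt_trans (by positivity) hqi
  obtain ⟨τ, t, hτ0, hτ1, ht, him, hposd⟩ := touch hgc (by simp [h0]) hqpos
    (ρ₀ := ‖q‖ + η / 8) (by linarith)
  obtain ⟨c, hc⟩ : ∃ c, c = (1 - (τ : ℂ)) * q := ⟨_, rfl⟩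
  obtain ⟨ρ, hρ⟩ : ∃ ρ, ρ = τ * (‖q‖ + η / 8) := ⟨_, rfl⟩
  rw [← hc, ← hρ] at ht hposd
  have hρ0 : 0 < ρ := by rw [hρ]; have := norm_nonneg q; positivity
  have hρR : ρ ≤ R := by
    have : ρ ≤ ‖q‖ + η / 8 := by
      rw [hρ]; have := norm_nonneg q
      nlinarith
    linarith
  have hcn : ‖c‖ = (1 - τ) * ‖q‖ := by
    rw [hc, norm_mul]
    congr 1
    have : (1 - (τ : ℂ)) = ((1 - τ : ℝ) : ℂ) := by push_cast; ring
    rw [this, norm_real, Real.norm_eq_abs, abs_of_nonneg (by linarith)]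
  have ha : 0 < (g c).im := hposd c (by simpa using hρ0)
  -- Harnack
  have hharn : (g q).im * (τ * (η / 8)) ≤ 3 * ρ * (g c).im := by
    have hw : ‖(τ : ℂ) * q‖ = τ * ‖q‖ := by
      rw [norm_mul, norm_real, Real.norm_eq_abs, abs_of_pos hτ0]
    have hk0 : I * (g (c + 0) - ((g c).re : ℂ)) = -((g c).im : ℂ) := by
      rw [add_zero]
      conv_lhs => rw [← re_add_im (g c)]
      simp only [add_re, ofReal_re, mul_re, I_re, mul_zero, ofReal_im, I_im, mul_one, sub_self,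
        add_zero, add_sub_cancel_left]
      linear_combination ((g c).im : ℂ) * I_mul_I
    have h := halfplane (k := fun w => I * (g (c + w) - ((g c).re : ℂ))) (ρ := ρ) (by fun_prop)
      (fun w hw => ?_) ?_ (w := τ * q) (by rw [hw, hρ]; nlinarith)
    · have e : c + τ * q = q := by rw [hc]; ring
      simp only [hk0, e, norm_mul, norm_I, one_mul, norm_neg, norm_real, Real.norm_eq_abs,
        abs_of_pos ha, abs_of_pos hτ0] at h
      have h2 : (g q).im ≤ ‖g q - ((g c).re : ℂ)‖ := by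
        have := (le_abs_self _).trans (abs_im_le_norm (g q - ((g c).re : ℂ)))
        simpa using this
      have e2 : ρ - τ * ‖q‖ = τ * (η / 8) := by rw [hρ]; ring
      rw [e2] at h
      refine le_trans ?_ h
      gcongr
    · have := hposd (c + w) (by simpa using mem_ball_zero_iff.1 hw)
      simp only [mul_re, I_re, zero_mul, I_im, sub_im, ofReal_im, sub_zero, one_mul, zero_sub]
      linarith
    · simp only [hk0, ne_eq, neg_eq_zero, ofReal_eq_zero]
      exact ha.ne'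
  have ha2 : M * x ^ 2 / 408 ≤ (g c).im := by
    have h1 : (g q).im * (η / 8) ≤ 3 * (‖q‖ + η / 8) * (g c).im := by
      rw [hρ] at hharn
      have : τ * ((g q).im * (η / 8)) ≤ τ * (3 * (‖q‖ + η / 8) * (g c).im) := by linarith
      exact le_of_mul_le_mul_left this hτ0
    have h2 : 3 * (‖q‖ + η / 8) * (g c).im ≤ 3 * R * (g c).im := by gcongr; linarith
    have h3 : M * x / 17 * (η / 8) ≤ (g q).im * (η / 8) := by gcongr
    have h4 : R * (M * x ^ 2 / 408) ≤ R * (g c).im := by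
      rw [← hxR] at h3 h1 h2
      nlinarith
    exact le_of_mul_le_mul_left h4 hR
  have hh := hopf hg hρ0 ht him hposd
  refine ⟨M, x, t, hMp, hx0, hx1, ?_, fun z hz => ?_, ?_, him, le_trans ?_ hh⟩
  · have : R ^ 14 * ((3 / 4) ^ 14 * m) ≤ R ^ 14 * (x ^ 14 * M) := by
      calc R ^ 14 * ((3 / 4) ^ 14 * m) = (3 / 4 * R) ^ 14 * m := by ring
        _ ≤ η ^ 14 * M := hlow
        _ = _ := by rw [← hxR]; ring
    exact le_of_mul_le_mul_left this (by positivity)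
  · rw [hxR] at hz
    have h1 := hmax' z (by linarith)
    have h2 : (η / 2) ^ 14 * ‖g z‖ ≤ (R - ‖z‖) ^ 14 * ‖g z‖ := by gcongr; linarith
    have h3 : η ^ 14 * ‖g z‖ ≤ η ^ 14 * (2 ^ 14 * M) := by nlinarith
    exact le_of_mul_le_mul_left h3 (by positivity)
  · have h1 : ‖t‖ ≤ ‖t - c‖ + ‖c‖ := norm_le_norm_sub_add _ _
    rw [ht, hcn, hρ] at h1
    rw [hxR]
    nlinarith
  · rw [div_le_div_iff₀ (by positivity) (by positivity)]
    have h1 : M * x ^ 2 * (3 * ρ) ≤ M * x ^ 2 * (3 * R) := by gcongr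
    have h2 : M * x ^ 2 / 408 * (2 ^ 11 * R) ≤ (g c).im * (2 ^ 11 * R) := by gcongr
    have h3 : 0 ≤ M * x ^ 2 * R := by positivity
    nlinarith

/-- Bloch-type lemma: a branch of the inverse on a large disc centred on the real axis. -/
theorem geom {g : ℂ → ℂ} (hg : Differentiable ℂ g) (h0 : g 0 = 0) {R m : ℝ} (hR : 0 < R)
    (hm : 0 < m) {z₀ : ℂ} (hz₀ : ‖z₀‖ ≤ R / 4) (hmz : m ≤ ‖g z₀‖) :
    ∃ (M x x₀ : ℝ) (ψ : ℂ → ℂ), 0 < M ∧ 0 < x ∧ x ≤ 1 ∧ (3 / 4) ^ 14 * m ≤ x ^ 14 * M ∧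
      (∀ z, ‖z‖ ≤ R - x * R / 2 → ‖g z‖ ≤ 2 ^ 14 * M) ∧
      DifferentiableOn ℂ ψ (ball x₀ (M * x ^ 6 / 2 ^ 47)) ∧
      ∀ y ∈ ball (x₀ : ℂ) (M * x ^ 6 / 2 ^ 47), ‖ψ y‖ ≤ R - 5 * (x * R) / 8 ∧ g (ψ y) = y := by
  obtain ⟨M, x, t, hM, hx0, hx1, h1, h2, ht, him, hder⟩ := geom1 hg h0 hR hm hz₀ hmz
  obtain ⟨η, hη⟩ : ∃ η, η = x * R := ⟨_, rfl⟩
  have hηp : 0 < η := by rw [hη]; positivity
  rw [← hη] at h2 ht
  have hd1 : ∀ z ∈ ball t (η / 8), ‖deriv g z‖ ≤ 2 ^ 18 * M / η := fun z hz => by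
    have hz' : ‖z‖ ≤ R - 5 * η / 8 := by
      have := norm_le_norm_sub_add z t
      rw [mem_ball, dist_eq_norm] at hz
      linarith
    have h := Complex.norm_deriv_le_div_of_mapsTo_ball (f := g) (c := z) (R₁ := η / 8)
      (R₂ := 2 ^ 15 * M) hg.differentiableOn (fun w hw => ?_) (by positivity)
    · refine h.trans_eq ?_
      field_simp; ring
    · rw [mem_closedBall, dist_eq_norm]
      have hw' : ‖w‖ ≤ R - η / 2 := by
        have := norm_le_norm_sub_add w z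
        rw [mem_ball, dist_eq_norm] at hw
        linarith
      have := h2 w hw'
      have := h2 z (by linarith)
      have := norm_sub_le (g w) (g z)
      linarith
  have hd2 : ∀ z ∈ ball t (η / 8), ‖deriv g z - deriv g t‖ ≤ 2 ^ 22 * M / η ^ 2 * ‖z - t‖ :=
    fun z hz => by
      have h := Complex.dist_le_div_mul_dist_of_mapsTo_ball (f := deriv g) (c := t) (R₁ := η / 8)
        (R₂ := 2 ^ 19 * M / η) hg.deriv.differentiableOn (fun w hw => ?_) hz
      · rw [dist_eq_norm, dist_eq_norm] at h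
        refine h.trans_eq ?_
        field_simp; ring
      · rw [mem_closedBall, dist_eq_norm]
        have := hd1 w hw
        have := hd1 t (mem_ball_self (by positivity))
        have := norm_sub_le (deriv g w) (deriv g t)
        have e : 2 ^ 19 * M / η = 2 ^ 18 * M / η + 2 ^ 18 * M / η := by ring
        linarith
  have hr : x ^ 4 * R / 2 ^ 34 ≤ η / 8 := by
    have h3 : x ^ 3 ≤ 1 := pow_le_one₀ hx0.le hx1
    have : x ^ 4 * R = x ^ 3 * η := by rw [hη]; ring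
    rw [this]
    nlinarith
  obtain ⟨ψ, hψ1, hψ2⟩ := exists_inverse hg (t := t) (r := x ^ 4 * R / 2 ^ 34)
    (a := M * x ^ 2 / (2 ^ 11 * R)) (by positivity) (by positivity) hder (fun z hz => by
      refine (hd2 z (ball_subset_ball hr hz)).trans ?_
      rw [mem_ball, dist_eq_norm] at hz
      calc 2 ^ 22 * M / η ^ 2 * ‖z - t‖ ≤ 2 ^ 22 * M / η ^ 2 * (x ^ 4 * R / 2 ^ 34) := by
            gcongr
        _ = _ := by rw [hη]; field_simp)
  have e : M * x ^ 2 / (2 ^ 11 * R) * (x ^ 4 * R / 2 ^ 34) / 4 = M * x ^ 6 / 2 ^ 47 := by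
    field_simp; norm_num
  have e2 : g t = ((g t).re : ℂ) := by
    apply Complex.ext <;> simp [him]
  rw [e, e2] at hψ1 hψ2
  refine ⟨M, x, (g t).re, ψ, hM, hx0, hx1, h1, by rwa [← hη], hψ1, fun y hy => ⟨?_, (hψ2 y hy).2⟩⟩
  have h3 := (hψ2 y hy).1
  rw [mem_ball, dist_eq_norm] at h3
  have := norm_le_norm_sub_add (ψ y) t
  rw [← hη]
  linarith

end Pool.Agent.Lib.MP_b1b13a_lc
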