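import Pool.Agent.Lib.MP_b1b13a_lc.Polya

/-!
Lower growth bounds along chains of units.
-/

namespace Pool.Agent.Lib.MP_b1b13a_lc

open Complex Metric Set Filter Topology

theorem tw_succ (k : ℕ) (y : ℝ) : Real.exp^[k + 1] y = Real.exp (Real.exp^[k] y) :=
  Function.iterate_succ_apply' _ _ _

theorem tw_mono (k : ℕ) {a b : ℝ} (h : a ≤ b) : Real.exp^[k] a ≤ Real.exp^[k] b :=
  (Real.exp_monotone.iterate k) h

theorem le_tw (k : ℕ) (y : ℝ) : y ≤ Real.exp^[k] y := by
  induction k with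
  | zero => exact le_rfl
  | succ k ih => rw [tw_succ]; linarith [Real.add_one_le_exp (Real.exp^[k] y)]

theorem tw_level {j k : ℕ} (h : j ≤ k) (y : ℝ) : Real.exp^[j] y ≤ Real.exp^[k] y := by
  obtain ⟨d, rfl⟩ := Nat.exists_eq_add_of_le' h
  rw [Function.iterate_add_apply]
  exact le_tw _ _

theorem tw_gap (k : ℕ) {a b : ℝ} (hb : 0 ≤ b) (h : b ≤ a) :
    a - b ≤ Real.exp^[k] a - Real.exp^[k] b := by
  induction k with
  | zero => exact le_rfl
  | succ k ih =>
    rw [tw_succ, tw_succ]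
    have h1 : 1 ≤ Real.exp (Real.exp^[k] b) := Real.one_le_exp (hb.trans (le_tw _ _))
    have h2 := Real.add_one_le_exp (Real.exp^[k] a - Real.exp^[k] b)
    have h3 : Real.exp (Real.exp^[k] a)
        = Real.exp (Real.exp^[k] b) * Real.exp (Real.exp^[k] a - Real.exp^[k] b) := by
      rw [← Real.exp_add]; congr 1; ring
    nlinarith

theorem tw_double (k : ℕ) {y : ℝ} (hy : 2 ≤ y) :
    2 * Real.exp^[k] y + 2 ≤ Real.exp^[k] (3 * y) := by
  induction k with
  | zero => simp only [Function.iterate_zero, id_eq]; linarith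
  | succ k ih =>
    rw [tw_succ, tw_succ]
    have h1 : 3 ≤ Real.exp (Real.exp^[k] y) := by
      linarith [Real.add_one_le_exp (Real.exp^[k] y), le_tw k y]
    have h2 : Real.exp (2 * Real.exp^[k] y) ≤ Real.exp (Real.exp^[k] (3 * y)) :=
      Real.exp_le_exp.2 (by linarith)
    rw [two_mul (Real.exp^[k] y), Real.exp_add] at h2
    nlinarith

theorem tw_scale (k : ℕ) {c : ℝ} (hc : 0 < c) :
    ∃ c' : ℝ, 0 < c' ∧ ∀ᶠ y : ℝ in atTop, Real.exp^[k] (c' * y) ≤ c * Real.exp^[k] y := by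
  rcases k with _ | k
  · exact ⟨c, hc, Eventually.of_forall fun y => le_rfl⟩
  · refine ⟨1 / 2, by norm_num, ?_⟩
    filter_upwards [eventually_ge_atTop 0, eventually_ge_atTop (-2 * Real.log c)] with y h0 h1
    have := tw_gap k (a := y) (b := 1 / 2 * y) (by linarith) (by linarith)
    rw [tw_succ, tw_succ]
    conv_rhs => rw [← Real.exp_log hc, ← Real.exp_add]
    exact Real.exp_le_exp.2 (by linarith)

theorem tw_tendsto (k : ℕ) {c : ℝ} (hc : 0 < c) :
    Tendsto (fun r : ℝ => Real.exp^[k] (c * r)) atTop atTop :=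
  tendsto_atTop_mono (fun _ => le_tw k _) (tendsto_id.const_mul_atTop hc)

/-- The maximum modulus is at least a tower of height `k` at all large radii. -/
def Big (k : ℕ) (f : ℂ → ℂ) : Prop :=
  ∃ c : ℝ, 0 < c ∧ ∀ᶠ r : ℝ in atTop, ∃ z, ‖z‖ ≤ r ∧ Real.exp^[k] (c * r) ≤ ‖f z‖

theorem big_zero {g : ℂ → ℂ} (hg : Differentiable ℂ g) {z₁ : ℂ} (h : g z₁ ≠ g 0) : Big 0 g := by
  have hz : 0 < ‖z₁‖ := norm_pos_iff.2 fun h0 => h (by rw [h0])
  have hd : 0 < ‖g z₁ - g 0‖ := norm_pos_iff.2 (sub_ne_zero.2 h)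
  refine ⟨‖g z₁ - g 0‖ / (4 * ‖z₁‖), by positivity, ?_⟩
  filter_upwards [eventually_gt_atTop ‖z₁‖] with r hr
  by_contra hcon
  push Not at hcon
  simp only [Function.iterate_zero, id_eq] at hcon
  have hr0 : 0 < r := hz.trans hr
  have h1 := Complex.dist_le_div_mul_dist_of_mapsTo_ball (f := g) (c := 0) (R₁ := r)
    (R₂ := 2 * (‖g z₁ - g 0‖ / (4 * ‖z₁‖) * r)) hg.differentiableOn (fun w hw => ?_)
    (mem_ball_zero_iff.2 hr)
  · rw [dist_eq_norm, dist_zero_right] at h1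
    have e : 2 * (‖g z₁ - g 0‖ / (4 * ‖z₁‖) * r) / r * ‖z₁‖ = ‖g z₁ - g 0‖ / 2 := by
      field_simp; ring
    linarith
  · rw [mem_closedBall, dist_eq_norm]
    have := hcon w (mem_ball_zero_iff.1 hw).le
    have := hcon 0 (by simpa using hr0.le)
    have := norm_sub_le (g w) (g 0)
    linarith

theorem big_exp {g : ℂ → ℂ} (hg : Differentiable ℂ g) (h0 : g 0 = 0) {k : ℕ} (h : Big k g) :
    Big (k + 1) fun z => exp (2 * Real.pi * I * g z) := by
  obtain ⟨c, hc, h⟩ := h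
  refine ⟨c / 2, by positivity, ?_⟩
  have ht : Tendsto (fun r : ℝ => r / 2) atTop atTop := tendsto_id.atTop_div_const (by norm_num)
  filter_upwards [ht.eventually h, eventually_gt_atTop 0] with r hr hr0
  obtain ⟨z, hz, hE⟩ := hr
  have e : c * (r / 2) = c / 2 * r := by ring
  rw [e] at hE
  by_contra hcon
  push Not at hcon
  obtain ⟨E, hEd⟩ : ∃ E, E = Real.exp^[k] (c / 2 * r) := ⟨_, rfl⟩
  have hE0 : 0 < E := by rw [hEd]; exact lt_of_lt_of_le (by positivity) (le_tw _ _)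
  rw [tw_succ, ← hEd] at hcon
  rw [← hEd] at hE
  have h1 := Complex.borelCaratheodory_zero (f := fun z => 2 * Real.pi * I * g z) (M := E)
    (R := r) (z := z) hE0 (by fun_prop) (fun w hw => ?_) hr0 (mem_ball_zero_iff.2 (by linarith))
    (by simp [h0])
  · simp only [norm_mul, norm_I, mul_one, norm_real, Real.norm_eq_abs, Complex.norm_ofNat,
      abs_of_pos Real.pi_pos] at h1
    rw [le_div_iff₀ (by linarith)] at h1
    have h2 : 3 * E ≤ Real.pi * ‖g z‖ := by
      have := Real.pi_gt_three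
      nlinarith
    nlinarith [norm_nonneg z]
  · have := hcon w (mem_ball_zero_iff.1 hw).le
    rw [Complex.norm_exp] at this
    exact (Real.exp_lt_exp.1 this).le

theorem big_step {g G : ℂ → ℂ} {k : ℕ} (h : Big k g)
    (hp : ∃ c m₀ : ℝ, 0 < c ∧ ∀ R m : ℝ, 4 ≤ R → m₀ ≤ m → ∀ z₀, ‖z₀‖ ≤ R / 4 → m ≤ ‖g z₀‖ →
      ∃ z, ‖z‖ ≤ R ∧ Real.exp (c * m) ≤ ‖G z‖) : Big (k + 1) G := by
  obtain ⟨c₀, hc₀, h⟩ := h
  obtain ⟨c, m₀, hc, hp⟩ := hp
  obtain ⟨c', hc', hs⟩ := tw_scale k hc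
  refine ⟨c' * c₀ / 4, by positivity, ?_⟩
  have ht : Tendsto (fun r : ℝ => r / 4) atTop atTop := tendsto_id.atTop_div_const (by norm_num)
  filter_upwards [ht.eventually h, eventually_ge_atTop 4,
    ((tw_tendsto k hc₀).comp ht).eventually_ge_atTop m₀,
    ((tendsto_id.const_mul_atTop hc₀).comp ht).eventually hs] with R h1 h2 h3 h4
  obtain ⟨z₀, hz₀, hE⟩ := h1
  obtain ⟨z, hz, hG⟩ := hp R _ h2 h3 z₀ hz₀ hE
  refine ⟨z, hz, le_trans ?_ hG⟩
  rw [tw_succ]
  apply Real.exp_le_exp.2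
  have e : c' * c₀ / 4 * R = c' * (c₀ * (R / 4)) := by ring
  rw [e]
  exact h4

/-- A unit whose normalised logarithm is big. -/
def LBig (k : ℕ) (u : ℂ → ℂ) : Prop :=
  ∃ g : ℂ → ℂ, Differentiable ℂ g ∧ g 0 = 0 ∧ (∀ z, u z = exp (2 * Real.pi * I * g z)) ∧ Big k g

theorem LBig.big {k : ℕ} {u : ℂ → ℂ} (h : LBig k u) : Big (k + 1) u := by
  obtain ⟨g, hg, h0, hu, hb⟩ := h
  have : u = fun z => exp (2 * Real.pi * I * g z) := funext hu
  rw [this]
  exact big_exp hg h0 hb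

theorem two_pi_I_ne : (2 * Real.pi * I : ℂ) ≠ 0 := Complex.two_pi_I_ne_zero

theorem exists_log' {u : ℂ → ℂ} (hu : Differentiable ℂ u) (h0 : ∀ z, u z ≠ 0) :
    ∃ g : ℂ → ℂ, Differentiable ℂ g ∧ (u 0 = 1 → g 0 = 0) ∧
      ∀ z, u z = exp (2 * Real.pi * I * g z) := by
  obtain ⟨g, hg, hg0, h⟩ := exists_log hu h0 (log (u 0)) (exp_log (h0 0)).symm
  refine ⟨fun z => g z / (2 * Real.pi * I), by fun_prop, fun h1 => by simp [hg0, h1], fun z => ?_⟩
  rw [h z]; congr 1
  field_simp [two_pi_I_ne]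

theorem lbig_zero {u : ℂ → ℂ} (hu : Differentiable ℂ u) (h0 : ∀ z, u z ≠ 0) (h1 : u 0 = 1)
    {z₁ : ℂ} (h2 : u z₁ ≠ 1) : LBig 0 u := by
  obtain ⟨g, hg, hg0, h⟩ := exists_log' hu h0
  refine ⟨g, hg, hg0 h1, h, big_zero hg (z₁ := z₁) fun h3 => h2 ?_⟩
  rw [h z₁, h3, ← h 0, h1]

theorem Big.exists_ne {k : ℕ} {g : ℂ → ℂ} (h : Big k g) : ∃ z, g z ≠ 0 := by
  obtain ⟨c, hc, h⟩ := h
  obtain ⟨r, ⟨z, _, hz⟩, hr⟩ := (h.and (eventually_gt_atTop 0)).exists
  refine ⟨z, norm_pos_iff.1 (lt_of_lt_of_le ?_ hz)⟩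
  exact lt_of_lt_of_le (by positivity) (le_tw _ _)

theorem val_of_zpow {u h : ℂ → ℂ} (hu : Differentiable ℂ u) (hh : Continuous h) (h1 : u 0 = 1)
    (hne : ∃ z, u z ≠ 1) {a : ℤ} (e : ∀ z, u z ^ a - 1 = h z * (u z - 1)) : h 0 = a := by
  have hd : HasDerivAt (fun y : ℂ => y ^ a) ((a : ℂ) * 1 ^ (a - 1)) 1 :=
    hasDerivAt_zpow a 1 (Or.inl one_ne_zero)
  have hq : ContinuousAt (dslope (fun y : ℂ => y ^ a) 1) 1 :=
    continuousAt_dslope_same.2 hd.differentiableAt
  have hq1 : dslope (fun y : ℂ => y ^ a) 1 1 = a := by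
    rw [dslope_same, hd.deriv]; simp
  have hev : ∀ᶠ z in 𝓝[≠] (0 : ℂ), u z ≠ 1 := by
    rcases (hu.analyticAt 0).eventually_eq_or_eventually_ne analyticAt_const (g := fun _ => 1)
      with h | h
    · exfalso
      obtain ⟨z, hz⟩ := hne
      have := AnalyticOnNhd.eq_of_eventuallyEq (𝕜 := ℂ) (f := u) (g := fun _ => 1)
        (fun w _ => hu.analyticAt w) analyticOnNhd_const h
      exact hz (by rw [this])
    · exact h
  have heq : h =ᶠ[𝓝[≠] 0] fun z => dslope (fun y : ℂ => y ^ a) 1 (u z) := by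
    filter_upwards [hev] with z hz
    have h2 := sub_smul_dslope (fun y : ℂ => y ^ a) 1 (u z)
    simp only [smul_eq_mul, one_zpow] at h2
    rw [e z, mul_comm] at h2
    exact (mul_right_cancel₀ (sub_ne_zero.2 hz) h2).symm
  have t1 : Tendsto h (𝓝[≠] 0) (𝓝 (h 0)) := hh.continuousAt.tendsto.mono_left nhdsWithin_le_nhds
  have t2 : Tendsto (fun z => dslope (fun y : ℂ => y ^ a) 1 (u z)) (𝓝[≠] 0) (𝓝 a) := by
    have t3 : Tendsto u (𝓝[≠] 0) (𝓝 1) :=
      h1 ▸ hu.continuous.continuousAt.tendsto.mono_left nhdsWithin_le_nhds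
    exact hq1 ▸ hq.tendsto.comp t3
  exact tendsto_nhds_unique (t1.congr' heq) t2

/-- One link of the chain: the quotient has an integer value or the growth level goes up. -/
theorem link {u v h h' : ℂ → ℂ} {b : ℂ} {k : ℕ} (hu : LBig k u) (hv : Differentiable ℂ v)
    (hh : Continuous h) (v0 : ∀ z, v z ≠ 0) (e1 : ∀ z, v z - 1 = h z * (u z - 1))
    (e2 : ∀ z, v z - b = h' z * (u z - 2)) : (∃ a : ℤ, h 0 = a) ∨ LBig (k + 1) v := by
  obtain ⟨g, hg, h0, hu, hb⟩ := hu
  have hu0 : u 0 = 1 := by rw [hu, h0]; simp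
  have hv0 : v 0 = 1 := by have := e1 0; rw [hu0] at this; linear_combination this
  obtain ⟨G, hG, hG0, hvG⟩ := exists_log' hv v0
  have hud : Differentiable ℂ u := by
    have : u = fun z => exp (2 * Real.pi * I * g z) := funext hu
    rw [this]; fun_prop
  have hint : ∀ n : ℤ, exp (2 * Real.pi * I * n) = 1 := fun n => by
    rw [mul_comm]; exact Complex.exp_int_mul_two_pi_mul_I n
  by_cases hl : ∃ a b : ℤ, ∀ z, G z = a * g z + b
  · left
    obtain ⟨a, b', hl⟩ := hl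
    refine ⟨a, val_of_zpow hud hh hu0 ?_ fun z => ?_⟩
    · by_contra hcon
      push Not at hcon
      obtain ⟨z, hz⟩ := hb.exists_ne
      have hd : ∀ w, deriv g w = 0 := fun w => by
        have k1 : HasDerivAt u (exp (2 * Real.pi * I * g w) * (2 * Real.pi * I * deriv g w)) w := by
          have : u = fun z => exp (2 * Real.pi * I * g z) := funext hu
          rw [this]
          exact ((hg w).hasDerivAt.const_mul _).cexp
        have k2 : HasDerivAt u 0 w := by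
          have : u = fun _ => 1 := funext hcon
          rw [this]; exact hasDerivAt_const _ _
        have k3 := k1.unique k2
        simpa [exp_ne_zero, Real.pi_ne_zero] using k3
      exact hz ((is_const_of_deriv_eq_zero hg hd z 0).trans h0)
    · rw [← e1, hvG, hl, hu, ← Complex.exp_int_mul, mul_add, Complex.exp_add, hint, mul_one]
      congr 2; ring
  · right
    refine ⟨G, hG, hG0 hv0, hvG, big_step hb (polya hg hG h0 hb.exists_ne
      (lam := Real.log 2 / (2 * Real.pi * I)) ?_ (μ := -Real.log ‖b‖ / (2 * Real.pi))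
      (fun w n hw => ?_) (fun w n hw => ?_) hl)⟩
    · have e : ((Real.log 2 : ℝ) : ℂ) / (2 * Real.pi * I)
          = ((-(Real.log 2 / (2 * Real.pi)) : ℝ) : ℂ) * I := by
        have := Real.pi_ne_zero
        push_cast
        field_simp
        rw [I_sq]; ring
      rw [e]
      have h2 : 0 < Real.log 2 := Real.log_pos (by norm_num)
      have h3 : 0 < Real.log 2 / (2 * Real.pi) := by have := Real.pi_pos; positivity
      simp only [mul_im, ofReal_re, I_im, mul_one, ofReal_im, I_re, mul_zero, add_zero]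
      linarith
    · have k1 : u w = 1 := by rw [hu, hw, hint]
      have k2 := e1 w
      rw [k1, sub_self, mul_zero, sub_eq_zero, hvG, Complex.exp_eq_one_iff] at k2
      obtain ⟨m, hm⟩ := k2
      exact ⟨m, mul_left_cancel₀ two_pi_I_ne (by rw [hm]; ring)⟩
    · have k1 : u w = 2 := by
        rw [hu, hw, mul_add, Complex.exp_add, hint, one_mul, mul_div_cancel₀ _ two_pi_I_ne,
          ← ofReal_exp, Real.exp_log (by norm_num)]
        norm_num
      have k2 := e2 w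
      rw [k1, sub_self, mul_zero, sub_eq_zero, hvG] at k2
      rw [← k2, Complex.norm_exp, Real.log_exp]
      have := Real.pi_ne_zero
      simp only [mul_re, re_ofNat, ofReal_re, im_ofNat, ofReal_im, mul_zero, sub_zero, I_re,
        mul_im, zero_mul, add_zero, I_im, mul_one, sub_self, zero_sub]
      field_simp

theorem const_of_units {b : ℂ → ℂ} (hb : Differentiable ℂ b) (h0 : ∀ z, b z ≠ 0)
    (h1 : ∀ z, b z + 1 ≠ 0) (z : ℂ) : b z = b 0 := by
  obtain ⟨β, hβ, -, h⟩ := exists_log' (u := fun z => -b z) hb.neg fun z => neg_ne_zero.2 (h0 z)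
  have := picard_int hβ (fun w n hw => h1 w (by
    have k := h w
    rw [hw, mul_comm, Complex.exp_int_mul_two_pi_mul_I] at k
    linear_combination -k)) z 0
  have k1 := h z
  have k2 := h 0
  rw [this, ← k2] at k1
  exact neg_inj.1 k1

end Pool.Agent.Lib.MP_b1b13a_lc
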