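import Pool.Agent.Lib.MP_b1b13a_lc.Main

namespace Pool.Agent.Lib.MP_b1b13a_lc.GrowthRings

open Pool.Agent.Lib.MP_b1b13a_lc

/-- Hilbert's tenth problem (coefficients in `ℤ[z]`) is unsolvable in every ring of entire
functions that contains `z`, is closed under passing to entire functions of smaller maximum
modulus, and misses some entire function bounded by a finite tower of exponentials. -/
theorem result (R : Subring (ℂ → ℂ)) (entire : ∀ f ∈ R, Differentiable ℂ f)
    (has_z : (fun z => z) ∈ R)
    (closed : ∀ f ∈ R, ∀ g, Differentiable ℂ g → Dominates f g → g ∈ R)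
    (misses : ∃ (K : ℕ) (g : ℂ → ℂ), Differentiable ℂ g ∧ (∀ z, ‖g z‖ ≤ Real.exp^[K] ‖z‖) ∧
      g ∉ R) :
    ¬ ComputablePred (Solvable (R : Set (ℂ → ℂ))) :=
  solid R entire has_z closed misses

end Pool.Agent.Lib.MP_b1b13a_lc.GrowthRings
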