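import Pool.Agent.Lib.MP_b1b13a_lc.Growth

/-!
The Pell equation in entire functions of lower exponential type zero.
-/

namespace Pool.Agent.Lib.MP_b1b13a_lc

open Complex Metric Set Filter Topology

theorem norm_exp_mul_I_le (t : ℂ) : ‖exp (t * I)‖ ≤ Real.exp |t.im| := by
  rw [Complex.norm_exp]
  apply Real.exp_le_exp.2
  simp only [mul_re, I_re, mul_zero, I_im, mul_one, zero_sub]
  exact neg_le_abs _

theorem norm_cos_le (t : ℂ) : ‖cos t‖ ≤ Real.exp |t.im| := by
  have h1 := norm_exp_mul_I_le t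
  have h2 := norm_exp_mul_I_le (-t)
  rw [neg_im, abs_neg] at h2
  have h3 := norm_add_le (exp (t * I)) (exp (-t * I))
  rw [← Complex.two_cos, norm_mul, Complex.norm_ofNat] at h3
  linarith

theorem norm_sin_le (t : ℂ) : ‖sin t‖ ≤ Real.exp |t.im| := by
  have h1 := norm_exp_mul_I_le t
  have h2 := norm_exp_mul_I_le (-t)
  rw [neg_im, abs_neg] at h2
  have h3 := norm_sub_le (exp (-t * I)) (exp (t * I))
  have h4 : ‖2 * sin t‖ = ‖exp (-t * I) - exp (t * I)‖ := by
    rw [Complex.two_sin, norm_mul, norm_I, mul_one]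
  rw [norm_mul, Complex.norm_ofNat] at h4
  linarith

theorem exp_im_le (t : ℂ) : Real.exp |t.im| ≤ 2 * ‖cos t‖ + 1 := by
  have key : ∀ t : ℂ, 0 ≤ t.im → Real.exp t.im ≤ 2 * ‖cos t‖ + 1 := fun t ht => by
    have h1 : ‖exp (-t * I)‖ = Real.exp t.im := by rw [Complex.norm_exp]; simp
    have h2 : ‖exp (t * I)‖ ≤ 1 := by
      rw [Complex.norm_exp]; apply Real.exp_le_one_iff.2; simpa using ht
    have h3 := norm_sub_le (2 * cos t) (exp (t * I))
    rw [Complex.two_cos, add_sub_cancel_left, ← Complex.two_cos, norm_mul,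
      Complex.norm_ofNat] at h3
    linarith
  rcases le_total 0 t.im with h | h
  · rw [abs_of_nonneg h]; exact key t h
  · have := key (-t) (by simpa using h)
    rw [abs_of_nonpos h]
    simpa using this

theorem pell_rigid {x y : ℂ → ℂ} (hx : Differentiable ℂ x) (hy : Differentiable ℂ y)
    (e : ∀ z, x z ^ 2 - (z ^ 2 + 2 * z) * y z ^ 2 = 1) (hb : ¬ Big 1 y) : ∃ n : ℤ, y 0 = n := by
  obtain ⟨W, hW⟩ : ∃ W : ℂ → ℂ, W = fun z =>
    (z ^ 2 + 2 * z) * (x z * deriv y z - deriv x z * y z) + (z + 1) * (x z * y z) := ⟨_, rfl⟩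
  have hWd : Differentiable ℂ W := by
    have := hx.deriv
    have := hy.deriv
    rw [hW]; fun_prop
  obtain ⟨F, hF⟩ : ∃ F : ℂ → ℂ, F = fun t => x (cos t - 1) + I * sin t * y (cos t - 1) := ⟨_, rfl⟩
  have hD : ∀ t, (cos t - 1) ^ 2 + 2 * (cos t - 1) = -sin t ^ 2 := fun t => by
    linear_combination Complex.sin_sq_add_cos_sq t
  have hFF : ∀ t, F t * F (-t) = 1 := fun t => by
    have := e (cos t - 1)
    rw [hD] at this
    simp only [hF, Complex.cos_neg, Complex.sin_neg]
    linear_combination this - (sin t * y (cos t - 1)) ^ 2 * I_sq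
  have hF0 : ∀ t, F t ≠ 0 := fun t => left_ne_zero_of_mul_eq_one (hFF t)
  have e' : ∀ z, 2 * x z * deriv x z - (2 * z + 2) * y z ^ 2
      - (z ^ 2 + 2 * z) * (2 * y z * deriv y z) = 0 := fun z => by
    have h1 : HasDerivAt (fun z => x z ^ 2 - (z ^ 2 + 2 * z) * y z ^ 2)
        (2 * x z * deriv x z - (2 * z + 2) * y z ^ 2
          - (z ^ 2 + 2 * z) * (2 * y z * deriv y z)) z := by
      have k := ((hx z).hasDerivAt.pow 2).sub
        ((((hasDerivAt_id z).pow 2).add ((hasDerivAt_id z).const_mul 2)).mul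
          ((hy z).hasDerivAt.pow 2))
      refine HasDerivAt.congr_deriv (k.congr_of_eventuallyEq (Eventually.of_forall fun w => ?_)) ?_
      · simp
      · simp; ring
    have h2 : HasDerivAt (fun z => x z ^ 2 - (z ^ 2 + 2 * z) * y z ^ 2) 0 z := by
      rw [funext e]; exact hasDerivAt_const _ _
    exact h1.unique h2
  have hFd : ∀ t, HasDerivAt F (I * W (cos t - 1) * F t) t := fun t => by
    have c1 : HasDerivAt (fun t => cos t - 1) (-sin t) t := (Complex.hasDerivAt_cos t).sub_const 1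
    have k := ((hx _).hasDerivAt.comp t c1).add
      (((Complex.hasDerivAt_sin t).const_mul I).mul ((hy _).hasDerivAt.comp t c1))
    refine HasDerivAt.congr_deriv (k.congr_of_eventuallyEq (Eventually.of_forall fun w => ?_)) ?_
    · simp [hF]
    · have k1 := e' (cos t - 1)
      have k2 := e (cos t - 1)
      rw [hD] at k1 k2
      simp only [hW, hF, Function.comp_apply, hD]
      obtain ⟨X, hX⟩ : ∃ X, X = x (cos t - 1) := ⟨_, rfl⟩
      obtain ⟨Y, hY⟩ : ∃ Y, Y = y (cos t - 1) := ⟨_, rfl⟩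
      obtain ⟨X', hX'⟩ : ∃ X', X' = deriv x (cos t - 1) := ⟨_, rfl⟩
      obtain ⟨Y', hY'⟩ : ∃ Y', Y' = deriv y (cos t - 1) := ⟨_, rfl⟩
      rw [← hX, ← hY, ← hX', ← hY'] at k1 ⊢
      rw [← hX, ← hY] at k2
      linear_combination
        (-(X' * (-sin t) + I * cos t * Y + I * sin t * (Y' * (-sin t)))) * k2
        - (sin t / 2) * (X + I * sin t * Y) * k1
        + ((sin t) ^ 2 * Y ^ 2 * (X' * (-sin t) + I * cos t * Y + I * sin t * (Y' * (-sin t)))
          - (X + I * sin t * Y) * (cos t * sin t * Y ^ 2 - sin t ^ 3 * Y * Y')) * I_sq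
  have hFdd : Differentiable ℂ F := fun t => (hFd t).differentiableAt
  obtain ⟨Γ, hΓ, -, hΓF⟩ := exists_log hFdd hF0 (log (F 0)) (exp_log (hF0 0)).symm
  have hΓd : ∀ t, deriv Γ t = I * W (cos t - 1) := fun t => by
    have k1 : HasDerivAt F (exp (Γ t) * deriv Γ t) t := by
      rw [funext hΓF]; exact (hΓ t).hasDerivAt.cexp
    have k2 := k1.unique (hFd t)
    rw [← hΓF, mul_comm] at k2
    exact mul_right_cancel₀ (hF0 t) k2
  have hre : ∀ t, (Γ (-t)).re = -(Γ t).re := fun t => by
    have k := congrArg norm (hFF t)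
    rw [norm_mul, hΓF, hΓF, Complex.norm_exp, Complex.norm_exp, ← Real.exp_add, norm_one,
      Real.exp_eq_one_iff] at k
    linarith
  -- growth of `W`
  have hgrow : ∀ r A : ℝ, 125 ≤ r → 0 < A → (∀ z, ‖z‖ ≤ r → 1 + (2 * r + 1) * ‖y z‖ ≤ Real.exp A) →
      ∀ z, ‖z‖ ≤ r / 20 → ‖W z‖ ≤ 4 * A := by
    intro r A hr hA hyb z hz
    have hFb : ∀ t : ℂ, Real.exp |t.im| ≤ r - 1 → (Γ t).re ≤ A := fun t ht => by
      have k1 : ‖cos t - 1‖ ≤ r := by
        have := norm_sub_le (cos t) 1
        rw [norm_one] at this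
        linarith [norm_cos_le t]
      have k2 : ‖sin t‖ ≤ r := by linarith [norm_sin_le t]
      have k3 : ‖x (cos t - 1)‖ ≤ 1 + (r + 1) * ‖y (cos t - 1)‖ := by
        have k4 := e (cos t - 1)
        rw [hD] at k4
        have k5 : x (cos t - 1) ^ 2 = 1 - (sin t * y (cos t - 1)) ^ 2 := by linear_combination k4
        have k6 := norm_sub_le (1 : ℂ) ((sin t * y (cos t - 1)) ^ 2)
        rw [← k5, norm_pow, norm_pow, norm_mul, norm_one] at k6
        have k7 : ‖sin t‖ * ‖y (cos t - 1)‖ ≤ (r + 1) * ‖y (cos t - 1)‖ := by gcongr; linarith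
        have k8 : 0 ≤ ‖sin t‖ * ‖y (cos t - 1)‖ := by positivity
        apply (pow_le_pow_iff_left₀ (norm_nonneg _) (by linarith) two_ne_zero).1
        nlinarith
      have k4 : ‖F t‖ ≤ Real.exp A := by
        refine le_trans ?_ (hyb _ k1)
        rw [hF]
        refine (norm_add_le _ _).trans ?_
        rw [norm_mul, norm_mul, norm_I, one_mul]
        have : ‖sin t‖ * ‖y (cos t - 1)‖ ≤ r * ‖y (cos t - 1)‖ := by gcongr
        linarith
      rw [hΓF, Complex.norm_exp] at k4
      exact Real.exp_le_exp.1 k4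
    obtain ⟨t, ht⟩ := Complex.cos_surjective (z + 1)
    have ht1 : Real.exp |t.im| ≤ r / 10 + 3 := by
      have k1 := exp_im_le t
      have k2 := norm_add_le z 1
      rw [norm_one] at k2
      rw [ht] at k1
      linarith
    have he2 : Real.exp 2 ≤ 8 := by
      have h4 : Real.exp 1 ^ 2 = Real.exp 2 := by rw [← Real.exp_nat_mul]; norm_num
      have h5 := Real.exp_one_lt_d9
      have h6 := Real.exp_pos 1
      nlinarith
    have hnear : ∀ w : ℂ, ‖w‖ < 2 → Real.exp |(t + w).im| ≤ r - 1 := fun w hw => by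
      have k1 : |(t + w).im| ≤ |t.im| + 2 := by
        rw [add_im]
        linarith [abs_add_le t.im w.im, abs_im_le_norm w]
      calc Real.exp |(t + w).im| ≤ Real.exp (|t.im| + 2) := Real.exp_le_exp.2 k1
        _ = Real.exp |t.im| * Real.exp 2 := Real.exp_add _ _
        _ ≤ (r / 10 + 3) * 8 := by gcongr
        _ ≤ r - 1 := by linarith
    have hm : -A ≤ (Γ t).re := by
      have := hFb (-t) (by rw [neg_im, abs_neg]; simpa using hnear 0 (by simp))
      rw [hre] at this
      linarith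
    have hk : ∀ w : ℂ, ‖w‖ < 1 → ‖Γ (t + w) - Γ t‖ ≤ 4 * A := fun w hw => by
      have h1 := Complex.borelCaratheodory_zero (f := fun w => Γ (t + w) - Γ t) (M := 2 * A)
        (R := 2) (z := w) (by positivity) (by fun_prop) (fun v hv => by
          have := hFb _ (hnear v (mem_ball_zero_iff.1 hv))
          simp only [mem_ofPred_eq, sub_re]
          linarith) (by norm_num) (mem_ball_zero_iff.2 (by linarith)) (by simp)
      refine h1.trans ?_
      rw [div_le_iff₀ (by linarith)]
      nlinarith [norm_nonneg w]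
    have h2 := Complex.norm_deriv_le_div_of_mapsTo_ball (f := Γ) (c := t) (R₁ := 1) (R₂ := 4 * A)
      hΓ.differentiableOn (fun w hw => by
        rw [mem_ball, dist_eq_norm] at hw
        have := hk _ hw
        rw [add_sub_cancel] at this
        rwa [mem_closedBall, dist_eq_norm]) one_pos
    rw [hΓd, ht, add_sub_cancel_right, norm_mul, norm_I, one_mul, div_one] at h2
    exact h2
  have hWc : ∀ z, W z = W 0 := by
    intro z
    by_contra hne
    obtain ⟨c, hc, hbig⟩ := big_zero hWd hne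
    apply hb
    refine ⟨c / 200, by positivity, ?_⟩
    have ht : Tendsto (fun r : ℝ => r / 20) atTop atTop := tendsto_id.atTop_div_const (by norm_num)
    obtain ⟨r₀, hr₀⟩ := eventually_small 3 (c / 200) 1 1 (by positivity) one_pos
    filter_upwards [ht.eventually hbig, eventually_ge_atTop 125, eventually_ge_atTop r₀]
      with r h1 h2 h3
    by_contra hcon
    push Not at hcon
    obtain ⟨w, hw, hw'⟩ := h1
    simp only [Function.iterate_zero, id_eq, Function.iterate_one] at hw' hcon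
    have h4 := hgrow r (c / 200 * r + c / 200 * r) h2 (by positivity) (fun z hz => ?_) w hw
    · nlinarith
    · have k1 := (hcon z hz).le
      have k2 := hr₀ r h3
      obtain ⟨E, hE⟩ : ∃ E, E = Real.exp (c / 200 * r) := ⟨_, rfl⟩
      have k3 : 1 ≤ E := hE ▸ Real.one_le_exp (by positivity)
      rw [Real.exp_neg, ← hE, pow_one, ← div_eq_mul_inv, div_lt_one (by linarith)] at k2
      rw [Real.exp_add, ← hE]
      rw [← hE] at k1
      have k4 : (2 * r + 1) * ‖y z‖ ≤ (2 * r + 1) * E := by gcongr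
      nlinarith
  have hlin : ∀ t, Γ t - I * W 0 * t = Γ 0 - I * W 0 * 0 := fun t =>
    is_const_of_deriv_eq_zero (f := fun t => Γ t - I * W 0 * t) (by fun_prop) (fun t => by
      have k : HasDerivAt (fun t => Γ t - I * W 0 * t) (deriv Γ t - I * W 0 * 1) t :=
        (hΓ t).hasDerivAt.sub ((hasDerivAt_id t).const_mul (I * W 0))
      rw [k.deriv, hΓd, hWc]
      ring) t 0
  have hper : F (2 * Real.pi) = F 0 := by simp [hF]
  have h1 : exp (I * W 0 * (2 * Real.pi)) = 1 := by
    have k := hlin (2 * Real.pi)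
    have k2 : Γ (2 * Real.pi) = Γ 0 + I * W 0 * (2 * Real.pi) := by linear_combination k
    rw [hΓF, hΓF, k2, Complex.exp_add] at hper
    exact mul_left_cancel₀ (exp_ne_zero (Γ 0)) (by rw [hper, mul_one])
  obtain ⟨n, hn⟩ := Complex.exp_eq_one_iff.1 h1
  have h2 : W 0 = n := mul_right_cancel₀ two_pi_I_ne (by linear_combination hn)
  have h3 : x 0 * y 0 = n := by rw [← h2, hW]; simp
  have h4 : (x 0 - 1) * (x 0 + 1) = 0 := by linear_combination e 0
  rcases mul_eq_zero.1 h4 with h | h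
  · exact ⟨n, by linear_combination h3 - y 0 * h⟩
  · exact ⟨-n, by push_cast; linear_combination -h3 + y 0 * h⟩

end Pool.Agent.Lib.MP_b1b13a_lc
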