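import Pool.Agent.Lib.MP_b1b13a_lc.Small
import Pool.Agent.Lib.MP_b1b13a_lc.Pell
import Pool.Agent.Lib.MP_b1b13a_lc.Rep

/-!
Undecidability for classes of entire functions between two consecutive exponential levels.
-/

namespace Pool.Agent.Lib.MP_b1b13a_lc

open Complex Metric Set Filter Topology

theorem rep_unit (a i b j : ℕ) : Rep fun X => ∀ w, X a i w * X b j w = 1 :=
  (rep_atom (MvPolynomial.X (some (a, i)) * MvPolynomial.X (some (b, j))) 1).congr
    fun X => by simp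

theorem rep_unit' (a i b j : ℕ) : Rep fun X => ∀ w, (X a i w + 1) * X b j w = 1 :=
  (rep_atom ((MvPolynomial.X (some (a, i)) + 1) * MvPolynomial.X (some (b, j))) 1).congr
    fun X => by simp

theorem rep_div (a i b j c k : ℕ) (m : ℕ) :
    Rep fun X => ∀ w, X a i w - 1 = X b j w * (X c k w - m) :=
  (rep_atom (MvPolynomial.X (some (a, i)) - 1)
    (MvPolynomial.X (some (b, j)) * (MvPolynomial.X (some (c, k)) - Nat.cast m))).congr fun X => by simp

theorem rep_div' (a i b j c k d l : ℕ) :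
    Rep fun X => ∀ w, X a i w - X d l w = X b j w * (X c k w - 2) :=
  (rep_atom (MvPolynomial.X (some (a, i)) - MvPolynomial.X (some (d, l)))
    (MvPolynomial.X (some (b, j)) * (MvPolynomial.X (some (c, k)) - Nat.cast 2))).congr
    fun X => by simp

theorem rep_val (a i b j : ℕ) (s m N : ℕ) :
    Rep fun X => ∀ w, s * X a i w - m = (w - N) * X b j w :=
  (rep_atom (Nat.cast s * MvPolynomial.X (some (a, i)) - Nat.cast m)
    ((MvPolynomial.X none - Nat.cast N) * MvPolynomial.X (some (b, j)))).congr fun X => by simp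

theorem rep_pell (a i b j : ℕ) :
    Rep fun X => ∀ w, X a i w ^ 2 - (w ^ 2 + 2 * w) * X b j w ^ 2 = 1 :=
  (rep_atom (MvPolynomial.X (some (a, i)) ^ 2 - (MvPolynomial.X none ^ 2
    + Nat.cast 2 * MvPolynomial.X none) * MvPolynomial.X (some (b, j)) ^ 2) 1).congr
    fun X => by simp

theorem hdiv_small {k : ℕ} {c : ℝ} (hc : 0 < c) :
    ∀ f ∈ smallRing k hc, f 0 = 0 → ∃ q ∈ smallRing k hc, ∀ w, f w = w * q w := fun f hf h0 => by
  simpa using div_mem hf h0

theorem sandwich_zero {c : ℝ} (hc : 0 < c) (R : Set (ℂ → ℂ))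
    (hup : ∀ f ∈ R, Differentiable ℂ f ∧ ¬ Big 1 f) (hlow : ∀ f, Small 0 c f → f ∈ R) :
    ¬ ComputablePred (Solvable R) := by
  refine undecidable_of_intDef R (smallRing 0 hc) hlow (hdiv_small hc) fun d => ?_
  refine ⟨_, Rep.ball (fun i => rep_pell 1 i 0 i) d, fun X hX h i hi => ?_, fun y => ?_⟩
  · exact pell_rigid (hup _ (hX 1 i)).1 (hup _ (hX 0 i)).1 (h i hi) (hup _ (hX 0 i)).2
  · choose a b ha hb _ h1 h2 using fun i => exists_pell (smallRing 0 hc) id_mem (y i)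
    refine ⟨fun t => if t = 0 then b else a, fun t i => ?_, fun i _ => by simpa using h2 i,
      by simpa using h1⟩
    beta_reduce
    split_ifs
    · exact hb i
    · exact ha i

/-- The system used at a positive level. -/
def Chain (k N d : ℕ) (X : ℕ → ℕ → ℂ → ℂ) : Prop :=
  (∀ j < k + 1, ∀ w, X 1 j w * X 2 j w = 1) ∧
  (∀ j < k, (∀ w, X 1 (j + 1) w - 1 = X 3 j w * (X 1 j w - (1 : ℕ))) ∧
    (∀ w, X 1 (j + 1) w - 1 = X 4 j w * (X 1 j w - (2 : ℕ))) ∧
    ∀ w, (2 : ℕ) * X 3 j w - (1 : ℕ) = (w - (0 : ℕ)) * X 5 j w) ∧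
  (∀ w, (1 : ℕ) * X 1 0 w - (1 : ℕ) = (w - (0 : ℕ)) * X 6 0 w) ∧
  (∀ w, (1 : ℕ) * X 1 0 w - (2 : ℕ) = (w - N) * X 6 1 w) ∧
  ∀ i < d, (∀ w, X 7 i w * X 8 i w = 1) ∧
    (∀ w, X 7 i w - 1 = X 0 i w * (X 1 k w - (1 : ℕ))) ∧
    (∀ w, X 7 i w - X 9 i w = X 10 i w * (X 1 k w - 2)) ∧
    (∀ w, X 9 i w * X 11 i w = 1) ∧ ∀ w, (X 9 i w + 1) * X 12 i w = 1

theorem rep_chain (k N d : ℕ) : Rep (Chain k N d) :=
  (Rep.ball (fun _ => rep_unit _ _ _ _) _).and <|
    (Rep.ball (fun _ => (rep_div _ _ _ _ _ _ _).and <| (rep_div _ _ _ _ _ _ _).and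
      (rep_val _ _ _ _ _ _ _)) _).and <| (rep_val _ _ _ _ _ _ _).and <|
    (rep_val _ _ _ _ _ _ _).and <| Rep.ball (fun _ => (rep_unit _ _ _ _).and <|
      (rep_div _ _ _ _ _ _ _).and <| (rep_div' _ _ _ _ _ _ _ _).and <|
      (rep_unit _ _ _ _).and (rep_unit' _ _ _ _)) _

theorem chain_rigid {k N d : ℕ} {X : ℕ → ℕ → ℂ → ℂ} (hX : ∀ t i, Differentiable ℂ (X t i))
    (h : Chain k N d X) {i : ℕ} (hi : i < d) (hb : ¬ Big (k + 2) (X 7 i)) :
    ∃ a : ℤ, X 0 i 0 = a := by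
  obtain ⟨h1, h2, h3, h4, h5⟩ := h
  simp only [Nat.cast_one, Nat.cast_ofNat, Nat.cast_zero, sub_zero, one_mul] at h2 h3 h4 h5
  have hne : ∀ j < k + 1, ∀ w, X 1 j w ≠ 0 := fun j hj w => left_ne_zero_of_mul_eq_one (h1 j hj w)
  have hl : ∀ j ≤ k, LBig j (X 1 j) := by
    intro j hj
    induction j with
    | zero =>
      refine lbig_zero (hX 1 0) (hne 0 (by omega)) (by linear_combination h3 0) (z₁ := N) ?_
      have := h4 N
      rw [sub_self, zero_mul, sub_eq_zero] at this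
      rw [this]; norm_num
    | succ j ih =>
      obtain ⟨e1, e2, e3⟩ := h2 j (by omega)
      rcases link (ih (by omega)) (hX 1 (j + 1)) (hX 3 j).continuous (hne _ (by omega)) e1 e2
        with ⟨a, ha⟩ | h
      · exfalso
        have k1 := e3 0
        rw [ha, zero_mul] at k1
        have k3 : ((2 * a - 1 : ℤ) : ℂ) = 0 := by push_cast; exact k1
        have k2 : (2 * a - 1 : ℤ) = 0 := Int.cast_eq_zero.1 k3
        omega
      · exact h
  obtain ⟨e1, e2, e3, e4, e5⟩ := h5 i hi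
  have hc := const_of_units (hX 9 i) (fun w => left_ne_zero_of_mul_eq_one (e4 w))
    (fun w => left_ne_zero_of_mul_eq_one (e5 w))
  rcases link (b := X 9 i 0) (hl k le_rfl) (hX 7 i) (hX 0 i).continuous
    (fun w => left_ne_zero_of_mul_eq_one (e1 w)) e2 (fun w => by rw [← e3 w, hc w]) with h | h
  · exact h
  · exact absurd h.big hb

theorem chain_witness (k d : ℕ) {c : ℝ} (hc : 0 < c) {N : ℕ} (hN : 0 < N) (hNc : 3 ^ k / N ≤ c)
    (y : ℕ → ℤ) : ∃ X : ℕ → ℕ → ℂ → ℂ, (∀ t i, X t i ∈ smallRing (k + 1) hc) ∧ Chain k N d X ∧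
      ∀ i, X 0 i 0 = y i := by
  have hN' : (0 : ℝ) < N := by exact_mod_cast hN
  have hm : ∀ {Φ : ℂ → ℂ}, Differentiable ℂ Φ → (∀ w, ‖Φ w‖ ≤ 2 * Real.exp ‖w‖) → ∀ j,
      (fun z => Φ (lg N (min j k) z)) ∈ smallRing (k + 1) hc := fun hΦ hb j =>
    comp_mem (lg_diff N _) hΦ hb (j := min j k) (by omega) (le_trans (by
      gcongr
      · norm_num
      · exact min_le_right _ _) hNc) (lg_bound hN _)
  have mu := hm Complex.differentiable_exp norm_exp_le_two
  have mu' := hm (Φ := fun w => exp (-w)) (by fun_prop) fun w => by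
    simpa using norm_exp_le_two (-w)
  have mE := hm differentiable_dslope_exp norm_dslope_exp
  obtain ⟨u, hu⟩ : ∃ u : ℕ → ℂ → ℂ, u = fun j z => exp (lg N (min j k) z) := ⟨_, rfl⟩
  obtain ⟨u', hu'⟩ : ∃ u' : ℕ → ℂ → ℂ, u' = fun j z => exp (-lg N (min j k) z) := ⟨_, rfl⟩
  obtain ⟨E, hE⟩ : ∃ E : ℕ → ℂ → ℂ, E = fun j z => dslope exp 0 (lg N (min j k) z) := ⟨_, rfl⟩
  have mu : ∀ j, u j ∈ smallRing (k + 1) hc := hu ▸ mu
  have mu' : ∀ j, u' j ∈ smallRing (k + 1) hc := hu' ▸ mu'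
  have mE : ∀ j, E j ∈ smallRing (k + 1) hc := hE ▸ mE
  have e1 : ∀ j w, u j w * u' j w = 1 := fun j w => by simp [hu, hu', ← Complex.exp_add]
  have u0 : ∀ j, u j 0 = 1 := fun j => by simp [hu, lg_zero]
  have E0 : ∀ j, E j 0 = 1 := fun j => by simp only [hE, lg_zero, dslope_exp_zero]
  have e2 : ∀ j < k, ∀ w, u (j + 1) w - 1 = -((u j w - 1) * (u j w - 2)) / 2 * E (j + 1) w :=
    fun j hj w => by
      simp only [hu, hE, show min (j + 1) k = j + 1 by omega, show min j k = j by omega]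
      rw [exp_sub_one]; rfl
  obtain ⟨A, hA⟩ : ∃ A : ℕ → ℂ → ℂ, A = fun j w => -(u j w - 2) / 2 * E (j + 1) w := ⟨_, rfl⟩
  obtain ⟨B, hB⟩ : ∃ B : ℕ → ℂ → ℂ, B = fun j w => -(u j w - 1) / 2 * E (j + 1) w := ⟨_, rfl⟩
  have lin : ∀ (a : ℂ) j, (fun w => -(u j w - a) / 2 * E (j + 1) w) ∈ smallRing (k + 1) hc :=
    fun a j => by
      have := Subring.mul_mem _ (Subring.mul_mem _ (const_mem (hc := hc) (-1 / 2))
        (Subring.sub_mem _ (mu j) (const_mem a))) (mE (j + 1))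
      have e : (fun w => -(u j w - a) / 2 * E (j + 1) w)
          = (fun _ => (-1 / 2 : ℂ)) * (u j - fun _ => a) * E (j + 1) := by
        funext w; simp only [Pi.mul_apply, Pi.sub_apply]; ring
      rw [e]; exact this
  have mA : ∀ j, A j ∈ smallRing (k + 1) hc := fun j => hA ▸ lin 2 j
  have mB : ∀ j, B j ∈ smallRing (k + 1) hc := fun j => hB ▸ lin 1 j
  choose C mC eC using fun j => hdiv_small hc ((fun _ => (2 : ℂ)) * A j - 1)
    (Subring.sub_mem _ (Subring.mul_mem _ (const_mem 2) (mA j)) (Subring.one_mem _))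
    (by simp only [Pi.sub_apply, Pi.mul_apply, Pi.one_apply, hA, u0, E0]; norm_num)
  obtain ⟨D0, mD0, eD0⟩ := hdiv_small hc (u 0 - 1)
    (Subring.sub_mem _ (mu 0) (Subring.one_mem _)) (by simp [u0])
  obtain ⟨D1, mD1, eD1⟩ := div_mem (hc := hc) (f := u 0 - fun _ => 2) (a := N)
    (Subring.sub_mem _ (mu 0) (const_mem 2)) (by
      have e : (N : ℂ) * ((Real.log 2 / N : ℝ) : ℂ) = ((Real.log 2 : ℝ) : ℂ) := by
        have : (N : ℂ) ≠ 0 := by exact_mod_cast hN.ne'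
        push_cast; field_simp
      simp only [Pi.sub_apply, hu, Nat.zero_min, lg, e]
      rw [← ofReal_exp, Real.exp_log (by norm_num)]
      norm_num)
  choose v v' h h' β m1 m2 m3 m4 hβ f0 f1 f2 f3 using fun i =>
    exists_pow (smallRing (k + 1) hc) const_mem (mu k) (mu' k) (e1 k) (u0 k) (y i)
  refine ⟨fun t => match t with
    | 0 => h
    | 1 => u
    | 2 => u'
    | 3 => A
    | 4 => B
    | 5 => C
    | 6 => fun i => if i = 0 then D0 else D1
    | 7 => v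
    | 8 => v'
    | 9 => fun i _ => β i
    | 10 => h'
    | 11 => fun i _ => (β i : ℂ)⁻¹
    | _ => fun i _ => ((β i : ℂ) + 1)⁻¹, fun t i => ?_, ?_, f0⟩
  · beta_reduce
    split
    any_goals first | exact m3 i | exact mu i | exact mu' i | exact mA i | exact mB i | exact mC i
                    | exact m1 i | exact m2 i | exact m4 i | exact const_mem _
    beta_reduce
    split_ifs
    · exact mD0
    · exact mD1
  · refine ⟨fun j _ => e1 j, fun j hj => ⟨fun w => ?_, fun w => ?_, fun w => ?_⟩, fun w => ?_,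
      fun w => ?_, fun i _ => ⟨f1 i, fun w => ?_, f3 i, fun w => ?_, fun w => ?_⟩⟩
    · simp only [e2 j hj, hA]; push_cast; ring
    · simp only [e2 j hj, hB]; push_cast; ring
    · simpa using eC j w
    · simpa using eD0 w
    · simpa using eD1 w
    · simpa using f2 i w
    · exact mul_inv_cancel₀ (a := (β i : ℂ)) (by exact_mod_cast (hβ i).ne')
    · exact mul_inv_cancel₀ (a := (β i : ℂ) + 1)
        (by exact_mod_cast (by linarith [hβ i] : β i + 1 ≠ 0))

theorem sandwich (k : ℕ) {c : ℝ} (hc : 0 < c) (R : Set (ℂ → ℂ))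
    (hup : ∀ f ∈ R, Differentiable ℂ f ∧ ¬ Big (k + 1) f) (hlow : ∀ f, Small k c f → f ∈ R) :
    ¬ ComputablePred (Solvable R) := by
  rcases k with _ | k
  · exact sandwich_zero hc R hup hlow
  obtain ⟨N, hN⟩ := exists_nat_gt (3 ^ k / c)
  have hN0 : (0 : ℝ) < N := lt_trans (by positivity) hN
  refine undecidable_of_intDef R (smallRing (k + 1) hc) hlow (hdiv_small hc) fun d => ?_
  refine ⟨Chain k N d, rep_chain k N d, fun X hX h i hi => ?_, fun y => ?_⟩
  · exact chain_rigid (fun t i => (hup _ (hX t i)).1) h hi (hup _ (hX 7 i)).2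
  · refine chain_witness k d hc (by exact_mod_cast hN0) ?_ y
    rw [div_lt_iff₀ hc] at hN
    rw [div_le_iff₀ hN0]
    linarith

theorem solid (R : Subring (ℂ → ℂ)) (hR : ∀ f ∈ R, Differentiable ℂ f) (hz : (fun z => z) ∈ R)
    (hs : ∀ f ∈ R, ∀ g, Differentiable ℂ g → Dominates f g → g ∈ R)
    (hp : ∃ (K : ℕ) (g : ℂ → ℂ), Differentiable ℂ g ∧ (∀ z, ‖g z‖ ≤ Real.exp^[K] ‖z‖) ∧ g ∉ R) :
    ¬ ComputablePred (Solvable R) := by
  obtain ⟨K, g, hg, hgK, hgR⟩ := hp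
  have h0 : ∃ f ∈ R, Big 0 f := ⟨_, hz, big_zero differentiable_id (z₁ := 1) (by simp)⟩
  have hK : ¬ ∃ f ∈ R, Big (K + 1) f := by
    rintro ⟨f, hf, c, hc, h⟩
    apply hgR
    refine hs f hf g hg ?_
    obtain ⟨r₀, hr₀⟩ := eventually_small 1 c 1 1 hc one_pos
    filter_upwards [h, eventually_ge_atTop r₀] with r h1 h2 z hz
    obtain ⟨w, hw, hw'⟩ := h1
    refine ⟨w, hw, (hgK z).trans (le_trans ?_ hw')⟩
    rw [Function.iterate_succ_apply]
    apply tw_mono
    have := hr₀ r h2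
    rw [Real.exp_neg, one_mul, pow_one, ← div_eq_mul_inv, div_lt_one (Real.exp_pos _)] at this
    linarith
  obtain ⟨k, ⟨f, hf, c, hc, hb⟩, hk⟩ :
      ∃ k, (∃ f ∈ R, Big k f) ∧ ¬ ∃ f ∈ R, Big (k + 1) f := by
    by_contra hcon
    push Not at hcon
    apply hK
    induction (K + 1) with
    | zero => exact h0
    | succ n ih => exact hcon n ih
  refine sandwich k hc R (fun f hf => ⟨hR f hf, fun h => hk ⟨f, hf, h⟩⟩) ?_
  rintro h ⟨hd, n, hn⟩
  refine hs (f ^ n) (R.pow_mem hf n) h hd ?_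
  filter_upwards [hb, hn, tw_ge k hc 0] with r h1 h2 h3 z hz
  obtain ⟨w, hw, hw'⟩ := h1
  refine ⟨w, hw, (h2 z hz).trans ?_⟩
  rw [Pi.pow_apply, norm_pow]
  gcongr

theorem tw_pow (k n : ℕ) {y : ℝ} (hy : 2 ≤ y) :
    (Real.exp^[k] y) ^ n ≤ Real.exp^[k] (y ^ (2 * n + 1)) := by
  rcases k with _ | k
  · exact pow_le_pow_right₀ (by simp only [Function.iterate_zero, id_eq]; linarith) (by omega)
  · have key : ∀ n : ℕ, (n : ℝ) * Real.exp^[k] y ≤ Real.exp^[k] (3 ^ n * y) := by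
      intro n
      induction n with
      | zero => simpa using le_trans (by linarith) (le_tw k y)
      | succ n ih =>
        have h1 : (1 : ℝ) ≤ 3 ^ n := one_le_pow₀ (by norm_num)
        have h2 := tw_double k (y := 3 ^ n * y) (by nlinarith)
        have h3 := tw_mono k (a := y) (b := 3 ^ n * y) (by nlinarith)
        have e : (3 : ℝ) ^ (n + 1) * y = 3 * (3 ^ n * y) := by ring
        rw [e]; push_cast; linarith
    rw [tw_succ, tw_succ, ← Real.exp_nat_mul]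
    refine Real.exp_le_exp.2 ((key n).trans (tw_mono k ?_))
    rw [pow_succ, pow_mul]
    gcongr
    nlinarith

theorem iterated (k : ℕ) : ¬ ComputablePred (Solvable {f | Differentiable ℂ f ∧
    ∃ C : ℕ, ∀ z, ‖f z‖ ≤ Real.exp^[k] ((‖z‖ + 2) ^ C)}) := by
  refine sandwich k one_pos _ ?_ ?_
  · rintro f ⟨hf, C, hC⟩
    refine ⟨hf, ?_⟩
    rintro ⟨c, hc, h⟩
    obtain ⟨r₀, hr₀⟩ := eventually_small (2 ^ C) c 1 C hc one_pos
    obtain ⟨r, ⟨⟨z, hz, h1⟩, h2⟩, h3⟩ :=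
      ((h.and (eventually_ge_atTop r₀)).and (eventually_ge_atTop 2)).exists
    have h4 := h1.trans (hC z)
    rw [Function.iterate_succ_apply] at h4
    have h5 := (Real.exp_strictMono.iterate k).le_iff_le.1 h4
    have h6 := hr₀ r h2
    rw [Real.exp_neg, ← div_eq_mul_inv, div_lt_one (Real.exp_pos _), ← mul_pow] at h6
    have h7 : (‖z‖ + 2) ^ C ≤ (2 * r) ^ C := by gcongr; linarith
    linarith
  · rintro f ⟨hf, n, h⟩
    obtain ⟨r₀, hr₀⟩ := eventually_atTop.1 h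
    obtain ⟨m, hm⟩ := pow_unbounded_of_one_lt (max r₀ 2) (one_lt_two (α := ℝ))
    refine ⟨hf, (m + 1) * (2 * n + 1), fun z => ?_⟩
    have h1 := le_max_left r₀ 2
    have h2 := le_max_right r₀ 2
    have h0 := norm_nonneg z
    have h3 := hr₀ (‖z‖ + max r₀ 2) (by linarith) z (by linarith)
    rw [one_mul] at h3
    refine h3.trans ((tw_pow k n (by linarith)).trans (tw_mono k ?_))
    rw [pow_mul]
    gcongr
    have h4 : (2 : ℝ) ^ m ≤ (‖z‖ + 2) ^ m := by gcongr; linarith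
    rw [pow_succ]
    nlinarith

end Pool.Agent.Lib.MP_b1b13a_lc
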