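import Mathlib

namespace Pool.Agent.Lib.MP_b1b13a_lc

/-- A system is a finite list of polynomials with integer coefficients in `z` and unknowns
`x 0, x 1, ...`; a polynomial is a list of monomials (coefficient, list of exponents), the exponent
number `0` being that of `z` and the exponent number `k + 1` that of `x k` (the coding of the
frozen statement).  The functions `xs` solve the system if they make all of its polynomials vanish
identically. -/
def Solves (sys : List (List (ℤ × List ℕ))) (xs : ℕ → ℂ → ℂ) : Prop :=
  ∀ p ∈ sys, ∀ w : ℂ,
    (p.map (fun m => (m.1 : ℂ) *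
      ((List.range m.2.length).map
        (fun k => (if k = 0 then w else xs (k - 1) w) ^ (m.2.getD k 0))).prod)).sum = 0

/-- The function vanishes identically or, for arbitrarily large `r`, it has at most
`exp (exp (... r))` (`K` exponentials) distinct zeros in the closed disc of radius `r`. -/
def Sparse (K : ℕ) (f : ℂ → ℂ) : Prop :=
  (∀ z, f z = 0) ∨ ∃ᶠ r : ℝ in Filter.atTop,
    ∀ S : Finset ℂ, (∀ z ∈ S, ‖z‖ ≤ r ∧ f z = 0) → (S.card : ℝ) ≤ Real.exp^[K] r

end Pool.Agent.Lib.MP_b1b13a_lc
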