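import Pool.Agent.Lib.MP_b1b13a_lc.Polya

/-!
A Polya-type theorem at every scale for a pair of entire functions with a common quasi-period.
-/

namespace Pool.Agent.Lib.MP_b1b13a_lc

open Complex Metric Set Filter Topology Polynomial

theorem dif_eq_iter (F : ℂ → ℂ) (j : ℕ) : dif F j = (fwdDiff (1 : ℂ))^[j] F := by
  induction j with
  | zero => rfl
  | succ j ih =>
    rw [Function.iterate_succ_apply', ← ih]
    funext x
    simp [dif, fwdDiff]

theorem newton (F : ℂ → ℂ) (x : ℂ) (i : ℕ) :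
    F (x + i) = ∑ k ∈ Finset.range (i + 1), (i.choose k : ℂ) * dif F k x := by
  have h := shift_eq_sum_fwdDiff_iter (h := (1 : ℂ)) F i x
  simp only [nsmul_eq_mul, mul_one] at h
  simp only [dif_eq_iter]
  exact h

/-- On a large disc a small function with integer values at the integers agrees there with a
polynomial of small degree, which is not too large far away. -/
theorem local_newton {F : ℂ → ℂ} {x₀ ρ B : ℝ} {L J : ℕ}
    (hF : DifferentiableOn ℂ F (ball x₀ ρ)) (hB : ∀ y ∈ ball (x₀ : ℂ) ρ, ‖F y‖ ≤ B)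
    (hZ : ∀ n : ℤ, (n : ℂ) ∈ ball (x₀ : ℂ) ρ → ∃ k : ℤ, F n = k)
    (hJ : B < 2 ^ J) (hL : (L : ℝ) + 1 ≤ ρ / 8) (hJL : J ≤ L) :
    ∃ P : ℂ[X], P.natDegree ≤ J ∧
      (∀ i : ℕ, i ≤ L → F ((⌊x₀⌋ : ℤ) + i) = P.eval (((⌊x₀⌋ : ℤ) : ℂ) + i)) ∧
      ∀ (w : ℂ) (W θ : ℝ), 0 < θ → ‖w - (⌊x₀⌋ : ℤ)‖ + J ≤ W →
        ‖P.eval w‖ ≤ B * Real.exp (J / θ + θ * W) := by
  have hL0 : (0 : ℝ) ≤ L := Nat.cast_nonneg L
  have hρ : 8 ≤ ρ := by linarith
  have hB0 : 0 ≤ B := (norm_nonneg _).trans (hB x₀ (mem_ball_self (by linarith)))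
  obtain ⟨m, hm⟩ : ∃ m : ℤ, m = ⌊x₀⌋ := ⟨_, rfl⟩
  rw [← hm]
  have hm1 : ‖(m : ℂ) - x₀‖ ≤ 1 := by
    have : (m : ℂ) - x₀ = ((m - x₀ : ℝ) : ℂ) := by push_cast; ring
    rw [this, norm_real, Real.norm_eq_abs, abs_le, hm]
    constructor <;> linarith [Int.floor_le x₀, Int.lt_floor_add_one x₀]
  have hl : ∀ n : ℤ, (n : ℂ) + 0 ∈ ball (x₀ : ℂ) ρ → (F (n + 0)).im = 0 := fun n hn => by
    rw [add_zero] at hn ⊢
    obtain ⟨k, hk⟩ := hZ n hn
    rw [hk]; simp
  have hin : ∀ j ≤ L, (m : ℂ) ∈ ball (x₀ : ℂ) (ρ - 4 * (j : ℕ)) := fun j hj => by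
    have : (j : ℝ) ≤ L := by exact_mod_cast hj
    rw [mem_ball, dist_eq_norm]
    linarith
  have hbd : ∀ j ≤ L, ‖dif F j m‖ ≤ B / 2 ^ j := fun j hj =>
    (dif_facts hF hB hZ hl j).2.1 _ (hin j hj)
  have hz : ∀ j, J ≤ j → j ≤ L → dif F j m = 0 := fun j h1 h2 => by
    obtain ⟨k, hk⟩ := (dif_facts hF hB hZ hl j).2.2.1 m (hin j h2)
    have h3 := hbd j h2
    rw [hk] at h3 ⊢
    have h4 : (2 : ℝ) ^ J ≤ 2 ^ j := pow_le_pow_right₀ (by norm_num) h1
    have : k = 0 := int_eq_zero_of_norm_lt_one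
      (h3.trans_lt ((div_lt_one (by positivity)).2 (hJ.trans_le h4)))
    simp [this]
  refine ⟨∑ j ∈ Finset.range J, C (dif F j m / (j.factorial : ℂ)) *
    (descPochhammer ℂ j).comp (X - C (m : ℂ)), ?_, fun i hi => ?_, fun w W θ hθ hW => ?_⟩
  · refine natDegree_sum_le_of_forall_le _ _ fun j hj => ?_
    refine (natDegree_C_mul_le _ _).trans (natDegree_comp_le.trans ?_)
    rw [descPochhammer_natDegree, natDegree_X_sub_C, mul_one]
    exact (Finset.mem_range.1 hj).le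
  · rw [newton F m i, eval_finsetSum]
    have e1 : ∑ k ∈ Finset.range (i + 1), (i.choose k : ℂ) * dif F k m
        = ∑ k ∈ Finset.range (L + 1), (i.choose k : ℂ) * dif F k m := by
      refine Finset.sum_subset (Finset.range_mono (by omega)) fun k _ hk => ?_
      rw [Nat.choose_eq_zero_of_lt (by simpa using hk)]; simp
    have e2 : ∑ k ∈ Finset.range J, (i.choose k : ℂ) * dif F k m
        = ∑ k ∈ Finset.range (L + 1), (i.choose k : ℂ) * dif F k m := by
      refine Finset.sum_subset (Finset.range_mono (by omega)) fun k hk1 hk => ?_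
      rw [hz k (by simpa using hk) (by simpa [Nat.lt_succ_iff] using hk1), mul_zero]
    rw [e1, ← e2]
    refine Finset.sum_congr rfl fun k _ => ?_
    have hk : (k.factorial : ℂ) ≠ 0 := by exact_mod_cast k.factorial_ne_zero
    simp only [eval_mul, eval_C, eval_comp, eval_sub, eval_X, add_sub_cancel_left,
      descPochhammer_eval_eq_descFactorial, Nat.descFactorial_eq_factorial_mul_choose]
    push_cast
    field_simp
  · have hJ0 : (0 : ℝ) ≤ J := Nat.cast_nonneg J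
    have hW0 : 0 ≤ W := le_trans (by positivity) hW
    rw [eval_finsetSum]
    refine (norm_sum_le _ _).trans ?_
    have hs := Real.sum_le_exp_of_nonneg (show 0 ≤ θ * W by positivity) J
    rw [Real.exp_add, ← mul_assoc]
    refine le_trans ?_ (mul_le_mul_of_nonneg_left hs (by positivity))
    rw [Finset.mul_sum]
    refine Finset.sum_le_sum fun j hj => ?_
    have hjJ : j < J := Finset.mem_range.1 hj
    have hjJ' : (j : ℝ) ≤ J := by exact_mod_cast hjJ.le
    have h1 : ‖dif F j m‖ ≤ B :=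
      (hbd j (by omega)).trans (div_le_self hB0 (one_le_pow₀ (by norm_num)))
    have h2 : ‖(descPochhammer ℂ j).eval (w - m)‖ ≤ W ^ j := by
      rw [descPochhammer_eval_eq_prod_range, norm_prod]
      refine (Finset.prod_le_prod (g := fun _ => W) (fun i _ => norm_nonneg _)
        fun i hi => ?_).trans_eq (by simp)
      have hi' : (i : ℝ) ≤ j := by exact_mod_cast (Finset.mem_range.1 hi).le
      refine (norm_sub_le _ _).trans ?_
      rw [Complex.norm_natCast]
      linarith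
    have h3 : W ^ j ≤ Real.exp (J / θ) * (θ * W) ^ j := by
      have h4 : 1 / θ ≤ Real.exp (1 / θ) := by linarith [Real.add_one_le_exp (1 / θ)]
      have h5 : (1 / θ) ^ j ≤ Real.exp (J / θ) := by
        calc (1 / θ) ^ j ≤ Real.exp (1 / θ) ^ j := by gcongr
          _ = Real.exp (j * (1 / θ)) := (Real.exp_nat_mul _ _).symm
          _ ≤ _ := by
            apply Real.exp_le_exp.2
            rw [mul_one_div]; gcongr
      calc W ^ j = (1 / θ) ^ j * (θ * W) ^ j := by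
            rw [← mul_pow]; congr 1; field_simp
        _ ≤ _ := by gcongr
    simp only [eval_mul, eval_C, eval_comp, eval_sub, eval_X, norm_mul, norm_div,
      Complex.norm_natCast]
    have hf : (0 : ℝ) < j.factorial := by exact_mod_cast j.factorial_pos
    calc ‖dif F j m‖ / j.factorial * ‖(descPochhammer ℂ j).eval (w - m)‖
        ≤ B / j.factorial * (Real.exp (J / θ) * (θ * W) ^ j) := by
          gcongr
          exact h2.trans h3
      _ = _ := by ring

/-- At a scale without growth gap the second function is close to a polynomial in the first. -/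
theorem approxP {g G : ℂ → ℂ} (hg : Differentiable ℂ g) (hG : Differentiable ℂ G) (h0 : g 0 = 0)
    (hZ : ∀ w (n : ℤ), g w = n → ∃ k : ℤ, G w = k) {ε : ℝ} (hε : 0 < ε) (N : ℕ) :
    ∃ m₀ : ℝ, ∀ R m : ℝ, 4 ≤ R → m₀ ≤ m → ∀ z₀, ‖z₀‖ ≤ R / 4 → m ≤ ‖g z₀‖ →
      (∀ z, ‖z‖ ≤ R → ‖G z‖ ≤ Real.exp ((3 / 4) ^ 14 / 2 ^ 47 / 2 ^ 92 * m)) →
      ∃ (P : ℂ[X]) (n : ℤ) (L : ℕ) (ψ : ℕ → ℂ), P.natDegree + N ≤ L ∧
        (∀ i : ℕ, i ≤ L → g (ψ i) = n + i ∧ G (ψ i) = P.eval ((n : ℂ) + i)) ∧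
        ∀ z, ‖z‖ ≤ R / 4 → ‖G z - P.eval (g z)‖ ≤ ε := by
  obtain ⟨y₂, hy₂⟩ := eventually_small 2 (1 / 1000) ε 0 (by norm_num) hε
  have hN0 : (0 : ℝ) ≤ N := Nat.cast_nonneg N
  obtain ⟨y₀, hy₀⟩ : ∃ y₀, y₀ = max y₂ (2 ^ 92 + 32 * (N : ℝ)) := ⟨_, rfl⟩
  have hy02 : y₂ ≤ y₀ := hy₀ ▸ le_max_left _ _
  have hy03 : 2 ^ 92 + 32 * (N : ℝ) ≤ y₀ := hy₀ ▸ le_max_right _ _
  obtain ⟨κ, hκ⟩ : ∃ κ : ℝ, κ = (3 / 4) ^ 14 := ⟨_, rfl⟩
  have hκ0 : 0 < κ := by rw [hκ]; positivity
  rw [← hκ]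
  refine ⟨y₀ * 2 ^ 47 / κ, fun R m hR hm z₀ hz₀ hmz hGb => ?_⟩
  have hm' : y₀ * 2 ^ 47 ≤ κ * m := by rw [div_le_iff₀ hκ0] at hm; linarith
  have hm0 : 0 < m := by
    have : 0 < κ * m := lt_of_lt_of_le (by nlinarith) hm'
    exact pos_of_mul_pos_right this hκ0.le
  obtain ⟨M, x, x₀, ψ, hM, hx0, hx1, h1, h2, hψ1, hψ2⟩ := geom hg h0 (by linarith) hm0 hz₀ hmz
  rw [← hκ] at h1
  obtain ⟨ρ, hρ⟩ : ∃ ρ, ρ = M * x ^ 6 / 2 ^ 47 := ⟨_, rfl⟩
  rw [← hρ] at hψ1 hψ2
  obtain ⟨y, hy⟩ : ∃ y, y = ρ * x := ⟨_, rfl⟩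
  have hρ0 : 0 < ρ := by rw [hρ]; positivity
  have hyρ : y ≤ ρ := by rw [hy]; nlinarith
  obtain ⟨u, hu⟩ : ∃ u, u = x ^ 7 := ⟨_, rfl⟩
  have hu0 : 0 < u := by rw [hu]; positivity
  have hu1 : u ≤ 1 := hu ▸ pow_le_one₀ hx0.le hx1
  have hy47 : y * 2 ^ 47 = M * u := by rw [hy, hρ, hu]; field_simp
  have hy0 : 0 < y := by rw [hy]; positivity
  have hmy : κ * m ≤ y * u * 2 ^ 47 := by
    have : x ^ 14 * M = (M * u) * u := by rw [hu]; ring
    rw [this, ← hy47] at h1
    linarith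
  have hyu : y₀ ≤ y * u := by linarith
  have hyuy : y * u ≤ y := by nlinarith
  have hyM : y * 2 ^ 47 ≤ M := by rw [hy47]; nlinarith
  obtain ⟨lam, hlam⟩ : ∃ lam, lam = y * u / 2 ^ 92 := ⟨_, rfl⟩
  have hlam1 : 1 ≤ lam := by rw [hlam, le_div_iff₀ (by positivity)]; linarith
  have hlamy : lam ≤ y / 2 ^ 92 := by rw [hlam]; gcongr
  obtain ⟨B, hB⟩ : ∃ B, B = Real.exp lam := ⟨_, rfl⟩
  have hB0 : 0 < B := hB ▸ Real.exp_pos _
  have hGB : ∀ z, ‖z‖ ≤ R → ‖G z‖ ≤ B := fun z hz => by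
    refine (hGb z hz).trans ?_
    rw [hB]; apply Real.exp_le_exp.2
    have : κ / 2 ^ 47 / 2 ^ 92 * m = κ * m / 2 ^ 47 / 2 ^ 92 := by ring
    rw [this, hlam]
    gcongr
    rw [div_le_iff₀ (by positivity)]; exact hmy
  obtain ⟨J, hJd⟩ : ∃ J : ℕ, J = ⌊2 * lam⌋₊ + 1 := ⟨_, rfl⟩
  have hJa : 2 * lam < J := by rw [hJd]; push_cast; exact Nat.lt_floor_add_one _
  have hJb : (J : ℝ) ≤ 3 * lam := by
    have := Nat.floor_le (show 0 ≤ 2 * lam by linarith)
    rw [hJd]; push_cast; linarith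
  obtain ⟨L, hL⟩ : ∃ L : ℕ, L + 1 = ⌊ρ / 8⌋₊ := ⟨⌊ρ / 8⌋₊ - 1, by
    have : 1 ≤ ⌊ρ / 8⌋₊ := Nat.le_floor (by push_cast; linarith)
    omega⟩
  have hLa : (L : ℝ) + 1 ≤ ρ / 8 := by
    have := Nat.floor_le (show 0 ≤ ρ / 8 by positivity)
    rw [← hL] at this; exact_mod_cast this
  have hLb : ρ / 16 ≤ (L : ℝ) + 1 := by
    have := Nat.lt_floor_add_one (ρ / 8)
    rw [← hL] at this; push_cast at this; linarith
  have hJN : J + N ≤ L := by
    have : (J : ℝ) + N ≤ L := by linarith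
    exact_mod_cast this
  have hxR : 0 < x * R := by positivity
  have hxR' : x * R ≤ R := by nlinarith
  have hJ : B < 2 ^ J := by
    have h3 : Real.exp (1 / 2) ≤ 2 := by
      have h4 : Real.exp (1 / 2) ^ 2 = Real.exp 1 := by rw [← Real.exp_nat_mul]; norm_num
      have h5 := Real.exp_one_lt_d9
      have h6 := Real.exp_pos (1 / 2)
      nlinarith
    calc B < Real.exp ((J : ℝ) * (1 / 2)) := by
          rw [hB]; apply Real.exp_lt_exp.2; linarith
      _ = Real.exp (1 / 2) ^ J := Real.exp_nat_mul _ _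
      _ ≤ 2 ^ J := by gcongr
  obtain ⟨P, hP1, hP2, hP3⟩ := local_newton (F := fun y => G (ψ y)) (x₀ := x₀)
    (ρ := ρ) (B := B) (L := L) (J := J) (hG.comp_differentiableOn hψ1)
    (fun y hy => hGB _ (by linarith [(hψ2 y hy).1]))
    (fun n hn => hZ _ n (hψ2 _ hn).2) hJ hLa (by omega)
  obtain ⟨n, hn⟩ : ∃ n : ℤ, n = ⌊x₀⌋ := ⟨_, rfl⟩
  rw [← hn] at hP2 hP3
  have hn1 : ‖(n : ℂ) - x₀‖ ≤ 1 := by
    have : (n : ℂ) - x₀ = ((n - x₀ : ℝ) : ℂ) := by push_cast; ring
    rw [this, norm_real, Real.norm_eq_abs, abs_le, hn]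
    constructor <;> linarith [Int.floor_le x₀, Int.lt_floor_add_one x₀]
  have hin : ∀ i : ℕ, i ≤ L → (n : ℂ) + i ∈ ball (x₀ : ℂ) ρ := fun i hi => by
    have e : (n : ℂ) + i - x₀ = (n - x₀) + i := by ring
    have h1 : (i : ℝ) ≤ L := by exact_mod_cast hi
    rw [mem_ball, dist_eq_norm, e]
    refine (norm_add_le _ _).trans_lt ?_
    rw [Complex.norm_natCast]
    linarith
  have hx₀ : ‖(x₀ : ℂ)‖ ≤ 2 ^ 14 * M := by
    have h3 := hψ2 x₀ (mem_ball_self hρ0)
    rw [← h3.2]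
    exact h2 _ (by linarith [h3.1])
  have hnb : ‖(n : ℂ)‖ ≤ 2 ^ 14 * M + 1 := by linarith [norm_le_norm_sub_add (n : ℂ) x₀]
  refine ⟨P, n, L, fun i => ψ (n + i), by omega, fun i hi => ⟨(hψ2 _ (hin i hi)).2, hP2 i hi⟩,
    fun z hz => ?_⟩
  have hinj : Set.InjOn (fun i : ℕ => ψ (n + i)) (Finset.range (L + 1)) := fun i hi k hk hik => by
    have hi' : i ≤ L := by simpa [Nat.lt_succ_iff] using hi
    have hk' : k ≤ L := by simpa [Nat.lt_succ_iff] using hk
    have h3 := congrArg g hik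
    simp only [(hψ2 _ (hin i hi')).2, (hψ2 _ (hin k hk')).2] at h3
    exact_mod_cast add_left_cancel h3
  have hb := blaschke (c := 0) (ρ := R - x * R / 2) (ρ' := R) (δ := x * R / 8)
    (B := 2 * Real.exp (3 * y / 10000)) (by linarith) (by linarith) (by linarith)
    ((Finset.range (L + 1)).image fun i : ℕ => ψ (n + i))
    (f := fun z => G z - P.eval (g z))
    (hG.sub (P.differentiable.comp hg)).differentiableOn ?_ ?_ z (by rw [sub_zero]; linarith)
  · refine hb.trans ?_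
    rw [Finset.card_image_of_injOn hinj, Finset.card_range]
    have h3 : y / 768 ≤ ((L + 1 : ℕ) : ℝ) * (x * R / 8 / (6 * (R - x * R / 2))) := by
      have h4 : x / 48 ≤ x * R / 8 / (6 * (R - x * R / 2)) := by
        rw [div_le_div_iff₀ (by norm_num) (by linarith)]
        nlinarith
      push_cast
      calc y / 768 = ρ / 16 * (x / 48) := by rw [hy]; ring
        _ ≤ _ := by gcongr
    have h5 := hy₂ y (by linarith)
    calc 2 * Real.exp (3 * y / 10000) *
          Real.exp (-(((L + 1 : ℕ) : ℝ) * (x * R / 8 / (6 * (R - x * R / 2)))))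
        ≤ 2 * Real.exp (3 * y / 10000) * Real.exp (-(y / 768)) :=
          mul_le_mul_of_nonneg_left (Real.exp_le_exp.2 (by linarith)) (by positivity)
      _ = 2 * y ^ 0 * Real.exp (3 * y / 10000 + -(y / 768)) := by rw [Real.exp_add]; ring
      _ ≤ 2 * y ^ 0 * Real.exp (-(1 / 1000 * y)) :=
          mul_le_mul_of_nonneg_left (Real.exp_le_exp.2 (by linarith)) (by positivity)
      _ ≤ ε := h5.le
  · intro w hw
    rw [mem_sphere, dist_zero_right] at hw
    have b1 := hGB w (by linarith)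
    have b2 := h2 w hw.le
    have b3 := hP3 (g w) (2 ^ 16 * M) (u / 2 ^ 77) (by positivity)
      (by linarith [norm_sub_le (g w) (n : ℂ)])
    have b4 : (J : ℝ) / (u / 2 ^ 77) ≤ y / 10000 := by
      rw [div_le_iff₀ (by positivity)]
      have : y / 10000 * (u / 2 ^ 77) = y * u / 2 ^ 92 * (2 ^ 15 / 10000) := by ring
      rw [this, ← hlam]
      linarith
    have b5 : u / 2 ^ 77 * (2 ^ 16 * M) ≤ y / 10000 := by
      have : u / 2 ^ 77 * (2 ^ 16 * M) = M * u / 2 ^ 61 := by ring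
      rw [this, ← hy47]
      linarith
    have b6 : B ≤ Real.exp (3 * y / 10000) := by
      rw [hB]; apply Real.exp_le_exp.2; linarith
    have b7 : B * Real.exp (J / (u / 2 ^ 77) + u / 2 ^ 77 * (2 ^ 16 * M))
        ≤ Real.exp (3 * y / 10000) := by
      rw [hB, ← Real.exp_add]; apply Real.exp_le_exp.2; linarith
    linarith [norm_sub_le (G w) (P.eval (g w))]
  · intro w hw
    obtain ⟨i, hi, rfl⟩ := Finset.mem_image.1 hw
    have hi' : i ≤ L := by simpa [Nat.lt_succ_iff] using hi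
    have h3 := hψ2 _ (hin i hi')
    refine ⟨by rw [sub_zero]; linarith [h3.1], ?_⟩
    have h4 : G (ψ (n + i)) = P.eval ((n : ℂ) + i) := hP2 i hi'
    show G (ψ (n + i)) - P.eval (g (ψ (n + i))) = 0
    rw [h4, h3.2, sub_self]

/-- A polynomial with a quasi-period is affine. -/
theorem affine_of_period {P : ℂ[X]} {m m' : ℤ} (hm : m ≠ 0)
    (h : ∀ w : ℂ, P.eval (w + m) = P.eval w + m') (w : ℂ) :
    (m : ℂ) * P.eval w = m' * w + m * P.eval 0 := by
  have hm' : (m : ℂ) ≠ 0 := by exact_mod_cast hm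
  have hk : ∀ k : ℕ, P.eval ((k : ℂ) * m) = P.eval 0 + k * m' := fun k => by
    induction k with
    | zero => simp
    | succ k ih => push_cast; rw [add_mul, one_mul, h, ih]; ring
  have hQ : C (m : ℂ) * P - C (m' : ℂ) * X - C (m * P.eval 0) = 0 := by
    apply eq_zero_of_infinite_isRoot
    refine Set.infinite_of_injective_forall_mem (f := fun k : ℕ => (k : ℂ) * m)
      (fun a b hab => by exact_mod_cast mul_right_cancel₀ hm' hab) fun k => ?_
    simp only [mem_ofPred_eq, IsRoot.def, eval_sub, eval_mul, eval_C, eval_X, hk]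
    ring
  have := congrArg (eval w) hQ
  simp only [eval_sub, eval_mul, eval_C, eval_X, eval_zero] at this
  linear_combination this

/-- For a pair of entire functions with a common quasi-period: either the second function is an
integral affine function of the first one, or it is exponentially larger at every large scale. -/
theorem polya_per {g G : ℂ → ℂ} (hg : Differentiable ℂ g) (hG : Differentiable ℂ G) (h0 : g 0 = 0)
    {τ : ℂ} {m m' : ℤ} (hm : m ≠ 0) (pg : ∀ z, g (z + τ) = g z + m)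
    (pG : ∀ z, G (z + τ) = G z + m') (hZ : ∀ w (n : ℤ), g w = n → ∃ k : ℤ, G w = k)
    (hnl : ¬ ∃ a b : ℤ, ∀ z, G z = a * g z + b) :
    ∃ c m₀ : ℝ, 0 < c ∧ ∀ R μ : ℝ, 4 ≤ R → m₀ ≤ μ → ∀ z₀, ‖z₀‖ ≤ R / 4 → μ ≤ ‖g z₀‖ →
      ∃ z, ‖z‖ ≤ R ∧ Real.exp (c * μ) ≤ ‖G z‖ := by
  by_contra hcon
  push Not at hcon
  have hm' : (m : ℂ) ≠ 0 := by exact_mod_cast hm
  have happ : ∀ ε : ℝ, 0 < ε → ∀ (N : ℕ) (r : ℝ),
      ∃ (P : ℂ[X]) (n : ℤ) (L : ℕ) (ψ : ℕ → ℂ), P.natDegree + N ≤ L ∧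
        (∀ i : ℕ, i ≤ L → g (ψ i) = n + i ∧ G (ψ i) = P.eval ((n : ℂ) + i)) ∧
        ∀ z, ‖z‖ ≤ r → ‖G z - P.eval (g z)‖ ≤ ε := by
    intro ε hε N r
    obtain ⟨m₀, hm₀⟩ := approxP hg hG h0 hZ hε N
    obtain ⟨A, hA⟩ := (isCompact_closedBall (0 : ℂ) r).exists_bound_of_continuousOn
      hg.continuous.continuousOn
    obtain ⟨R, μ, hR, hμ, z₀, hz₀, hmz, hb⟩ :=
      hcon ((3 / 4) ^ 14 / 2 ^ 47 / 2 ^ 92) (max m₀ (A + 1)) (by positivity)
    obtain ⟨P, n, L, ψ, h1, h2, h3⟩ :=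
      hm₀ R μ hR ((le_max_left _ _).trans hμ) z₀ hz₀ hmz fun z hz => (hb z hz).le
    refine ⟨P, n, L, ψ, h1, h2, fun z hz => h3 z ?_⟩
    have : r < ‖z₀‖ := by
      by_contra hr
      have := hA z₀ (mem_closedBall_zero_iff.2 (not_lt.1 hr))
      linarith [le_max_right m₀ (A + 1)]
    linarith
  have hfib : ∀ z w, g z = g w → G z = G w := fun z w hzw => by
    apply sub_eq_zero.1
    apply norm_le_zero_iff.1
    apply le_of_forall_pos_le_add
    intro ε hε
    obtain ⟨P, -, -, -, -, -, h3⟩ := happ (ε / 2) (by positivity) 0 (max ‖z‖ ‖w‖)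
    have k1 := h3 z (le_max_left _ _)
    have k2 := h3 w (le_max_right _ _)
    have k3 := norm_sub_le (G z - P.eval (g z)) (G w - P.eval (g w))
    rw [hzw, sub_sub_sub_cancel_right] at k3
    rw [hzw] at k1
    linarith
  -- reduce to a positive quasi-period
  obtain ⟨σ, a, a', ha, qg, qG⟩ : ∃ (σ : ℂ) (a : ℕ) (a' : ℤ), 0 < a ∧
      (∀ z, g (z + σ) = g z + a) ∧ ∀ z, G (z + σ) = G z + a' := by
    rcases lt_or_gt_of_ne hm with h | h
    · refine ⟨-τ, (-m).toNat, -m', by omega, fun z => ?_, fun z => ?_⟩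
      · have e : (((-m).toNat : ℕ) : ℂ) = -m := by
          have : (((-m).toNat : ℕ) : ℤ) = -m := Int.toNat_of_nonneg (by omega)
          exact_mod_cast this
        have := pg (z + -τ)
        rw [neg_add_cancel_right] at this
        rw [e]; linear_combination -this
      · have := pG (z + -τ)
        rw [neg_add_cancel_right] at this
        push_cast; linear_combination -this
    · refine ⟨τ, m.toNat, m', by omega, fun z => ?_, pG⟩
      have e : ((m.toNat : ℕ) : ℂ) = m := by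
        have : ((m.toNat : ℕ) : ℤ) = m := Int.toNat_of_nonneg (by omega)
        exact_mod_cast this
      rw [e]; exact pg z
  have ha' : (a : ℂ) ≠ 0 := by exact_mod_cast ha.ne'
  have hlin : ∀ z, (a : ℂ) * G z = a' * g z + a * G 0 := fun z => by
    apply sub_eq_zero.1
    apply norm_le_zero_iff.1
    apply le_of_forall_pos_le_add
    intro ε hε
    have hap : (0 : ℝ) < a := by exact_mod_cast ha
    obtain ⟨P, n, L, ψ, h1, h2, h3⟩ := happ (ε / (2 * a)) (by positivity) a ‖z‖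
    have hper : P.comp (X + C (a : ℂ)) - P - C (a' : ℂ) = 0 := by
      have hinj : Function.Injective fun i : ℕ => (n : ℂ) + i := fun i k hik => by
        exact_mod_cast add_left_cancel hik
      apply eq_zero_of_natDegree_lt_card_of_eval_eq_zero' _
        ((Finset.range (P.natDegree + 1)).image fun i : ℕ => (n : ℂ) + i)
      · intro w hw
        obtain ⟨i, hi, rfl⟩ := Finset.mem_image.1 hw
        have hi' : i ≤ P.natDegree := by simpa [Nat.lt_succ_iff] using hi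
        obtain ⟨k1, k2⟩ := h2 i (by omega)
        obtain ⟨k3, k4⟩ := h2 (i + a) (by omega)
        have k5 := hfib (ψ (i + a)) (ψ i + σ) (by rw [k3, qg, k1]; push_cast; ring)
        rw [qG, k2, k4] at k5
        simp only [eval_sub, eval_comp, eval_add, eval_X, eval_C]
        push_cast at k5
        rw [← add_assoc] at k5
        rw [k5]; ring
      · rw [Finset.card_image_of_injective _ hinj, Finset.card_range, Nat.lt_succ_iff]
        refine (natDegree_sub_le _ _).trans (max_le ((natDegree_sub_le _ _).trans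
          (max_le (natDegree_comp_le.trans ?_) le_rfl)) (by simp))
        rw [natDegree_X_add_C, mul_one]
    have hP := affine_of_period (P := P) (m := a) (m' := a') (by exact_mod_cast ha.ne')
      (fun w => by
        have := congrArg (eval w) hper
        simp only [eval_sub, eval_comp, eval_add, eval_X, eval_C, eval_zero] at this
        push_cast
        linear_combination this) (g z)
    push_cast at hP
    have k1 := h3 z le_rfl
    have k2 := h3 0 (by simp)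
    rw [h0] at k2
    have e : (a : ℂ) * G z - (a' * g z + a * G 0)
        = a * ((G z - P.eval (g z)) - (G 0 - P.eval 0)) := by linear_combination hP
    rw [e, norm_mul, Complex.norm_natCast]
    have k3 := norm_sub_le (G z - P.eval (g z)) (G 0 - P.eval 0)
    calc (a : ℝ) * ‖(G z - P.eval (g z)) - (G 0 - P.eval 0)‖ ≤ a * (ε / (2 * a) + ε / (2 * a)) := by
          gcongr; linarith
      _ = 0 + ε := by field_simp; ring
  obtain ⟨P, n, L, ψ, h1, h2, -⟩ := happ 1 one_pos 1 0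
  obtain ⟨k1, -⟩ := h2 0 (by omega)
  obtain ⟨k2, -⟩ := h2 1 (by omega)
  obtain ⟨u, hu⟩ := hZ (ψ 0) n (by simpa using k1)
  obtain ⟨v, hv⟩ := hZ (ψ 1) (n + 1) (by simpa using k2)
  obtain ⟨b, hb⟩ := hZ 0 0 (by simpa using h0)
  refine hnl ⟨v - u, b, fun z => mul_left_cancel₀ ha' ?_⟩
  have e1 := hlin (ψ 0)
  have e2 := hlin (ψ 1)
  have e3 := hlin z
  rw [hu, k1] at e1
  rw [hv, k2] at e2
  rw [hb] at e3
  push_cast at e1 e2 ⊢
  linear_combination e3 - g z * (e2 - e1)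

end Pool.Agent.Lib.MP_b1b13a_lc
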