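import Pool.Agent.Lib.MP_b1b13a_lc.Growth
import Pool.Agent.Lib.MP_b1b13a_lc.PolyaPer
import Pool.Agent.Lib.MP_b1b13a_lc.Rep

/-!
A chain of solutions of the Pell equation with one common multiplier.
-/

namespace Pool.Agent.Lib.MP_b1b13a_lc.Ser

open Complex Metric Set Filter Topology

/-- The symmetries of a solution of the Pell equation in the uniformising variable. -/
structure Per (u : ℂ → ℂ) : Prop where
  per : ∀ z, u (z + 2 * Real.pi * I) = u z
  inv : ∀ z, u (-z) * u z = 1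
  mid : u (Real.pi * I) = -1

theorem const_of_int {β : ℂ → ℂ} (hβ : Differentiable ℂ β) (h : ∀ z, ∃ n : ℤ, β z = n) (z : ℂ) :
    β z = β 0 := by
  have := picard_int (β := fun z => β z + 1 / 2) (by fun_prop) (fun w n hw => by
    obtain ⟨k, hk⟩ := h w
    have k1 : ((2 * k + 1 : ℤ) : ℂ) = ((2 * n : ℤ) : ℂ) := by
      push_cast; linear_combination 2 * hw - 2 * hk
    have k2 : 2 * k + 1 = 2 * n := by exact_mod_cast k1
    omega) z 0
  exact add_right_cancel this

theorem Per.log {u g : ℂ → ℂ} (h : Per u) (hg : Differentiable ℂ g) (h0 : g 0 = 0)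
    (hu : ∀ z, u z = exp (2 * Real.pi * I * g z)) :
    ∃ m : ℤ, m ≠ 0 ∧ ∀ z, g (z + 2 * Real.pi * I) = g z + m := by
  have hi : ∀ x : ℂ, exp (2 * Real.pi * I * x) = 1 → ∃ n : ℤ, x = n := fun x hx => by
    obtain ⟨n, hn⟩ := Complex.exp_eq_one_iff.1 hx
    exact ⟨n, mul_left_cancel₀ two_pi_I_ne (by rw [hn]; ring)⟩
  have h1 : ∀ z, ∃ n : ℤ, g (z + 2 * Real.pi * I) - g z = n := fun z => hi _ (by
    rw [mul_sub, Complex.exp_sub, ← hu, ← hu, h.per, hu, div_self (exp_ne_zero _)])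
  have h2 := const_of_int (β := fun z => g (z + 2 * Real.pi * I) - g z) (by fun_prop) h1
  have h3 := const_of_int (β := fun z => g (-z) + g z) (by fun_prop) fun z => hi _ (by
    rw [mul_add, Complex.exp_add, ← hu, ← hu, h.inv])
  obtain ⟨m, hm⟩ := h1 0
  refine ⟨m, fun e => ?_, fun z => by linear_combination h2 z + hm⟩
  have k1 := h2 (-(Real.pi * I))
  have k2 := h3 (Real.pi * I)
  have k3 : -(Real.pi * I) + 2 * Real.pi * I = (Real.pi * I : ℂ) := by ring
  rw [hm, e, k3, Int.cast_zero] at k1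
  rw [neg_zero, h0] at k2
  have k4 : g (Real.pi * I) = 0 := by linear_combination (k1 + k2) / 2
  have k5 := h.mid
  rw [hu, k4, mul_zero, Complex.exp_zero] at k5
  norm_num at k5

/-- One link of the chain: the quotient has an odd value or the growth level goes up. -/
theorem link_per {u v h : ℂ → ℂ} {k : ℕ} (hu : LBig k u) (pu : Per u) (pv : Per v)
    (hv : Differentiable ℂ v) (hh : Continuous h) (e1 : ∀ z, v z - 1 = h z * (u z - 1)) :
    ((∃ a : ℤ, h 0 = 2 * a + 1) ∧ LBig k v) ∨ LBig (k + 1) v := by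
  obtain ⟨g, hg, h0, hu, hb⟩ := hu
  have hu0 : u 0 = 1 := by rw [hu, h0]; simp
  have hv0 : v 0 = 1 := by have := e1 0; rw [hu0] at this; linear_combination this
  obtain ⟨G, hG, hG0, hvG⟩ := exists_log' hv fun z => right_ne_zero_of_mul_eq_one (pv.inv z)
  have hud : Differentiable ℂ u := by
    have : u = fun z => exp (2 * Real.pi * I * g z) := funext hu
    rw [this]; fun_prop
  have hint : ∀ n : ℤ, exp (2 * Real.pi * I * n) = 1 := fun n => by
    rw [mul_comm]; exact Complex.exp_int_mul_two_pi_mul_I n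
  by_cases hl : ∃ a b : ℤ, ∀ z, G z = a * g z + b
  · left
    obtain ⟨a, b', hl⟩ := hl
    have hp : ∀ z, u z ^ a = v z := fun z => by
      rw [hvG, hl, hu, ← Complex.exp_int_mul, mul_add, Complex.exp_add, hint, mul_one]
      congr 1; ring
    have h1 := val_of_zpow hud hh hu0 ⟨_, by rw [pu.mid]; norm_num⟩ (a := a)
      fun z => by rw [hp, e1]
    rcases Int.even_or_odd a with h2 | ⟨c, hc⟩
    · have h3 := hp (Real.pi * I)
      rw [pu.mid, pv.mid, h2.neg_one_zpow] at h3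
      norm_num at h3
    · refine ⟨⟨c, by rw [h1, hc]; push_cast; ring⟩, G, hG, hG0 hv0, hvG, ?_⟩
      have hb' : (b' : ℂ) = 0 := by
        have := hl 0
        rw [hG0 hv0, h0] at this
        linear_combination -this
      have ha : (1 : ℝ) ≤ ‖(a : ℂ)‖ := by
        rw [Complex.norm_intCast]
        have : 1 ≤ |a| := Int.one_le_abs (by omega)
        exact_mod_cast this
      obtain ⟨c₀, hc₀, hb⟩ := hb
      refine ⟨c₀, hc₀, hb.mono fun r ⟨z, hz, hz'⟩ => ⟨z, hz, hz'.trans ?_⟩⟩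
      rw [hl, hb', add_zero, norm_mul]
      exact le_mul_of_one_le_left (norm_nonneg _) ha
  · right
    obtain ⟨m, hm, pg⟩ := pu.log hg h0 hu
    obtain ⟨m', -, pG⟩ := pv.log hG (hG0 hv0) hvG
    refine ⟨G, hG, hG0 hv0, hvG, big_step hb (polya_per hg hG h0 hm pg pG (fun w n hw => ?_) hl)⟩
    have k1 : u w = 1 := by rw [hu, hw, hint]
    have k2 := e1 w
    rw [k1, sub_self, mul_zero, sub_eq_zero, hvG, Complex.exp_eq_one_iff] at k2
    obtain ⟨m, hm⟩ := k2
    exact ⟨m, mul_left_cancel₀ two_pi_I_ne (by rw [hm]; ring)⟩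

/-- The function `a + b * sqrt (z ^ 2 + 2 * z)` in the variable `s`, `z + 1 = cosh s`. -/
noncomputable def up (a b : ℂ → ℂ) (s : ℂ) : ℂ := a (cosh s - 1) + b (cosh s - 1) * sinh s

theorem up_diff {a b : ℂ → ℂ} (ha : Differentiable ℂ a) (hb : Differentiable ℂ b) :
    Differentiable ℂ (up a b) := by
  unfold up
  fun_prop

theorem sq_eq (s : ℂ) : (cosh s - 1) ^ 2 + 2 * (cosh s - 1) = sinh s ^ 2 := by
  linear_combination cosh_sq s

theorem up_per {a b c : ℂ → ℂ} (h1 : ∀ w, a w ^ 2 - (w ^ 2 + 2 * w) * b w ^ 2 = 1)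
    (h2 : ∀ w, a w = w + 1 + (w ^ 2 + 2 * w) * c w) : Per (up a b) ∧ up a b 0 = 1 := by
  refine ⟨⟨fun z => ?_, fun z => ?_, ?_⟩, ?_⟩
  · simp only [up, cosh_add, sinh_add, cosh_mul_I, sinh_mul_I, cos_two_pi, sin_two_pi]
    simp
  · have := h1 (cosh z - 1)
    rw [sq_eq] at this
    simp only [up, cosh_neg, sinh_neg]
    linear_combination this
  · simp only [up, cosh_mul_I, sinh_mul_I, cos_pi, sin_pi, h2]
    ring
  · simp [up, h2]

theorem LBig.mono {k : ℕ} {u : ℂ → ℂ} (h : LBig (k + 1) u) : LBig k u := by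
  obtain ⟨g, hg, h0, hu, c, hc, hb⟩ := h
  exact ⟨g, hg, h0, hu, c, hc, hb.mono fun r ⟨z, hz, hz'⟩ =>
    ⟨z, hz, (tw_level (Nat.le_succ k) _).trans hz'⟩⟩

theorem exists_quot {A : Type} [CommRing A] (u : Aˣ) (ε : A →+* ℤ) (h : ε u = 1) (n : ℤ) :
    ∃ q : A, (u ^ n : Aˣ) - 1 = q * (u - 1) ∧ ε q = n := by
  have h' : ε (u⁻¹ : Aˣ) = 1 := by
    have := congrArg ε u.inv_mul
    rwa [map_mul, h, mul_one, map_one] at this
  induction n using Int.induction_on with
  | zero => exact ⟨0, by simp, by simp⟩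
  | succ n ih =>
    obtain ⟨q, e, hq⟩ := ih
    refine ⟨q * u + 1, ?_, by simp [hq, h]⟩
    rw [zpow_add_one, Units.val_mul]
    linear_combination (u : A) * e
  | pred n ih =>
    obtain ⟨q, e, hq⟩ := ih
    refine ⟨(q - 1) * (u⁻¹ : Aˣ), ?_, by simp [hq, h']⟩
    rw [zpow_sub_one, Units.val_mul]
    linear_combination ((u⁻¹ : Aˣ) : A) * e + u.inv_mul

open Polynomial QuadraticAlgebra in
theorem exists_wit {n : ℕ → ℤ} (hn : ∀ j, Odd (n j)) : ∃ a b c p r e : ℕ → ℤ[X], ∀ j,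
    a j ^ 2 - (X ^ 2 + 2 * X) * b j ^ 2 = 1 ∧ a j = X + 1 + (X ^ 2 + 2 * X) * c j ∧
    a (j + 1) - 1 = p j * (a j - 1) + (X ^ 2 + 2 * X) * r j * b j ∧
    b (j + 1) = p j * b j + r j * (a j - 1) ∧ p j = C (n j) + X * e j := by
  obtain ⟨N, hN⟩ : ∃ N : ℕ → ℤ, N = fun j => ∏ i ∈ Finset.range j, n i := ⟨_, rfl⟩
  have hN1 : ∀ j, N (j + 1) = N j * n j := fun j => by simp [hN, Finset.prod_range_succ]
  have hN2 : ∀ j, Odd (N j) := fun j => by
    induction j with
    | zero => simp [hN]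
    | succ j ih => rw [hN1]; exact ih.mul (hn j)
  let A := QuadraticAlgebra ℤ[X] (X ^ 2 + 2 * X) 0
  let t : Aˣ := ⟨⟨X + 1, 1⟩, ⟨X + 1, -1⟩, by ext1 <;> simp [A] <;> ring,
    by ext1 <;> simp [A] <;> ring⟩
  let ε : ∀ x : ℤ, x ^ 2 + 2 * x = 0 → A →+* ℤ := fun x hx =>
    { toFun := fun u => u.re.eval x
      map_one' := by simp [A]
      map_zero' := by simp [A]
      map_add' := fun u v => by simp [A]
      map_mul' := fun u v => by simp [A, hx] }
  have hε : ∀ x hx (m : ℤ), ε x hx (t ^ m : Aˣ) = (Units.map (ε x hx : A →* ℤ) t ^ m : ℤˣ) :=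
    fun x hx m => by rw [← map_zpow]; rfl
  have h1 : ∀ m : ℤ, ε 0 (by simp) (t ^ m : Aˣ) = 1 := fun m => by
    have : Units.map (ε 0 (by simp) : A →* ℤ) t = 1 := Units.ext (by simp [ε, t])
    rw [hε 0 (by simp), this, one_zpow, Units.val_one]
  have h2 : ∀ j : ℕ, ε (-2) (by simp) (t ^ N j : Aˣ) = -1 := fun j => by
    have : Units.map (ε (-2) (by simp) : A →* ℤ) t = -1 := Units.ext (by simp [ε, t])
    rw [hε (-2) (by simp), this, (hN2 j).neg_one_zpow, Units.val_neg, Units.val_one]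
  have h3 : ∀ m : ℤ, QuadraticAlgebra.norm ((t ^ m : Aˣ) : A) = 1 := fun m => by
    have : Units.map (QuadraticAlgebra.norm : A →* ℤ[X]) t = 1 :=
      Units.ext (by simp [t, QuadraticAlgebra.norm_def]; ring)
    rw [← Units.coe_map, map_zpow, this, one_zpow, Units.val_one]
  have h4 : ∀ j : ℕ, ∃ c, ((t ^ N j : Aˣ) : A).re = X + 1 + (X ^ 2 + 2 * X) * c := fun j => by
    obtain ⟨c, hc⟩ : X ∣ ((t ^ N j : Aˣ) : A).re - (X + 1) := by
      rw [X_dvd_iff, coeff_zero_eq_eval_zero, eval_sub]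
      exact sub_eq_zero.2 ((h1 _).trans (by simp))
    obtain ⟨c', rfl⟩ : X - C (-2) ∣ c := by
      have k := congrArg (eval (-2)) hc
      have k' : eval (-2) ((t ^ N j : Aˣ) : A).re = -1 := h2 j
      simp only [eval_sub, k', eval_add, eval_X, eval_one, eval_mul] at k
      exact dvd_iff_isRoot.2 (by rw [IsRoot.def]; omega)
    refine ⟨c', ?_⟩
    rw [map_neg, show C (2 : ℤ) = 2 from rfl] at hc
    linear_combination hc
  choose c hc using h4
  choose q hq hq' using fun j : ℕ => exists_quot (t ^ N j) (ε 0 (by simp)) (h1 _) (n j)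
  have h5 : ∀ j, ∃ e, (q j).re = C (n j) + X * e := fun j => by
    obtain ⟨e, he⟩ : X ∣ (q j).re - C (n j) := by
      rw [X_dvd_iff, coeff_zero_eq_eval_zero, eval_sub]
      exact sub_eq_zero.2 ((hq' _).trans (by simp))
    exact ⟨e, by linear_combination he⟩
  choose e he using h5
  refine ⟨fun j => ((t ^ N j : Aˣ) : A).re, fun j => ((t ^ N j : Aˣ) : A).im, c,
    fun j => (q j).re, fun j => (q j).im, e, fun j => ⟨?_, hc j, ?_, ?_, he j⟩⟩
  · have := h3 (N j)
    rw [QuadraticAlgebra.norm_def] at this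
    linear_combination this
  · have := congrArg QuadraticAlgebra.re (hq j)
    rw [← zpow_mul, ← hN1] at this
    simpa [A] using this
  · have := congrArg QuadraticAlgebra.im (hq j)
    rw [← zpow_mul, ← hN1] at this
    simpa [A] using this

/-- The polynomial functions with integer coefficients. -/
def zpoly : Subring (ℂ → ℂ) where
  carrier := {f | ∃ p : Polynomial ℤ, ∀ z, f z = Polynomial.aeval z p}
  mul_mem' := fun ⟨p, hp⟩ ⟨q, hq⟩ => ⟨p * q, fun z => by simp [hp, hq]⟩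
  add_mem' := fun ⟨p, hp⟩ ⟨q, hq⟩ => ⟨p + q, fun z => by simp [hp, hq]⟩
  neg_mem' := fun ⟨p, hp⟩ => ⟨-p, fun z => by simp [hp]⟩
  one_mem' := ⟨1, fun z => by simp⟩
  zero_mem' := ⟨0, fun z => by simp⟩

theorem zpoly_div : ∀ f ∈ zpoly, f 0 = 0 → ∃ q ∈ zpoly, ∀ w, f w = w * q w := by
  rintro f ⟨p, hp⟩ h0
  obtain ⟨q, rfl⟩ : Polynomial.X ∣ p := by
    rw [hp, ← Polynomial.coeff_zero_eq_aeval_zero'] at h0
    exact Polynomial.X_dvd_iff.2 (by simpa using h0)
  exact ⟨fun z => Polynomial.aeval z q, ⟨q, fun _ => rfl⟩, fun w => by simp [hp]⟩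

end Pool.Agent.Lib.MP_b1b13a_lc.Ser
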