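import Pool.Agent.Lib.MP_b1b13a_lc.Geom

/-!
A Polya-type theorem for a pair of entire functions, valid at every scale.
-/

namespace Pool.Agent.Lib.MP_b1b13a_lc

open Complex Metric Set Filter Topology

/-- Iterated forward differences. -/
noncomputable def dif (F : ℂ → ℂ) : ℕ → ℂ → ℂ
  | 0 => F
  | j + 1 => fun x => dif F j (x + 1) - dif F j x

theorem dif_facts {F : ℂ → ℂ} {x₀ lam : ℂ} {ρ B μ : ℝ} (hF : DifferentiableOn ℂ F (ball x₀ ρ))
    (hB : ∀ y ∈ ball x₀ ρ, ‖F y‖ ≤ B)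
    (hZ : ∀ n : ℤ, (n : ℂ) ∈ ball x₀ ρ → ∃ k : ℤ, F n = k)
    (hl : ∀ n : ℤ, (n : ℂ) + lam ∈ ball x₀ ρ → (F (n + lam)).im = μ) (j : ℕ) :
    DifferentiableOn ℂ (dif F j) (ball x₀ (ρ - 4 * j)) ∧
      (∀ y ∈ ball x₀ (ρ - 4 * j), ‖dif F j y‖ ≤ B / 2 ^ j) ∧
      (∀ n : ℤ, (n : ℂ) ∈ ball x₀ (ρ - 4 * j) → ∃ k : ℤ, dif F j n = k) ∧
      ∀ n : ℤ, (n : ℂ) + lam ∈ ball x₀ (ρ - 4 * j) →
        (dif F j (n + lam)).im = if j = 0 then μ else 0 := by
  induction j with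
  | zero => simpa [dif] using ⟨hF, hB, hZ, hl⟩
  | succ j ih =>
    obtain ⟨h1, h2, h3, h4⟩ := ih
    have hsub : ∀ y ∈ ball x₀ (ρ - 4 * ((j + 1 : ℕ) : ℝ)), ball y 4 ⊆ ball x₀ (ρ - 4 * j) := by
      intro y hy w hw
      rw [mem_ball] at hy hw ⊢
      have := dist_triangle w y x₀
      push_cast at hy
      linarith
    have hm0 : ∀ y ∈ ball x₀ (ρ - 4 * ((j + 1 : ℕ) : ℝ)), y ∈ ball x₀ (ρ - 4 * j) :=
      fun y hy => hsub y hy (mem_ball_self (by norm_num))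
    have hb1 : ∀ y : ℂ, y + 1 ∈ ball y 4 := fun y => by
      rw [mem_ball, dist_eq_norm]; norm_num
    have hm1 : ∀ y ∈ ball x₀ (ρ - 4 * ((j + 1 : ℕ) : ℝ)), y + 1 ∈ ball x₀ (ρ - 4 * j) :=
      fun y hy => hsub y hy (hb1 y)
    refine ⟨?_, fun y hy => ?_, fun n hn => ?_, fun n hn => ?_⟩
    · exact (h1.comp (by fun_prop) hm1).sub (h1.mono hm0)
    · have h := Complex.dist_le_div_mul_dist_of_mapsTo_ball (f := dif F j) (c := y) (R₁ := 4)
        (R₂ := 2 * (B / 2 ^ j)) (h1.mono (hsub y hy)) (fun w hw => ?_) (hb1 y)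
      · rw [dist_eq_norm, dist_eq_norm] at h
        refine h.trans_eq ?_
        simp only [add_sub_cancel_left, norm_one, mul_one]
        rw [pow_succ]; field_simp; ring
      · rw [mem_closedBall, dist_eq_norm]
        have := h2 w (hsub y hy hw)
        have := h2 y (hm0 y hy)
        have := norm_sub_le (dif F j w) (dif F j y)
        linarith
    · obtain ⟨k1, hk1⟩ := h3 (n + 1) (by push_cast; exact hm1 _ hn)
      obtain ⟨k2, hk2⟩ := h3 n (hm0 _ hn)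
      push_cast at hk1
      exact ⟨k1 - k2, by simp only [dif]; rw [hk1, hk2]; push_cast; ring⟩
    · have e : (n : ℂ) + lam + 1 = ((n + 1 : ℤ) : ℂ) + lam := by push_cast; ring
      have k1 := h4 (n + 1) (by rw [← e]; exact hm1 _ hn)
      have k2 := h4 n (hm0 _ hn)
      simp only [dif, sub_im]
      rw [e, k1, k2]
      simp

theorem int_eq_zero_of_norm_lt_one {k : ℤ} (h : ‖(k : ℂ)‖ < 1) : k = 0 := by
  rw [Complex.norm_intCast] at h
  have : |k| < 1 := by exact_mod_cast h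
  exact Int.abs_lt_one_iff.1 this

theorem local_polya {F : ℂ → ℂ} {lam : ℂ} {x₀ ρ B μ : ℝ} {L : ℕ}
    (hF : DifferentiableOn ℂ F (ball x₀ ρ)) (hB : ∀ y ∈ ball (x₀ : ℂ) ρ, ‖F y‖ ≤ B)
    (hZ : ∀ n : ℤ, (n : ℂ) ∈ ball (x₀ : ℂ) ρ → ∃ k : ℤ, F n = k)
    (hl : ∀ n : ℤ, (n : ℂ) + lam ∈ ball (x₀ : ℂ) ρ → (F (n + lam)).im = μ)
    (hJ : B < 2 ^ (L + 1)) (hL1 : 1 ≤ L) (hL : (L : ℝ) + 1 ≤ ρ / 8) (hlρ : 1 + ‖lam‖ ≤ ρ / 8)
    (hsmall : B * ρ * Real.exp (-(((L : ℝ) + 1) / 12)) < |lam.im|) :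
    ∃ a a' : ℤ, ‖(a : ℂ)‖ ≤ 2 * B ∧ ‖(a' : ℂ)‖ ≤ B ∧
      ∀ i : ℕ, i ≤ L → F ((⌊x₀⌋ : ℤ) + i) = a * i + a' := by
  have hL1' : (1 : ℝ) ≤ L := by exact_mod_cast hL1
  have hρ : 16 ≤ ρ := by linarith
  have hB0 : 0 ≤ B := (norm_nonneg _).trans (hB x₀ (mem_ball_self (by linarith)))
  obtain ⟨m, hm⟩ : ∃ m : ℤ, m = ⌊x₀⌋ := ⟨_, rfl⟩
  rw [← hm]
  have hm1 : ‖(m : ℂ) - x₀‖ ≤ 1 := by
    have : (m : ℂ) - x₀ = ((m - x₀ : ℝ) : ℂ) := by push_cast; ring
    rw [this, norm_real, Real.norm_eq_abs, abs_le, hm]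
    constructor <;> linarith [Int.floor_le x₀, Int.lt_floor_add_one x₀]
  have hmi : ∀ i : ℕ, i ≤ L → ‖(m : ℂ) + i - x₀‖ ≤ ρ / 8 := fun i hi => by
    have e : (m : ℂ) + i - x₀ = (m - x₀) + i := by ring
    have h1 : (i : ℝ) ≤ L := by exact_mod_cast hi
    rw [e]
    refine (norm_add_le _ _).trans ?_
    rw [Complex.norm_natCast]
    linarith
  have hsub : ∀ j ≤ L + 1, ball (x₀ : ℂ) (ρ / 2) ⊆ ball (x₀ : ℂ) (ρ - 4 * (j : ℕ)) := fun j hj => by
    have : (j : ℝ) ≤ L + 1 := by exact_mod_cast hj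
    exact ball_subset_ball (by linarith)
  have hin : ∀ i : ℕ, i ≤ L → (m : ℂ) + i ∈ ball (x₀ : ℂ) (ρ / 2) := fun i hi => by
    rw [mem_ball, dist_eq_norm]; linarith [hmi i hi]
  have hbd : ∀ j ≤ L + 1, ∀ y ∈ ball (x₀ : ℂ) (ρ / 2), ‖dif F j y‖ ≤ B := fun j hj y hy => by
    refine ((dif_facts hF hB hZ hl j).2.1 y (hsub j hj hy)).trans ?_
    exact div_le_self hB0 (one_le_pow₀ (by norm_num))
  have hint : ∀ j ≤ L + 1, ∀ i : ℕ, i ≤ L → ∃ k : ℤ, dif F j (m + i) = k := fun j hj i hi => by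
    have := (dif_facts hF hB hZ hl j).2.2.1 (m + i) (by push_cast; exact hsub j hj (hin i hi))
    push_cast at this
    exact this
  have hab : ∀ j ≤ L + 1, ∀ a a' : ℤ, (∀ i : ℕ, i ≤ L → dif F j (m + i) = a * i + a') →
      ‖(a : ℂ)‖ ≤ 2 * B ∧ ‖(a' : ℂ)‖ ≤ B := fun j hj a a' h => by
    have h0 := h 0 (by omega)
    have h1 := h 1 hL1
    have b0 := hbd j hj _ (hin 0 (by omega))
    have b1 := hbd j hj _ (hin 1 hL1)
    rw [h0] at b0
    rw [h1] at b1
    simp only [Nat.cast_zero, mul_zero, zero_add, Nat.cast_one, mul_one] at b0 b1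
    have := norm_sub_le ((a : ℂ) + a') a'
    rw [add_sub_cancel_right] at this
    exact ⟨by linarith, b0⟩
  have step : ∀ j, j + 1 ≤ L + 1 →
      (∃ a a' : ℤ, ∀ i : ℕ, i ≤ L → dif F (j + 1) (m + i) = a * i + a') →
      ∃ a a' : ℤ, ∀ i : ℕ, i ≤ L → dif F j (m + i) = a * i + a' := by
    rintro j hj ⟨a, a', h⟩
    obtain ⟨ha, ha'⟩ := hab _ hj a a' h
    have ha0 : a = 0 := by
      have hinj : Function.Injective fun i : ℕ => (m : ℂ) + i := fun i k hik => by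
        exact_mod_cast add_left_cancel hik
      have hb := blaschke (c := x₀) (ρ := ρ / 4) (ρ' := ρ / 2) (δ := ρ / 8) (B := B * ρ)
        (by linarith) (by linarith) (by linarith)
        ((Finset.range (L + 1)).image fun i : ℕ => (m : ℂ) + i)
        (f := fun y => dif F (j + 1) y - a * (y - m) - a')
        ((((dif_facts hF hB hZ hl (j + 1)).1.mono (hsub _ hj)).sub (by fun_prop)).sub
          (by fun_prop)) ?_ ?_ (m + lam) ?_
      · rw [Finset.card_image_of_injective _ hinj, Finset.card_range] at hb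
        have e : ((L + 1 : ℕ) : ℝ) * (ρ / 8 / (6 * (ρ / 4))) = ((L : ℝ) + 1) / 12 := by
          push_cast; field_simp; ring
        rw [e] at hb
        have him := (dif_facts hF hB hZ hl (j + 1)).2.2.2 m (hsub _ hj (by
          rw [mem_ball, dist_eq_norm]
          have e2 : (m : ℂ) + lam - x₀ = (m - x₀) + lam := by ring
          rw [e2]
          linarith [norm_add_le ((m : ℂ) - x₀) lam]))
        have h2 := (abs_im_le_norm _).trans hb
        simp only [sub_im, him, Nat.add_eq_zero_iff, one_ne_zero, and_false, if_false,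
          add_sub_cancel_left, mul_im, intCast_re, intCast_im, zero_mul, add_zero, zero_sub,
          sub_zero, abs_neg, abs_mul] at h2
        have h3 : |(a : ℝ)| * |lam.im| < 1 * |lam.im| := by linarith
        have h4 : |(a : ℝ)| < 1 := lt_of_mul_lt_mul_right h3 (abs_nonneg _)
        have : |a| < 1 := by exact_mod_cast h4
        exact Int.abs_lt_one_iff.1 this
      · intro y hy
        rw [mem_sphere, dist_eq_norm] at hy
        have h1 := hbd _ hj y (by rw [mem_ball, dist_eq_norm]; linarith)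
        have h2 : ‖y - m‖ ≤ ρ / 4 + 1 := by
          have e : y - m = (y - x₀) - (m - x₀) := by ring
          rw [e]; linarith [norm_sub_le (y - x₀) ((m : ℂ) - x₀)]
        have h3 : ‖(a : ℂ) * (y - m)‖ ≤ 2 * B * (ρ / 4 + 1) := by
          rw [norm_mul]; gcongr
        have h4 := norm_sub_le (dif F (j + 1) y - a * (y - m)) (a' : ℂ)
        have h5 := norm_sub_le (dif F (j + 1) y) (a * (y - m))
        nlinarith
      · intro w hw
        obtain ⟨i, hi, rfl⟩ := Finset.mem_image.1 hw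
        have hi' : i ≤ L := by simpa [Nat.lt_succ_iff] using hi
        refine ⟨by linarith [hmi i hi'], ?_⟩
        simp only [h i hi']; ring
      · have e2 : (m : ℂ) + lam - x₀ = (m - x₀) + lam := by ring
        rw [e2]
        linarith [norm_add_le ((m : ℂ) - x₀) lam]
    obtain ⟨k, hk⟩ := hint j (by omega) 0 (by omega)
    refine ⟨a', k, fun i hi => ?_⟩
    induction i with
    | zero => simpa using hk
    | succ i ih =>
      have h1 := h i (by omega)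
      have h2 := ih (by omega)
      simp only [dif, ha0, Int.cast_zero, zero_mul, zero_add] at h1
      push_cast
      rw [← add_assoc]
      linear_combination h1 + h2
  have all : ∀ d ≤ L + 1, ∃ a a' : ℤ, ∀ i : ℕ, i ≤ L → dif F (L + 1 - d) (m + i) = a * i + a' := by
    intro d hd
    induction d with
    | zero =>
      refine ⟨0, 0, fun i hi => ?_⟩
      obtain ⟨k, hk⟩ := hint (L + 1) le_rfl i hi
      have h1 := (dif_facts hF hB hZ hl (L + 1)).2.1 _ (hsub _ le_rfl (hin i hi))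
      rw [hk] at h1
      have h2 : k = 0 := int_eq_zero_of_norm_lt_one
        (h1.trans_lt ((div_lt_one (by positivity)).2 hJ))
      simp [hk, h2]
    | succ d ih =>
      apply step _ (by omega)
      have e : L + 1 - (d + 1) + 1 = L + 1 - d := by omega
      rw [e]
      exact ih (by omega)
  obtain ⟨a, a', h⟩ := all (L + 1) le_rfl
  rw [Nat.sub_self] at h
  obtain ⟨ha, ha'⟩ := hab 0 (by omega) a a' h
  exact ⟨a, a', ha, ha', h⟩

theorem eventually_small (C k ε : ℝ) (n : ℕ) (hk : 0 < k) (hε : 0 < ε) :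
    ∃ y₀ : ℝ, ∀ y, y₀ ≤ y → C * y ^ n * Real.exp (-(k * y)) < ε := by
  have h1 := (Real.tendsto_pow_mul_exp_neg_atTop_nhds_zero n).comp
    (tendsto_id.const_mul_atTop hk)
  have h2 := h1.const_mul (C / k ^ n)
  rw [mul_zero] at h2
  obtain ⟨y₀, hy⟩ := eventually_atTop.1 (h2.eventually (gt_mem_nhds hε))
  refine ⟨y₀, fun y hy' => ?_⟩
  have := hy y hy'
  simp only [Function.comp_apply, id_eq] at this
  refine lt_of_eq_of_lt ?_ this
  rw [mul_pow]; field_simp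

theorem approx {g G : ℂ → ℂ} (hg : Differentiable ℂ g) (hG : Differentiable ℂ G) (h0 : g 0 = 0)
    {lam : ℂ} (hlam : lam.im ≠ 0) {μ : ℝ} (hZ : ∀ w (n : ℤ), g w = n → ∃ k : ℤ, G w = k)
    (hl : ∀ w (n : ℤ), g w = n + lam → (G w).im = μ) {ε : ℝ} (hε : 0 < ε) :
    ∃ m₀ : ℝ, ∀ R m : ℝ, 4 ≤ R → m₀ ≤ m → ∀ z₀, ‖z₀‖ ≤ R / 4 → m ≤ ‖g z₀‖ →
      (∀ z, ‖z‖ ≤ R → ‖G z‖ ≤ Real.exp ((3 / 4) ^ 14 / 2 ^ 47 / 10000 * m)) →
      ∃ a b : ℤ, ∀ z, ‖z‖ ≤ 1 → ‖G z - a * g z - b‖ ≤ ε := by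
  obtain ⟨y₁, hy₁⟩ := eventually_small 1 (1 / 200) |lam.im| 1 (by norm_num) (abs_pos.2 hlam)
  obtain ⟨y₂, hy₂⟩ := eventually_small (2 ^ 111) (1 / 1000) ε 2 (by norm_num) hε
  obtain ⟨y₀, hy₀⟩ : ∃ y₀, y₀ = max (max y₁ y₂) (16 + 8 * ‖lam‖) := ⟨_, rfl⟩
  have hy01 : y₁ ≤ y₀ := hy₀ ▸ (le_max_left _ _).trans (le_max_left _ _)
  have hy02 : y₂ ≤ y₀ := hy₀ ▸ (le_max_right _ _).trans (le_max_left _ _)
  have hy03 : 16 + 8 * ‖lam‖ ≤ y₀ := hy₀ ▸ le_max_right _ _
  have hln := norm_nonneg lam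
  obtain ⟨κ, hκ⟩ : ∃ κ : ℝ, κ = (3 / 4) ^ 14 := ⟨_, rfl⟩
  have hκ0 : 0 < κ := by rw [hκ]; positivity
  rw [← hκ]
  refine ⟨y₀ * 2 ^ 47 / κ, fun R m hR hm z₀ hz₀ hmz hGb => ?_⟩
  have hm' : y₀ * 2 ^ 47 ≤ κ * m := by rw [div_le_iff₀ hκ0] at hm; linarith
  have hm0 : 0 < m := by
    have : 0 < κ * m := lt_of_lt_of_le (by nlinarith) hm'
    exact pos_of_mul_pos_right this hκ0.le
  obtain ⟨M, x, x₀, ψ, hM, hx0, hx1, h1, h2, hψ1, hψ2⟩ := geom hg h0 (by linarith) hm0 hz₀ hmz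
  rw [← hκ] at h1
  obtain ⟨ρ, hρ⟩ : ∃ ρ, ρ = M * x ^ 6 / 2 ^ 47 := ⟨_, rfl⟩
  rw [← hρ] at hψ1 hψ2
  obtain ⟨y, hy⟩ : ∃ y, y = ρ * x := ⟨_, rfl⟩
  have hρ0 : 0 < ρ := by rw [hρ]; positivity
  have hyρ : y ≤ ρ := by rw [hy]; nlinarith
  have hx7 : x ^ 7 ≤ 1 := pow_le_one₀ hx0.le hx1
  have hy47 : y * 2 ^ 47 = M * x ^ 7 := by rw [hy, hρ]; field_simp
  have hmy : κ * m ≤ y * 2 ^ 47 := by
    rw [hy47]
    have : x ^ 14 * M = (M * x ^ 7) * x ^ 7 := by ring
    have h3 : 0 ≤ M * x ^ 7 := by positivity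
    nlinarith
  have hyy : y₀ ≤ y := by nlinarith
  have hMy : M ≤ 2 ^ 94 * y ^ 2 := by
    have e : 2 ^ 94 * y ^ 2 = M * (x ^ 14 * M) := by
      calc 2 ^ 94 * y ^ 2 = (y * 2 ^ 47) ^ 2 := by ring
        _ = _ := by rw [hy47]; ring
    have : 1 ≤ x ^ 14 * M := by nlinarith
    rw [e]; nlinarith
  obtain ⟨B, hB⟩ : ∃ B, B = Real.exp (κ / 2 ^ 47 / 10000 * m) := ⟨_, rfl⟩
  rw [← hB] at hGb
  have hB0 : 0 < B := hB ▸ Real.exp_pos _
  have hBy : B ≤ Real.exp (y / 10000) := by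
    rw [hB]; apply Real.exp_le_exp.2
    have : κ / 2 ^ 47 / 10000 * m = κ * m / 2 ^ 47 / 10000 := by ring
    rw [this]
    have : κ * m / 2 ^ 47 ≤ y := by rw [div_le_iff₀ (by positivity)]; exact hmy
    linarith
  obtain ⟨L, hL⟩ : ∃ L : ℕ, L + 1 = ⌊ρ / 8⌋₊ := ⟨⌊ρ / 8⌋₊ - 1, by
    have : 1 ≤ ⌊ρ / 8⌋₊ := Nat.le_floor (by push_cast; linarith)
    omega⟩
  have hL1 : 1 ≤ L := by
    have : 2 ≤ ⌊ρ / 8⌋₊ := Nat.le_floor (by push_cast; linarith)
    omega
  have hLa : (L : ℝ) + 1 ≤ ρ / 8 := by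
    have := Nat.floor_le (show 0 ≤ ρ / 8 by positivity)
    rw [← hL] at this; exact_mod_cast this
  have hLb : ρ / 16 ≤ (L : ℝ) + 1 := by
    have := Nat.lt_floor_add_one (ρ / 8)
    rw [← hL] at this; push_cast at this; linarith
  have hxR : 0 < x * R := by positivity
  have hxR' : x * R ≤ R := by nlinarith
  have hJ : B < 2 ^ (L + 1) := by
    have h3 : Real.exp (1 / 2) ≤ 2 := by
      have h4 : Real.exp (1 / 2) ^ 2 = Real.exp 1 := by rw [← Real.exp_nat_mul]; norm_num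
      have h5 := Real.exp_one_lt_d9
      have h6 := Real.exp_pos (1 / 2)
      nlinarith
    calc B ≤ Real.exp (y / 10000) := hBy
      _ < Real.exp (((L + 1 : ℕ) : ℝ) * (1 / 2)) := by
          apply Real.exp_lt_exp.2; push_cast; linarith
      _ = Real.exp (1 / 2) ^ (L + 1) := Real.exp_nat_mul _ _
      _ ≤ 2 ^ (L + 1) := by gcongr
  have hsm : B * ρ * Real.exp (-(((L : ℝ) + 1) / 12)) < |lam.im| := by
    have h5 := hy₁ ρ (by linarith)
    calc B * ρ * Real.exp (-(((L : ℝ) + 1) / 12))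
        ≤ Real.exp (ρ / 10000) * ρ * Real.exp (-(ρ / 192)) :=
          mul_le_mul (mul_le_mul_of_nonneg_right (hBy.trans (Real.exp_le_exp.2 (by linarith)))
            hρ0.le) (Real.exp_le_exp.2 (by linarith)) (Real.exp_pos _).le
            (mul_nonneg (Real.exp_pos _).le hρ0.le)
      _ = 1 * ρ ^ 1 * Real.exp (ρ / 10000 + -(ρ / 192)) := by rw [Real.exp_add]; ring
      _ ≤ 1 * ρ ^ 1 * Real.exp (-(1 / 200 * ρ)) := by gcongr; linarith
      _ < _ := h5
  obtain ⟨a, a', ha, ha', hF⟩ := local_polya (F := fun y => G (ψ y)) (lam := lam) (x₀ := x₀)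
    (ρ := ρ) (B := B) (μ := μ) (L := L) (hG.comp_differentiableOn hψ1)
    (fun y hy => hGb _ (by linarith [(hψ2 y hy).1]))
    (fun n hn => hZ _ n (hψ2 _ hn).2) (fun n hn => hl _ n (hψ2 _ hn).2) hJ hL1 hLa
    (by linarith) hsm
  · obtain ⟨n, hn⟩ : ∃ n : ℤ, n = ⌊x₀⌋ := ⟨_, rfl⟩
    rw [← hn] at hF
    have hn1 : ‖(n : ℂ) - x₀‖ ≤ 1 := by
      have : (n : ℂ) - x₀ = ((n - x₀ : ℝ) : ℂ) := by push_cast; ring
      rw [this, norm_real, Real.norm_eq_abs, abs_le, hn]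
      constructor <;> linarith [Int.floor_le x₀, Int.lt_floor_add_one x₀]
    have hin : ∀ i : ℕ, i ≤ L → (n : ℂ) + i ∈ ball (x₀ : ℂ) ρ := fun i hi => by
      have e : (n : ℂ) + i - x₀ = (n - x₀) + i := by ring
      have h1 : (i : ℝ) ≤ L := by exact_mod_cast hi
      rw [mem_ball, dist_eq_norm, e]
      refine (norm_add_le _ _).trans_lt ?_
      rw [Complex.norm_natCast]
      linarith
    have hx₀ : ‖(x₀ : ℂ)‖ ≤ 2 ^ 14 * M := by
      have h3 := hψ2 x₀ (mem_ball_self hρ0)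
      rw [← h3.2]
      exact h2 _ (by linarith [h3.1])
    have hnb : ‖(n : ℂ)‖ ≤ 2 ^ 14 * M + 1 := by linarith [norm_le_norm_sub_add (n : ℂ) x₀]
    refine ⟨a, a' - a * n, fun z hz => ?_⟩
    have hinj : Set.InjOn (fun i : ℕ => ψ (n + i)) (Finset.range (L + 1)) := fun i hi k hk hik => by
      have hi' : i ≤ L := by simpa [Nat.lt_succ_iff] using hi
      have hk' : k ≤ L := by simpa [Nat.lt_succ_iff] using hk
      have h3 := congrArg g hik
      simp only [(hψ2 _ (hin i hi')).2, (hψ2 _ (hin k hk')).2] at h3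
      exact_mod_cast add_left_cancel h3
    have hb := blaschke (c := 0) (ρ := R - x * R / 2) (ρ' := R) (δ := x * R / 8)
      (B := B * (4 + 2 ^ 16 * M)) (by linarith) (by linarith) (by linarith)
      ((Finset.range (L + 1)).image fun i : ℕ => ψ (n + i))
      (f := fun z => G z - a * g z - ((a' - a * n : ℤ) : ℂ)) (by fun_prop) ?_ ?_ z
      (by rw [sub_zero]; linarith)
    · refine hb.trans ?_
      rw [Finset.card_image_of_injOn hinj, Finset.card_range]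
      have h3 : y / 768 ≤ ((L + 1 : ℕ) : ℝ) * (x * R / 8 / (6 * (R - x * R / 2))) := by
        have h4 : x / 48 ≤ x * R / 8 / (6 * (R - x * R / 2)) := by
          rw [div_le_div_iff₀ (by norm_num) (by linarith)]
          nlinarith
        push_cast
        calc y / 768 = ρ / 16 * (x / 48) := by rw [hy]; ring
          _ ≤ _ := by gcongr
      have h4 : 4 + 2 ^ 16 * M ≤ 2 ^ 111 * y ^ 2 := by nlinarith
      have h5 := hy₂ y (by linarith)
      have h6 : 0 ≤ 2 ^ 111 * y ^ 2 := le_trans (by positivity) h4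
      calc B * (4 + 2 ^ 16 * M) *
            Real.exp (-(((L + 1 : ℕ) : ℝ) * (x * R / 8 / (6 * (R - x * R / 2)))))
          ≤ Real.exp (y / 10000) * (2 ^ 111 * y ^ 2) * Real.exp (-(y / 768)) :=
            mul_le_mul (mul_le_mul hBy h4 (by positivity) (Real.exp_pos _).le)
              (Real.exp_le_exp.2 (by linarith)) (Real.exp_pos _).le
              (mul_nonneg (Real.exp_pos _).le h6)
        _ = 2 ^ 111 * y ^ 2 * Real.exp (y / 10000 + -(y / 768)) := by rw [Real.exp_add]; ring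
        _ ≤ 2 ^ 111 * y ^ 2 * Real.exp (-(1 / 1000 * y)) :=
            mul_le_mul_of_nonneg_left (Real.exp_le_exp.2 (by linarith)) h6
        _ ≤ ε := h5.le
    · intro w hw
      rw [mem_sphere, dist_zero_right] at hw
      have b1 := hGb w (by linarith)
      have b2 : ‖(a : ℂ) * g w‖ ≤ 2 * B * (2 ^ 14 * M) := by
        rw [norm_mul]; gcongr; exact h2 w hw.le
      have b3 : ‖(a : ℂ) * n‖ ≤ 2 * B * (2 ^ 14 * M + 1) := by rw [norm_mul]; gcongr
      have b4 := norm_sub_le (G w - a * g w) ((a' - a * n : ℤ) : ℂ)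
      have b5 := norm_sub_le (G w) (a * g w)
      have b6 := norm_sub_le (a' : ℂ) (a * n)
      push_cast at b4 ⊢
      nlinarith
    · intro w hw
      obtain ⟨i, hi, rfl⟩ := Finset.mem_image.1 hw
      have hi' : i ≤ L := by simpa [Nat.lt_succ_iff] using hi
      have h3 := hψ2 _ (hin i hi')
      refine ⟨by rw [sub_zero]; linarith [h3.1], ?_⟩
      have h4 : G (ψ (n + i)) = a * i + a' := hF i hi'
      show G (ψ (n + i)) - a * g (ψ (n + i)) - ((a' - a * n : ℤ) : ℂ) = 0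
      rw [h4, h3.2]; push_cast; ring

theorem exists_ne_zero_near {g : ℂ → ℂ} (hg : Differentiable ℂ g) (hnc : ∃ z, g z ≠ 0) :
    ∃ z, ‖z‖ ≤ 1 ∧ g z ≠ 0 := by
  by_contra h
  push Not at h
  obtain ⟨z, hz⟩ := hnc
  apply hz
  have h1 : g =ᶠ[𝓝 0] 0 := by
    filter_upwards [closedBall_mem_nhds (0 : ℂ) one_pos] with w hw
    exact h w (by simpa using hw)
  have := AnalyticOnNhd.eq_of_eventuallyEq (𝕜 := ℂ) (f := g) (g := 0)
    (fun w _ => hg.analyticAt w) analyticOnNhd_const h1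
  rw [this]; rfl

/-- Either the second function is an integral affine function of the first one, or it is
exponentially larger at every large scale. -/
theorem polya {g G : ℂ → ℂ} (hg : Differentiable ℂ g) (hG : Differentiable ℂ G) (h0 : g 0 = 0)
    (hnc : ∃ z, g z ≠ 0) {lam : ℂ} (hlam : lam.im ≠ 0) {μ : ℝ}
    (hZ : ∀ w (n : ℤ), g w = n → ∃ k : ℤ, G w = k)
    (hl : ∀ w (n : ℤ), g w = n + lam → (G w).im = μ)
    (hnl : ¬ ∃ a b : ℤ, ∀ z, G z = a * g z + b) :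
    ∃ c m₀ : ℝ, 0 < c ∧ ∀ R m : ℝ, 4 ≤ R → m₀ ≤ m → ∀ z₀, ‖z₀‖ ≤ R / 4 → m ≤ ‖g z₀‖ →
      ∃ z, ‖z‖ ≤ R ∧ Real.exp (c * m) ≤ ‖G z‖ := by
  by_contra hcon
  push Not at hcon
  have happ : ∀ ε : ℝ, 0 < ε → ∃ a b : ℤ, ∀ z, ‖z‖ ≤ 1 → ‖G z - a * g z - b‖ ≤ ε := by
    intro ε hε
    obtain ⟨m₀, hm₀⟩ := approx hg hG h0 hlam hZ hl hε
    obtain ⟨R, m, hR, hm, z₀, hz₀, hmz, hb⟩ :=
      hcon ((3 / 4) ^ 14 / 2 ^ 47 / 10000) m₀ (by positivity)
    exact hm₀ R m hR hm z₀ hz₀ hmz fun z hz => (hb z hz).le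
  obtain ⟨z₁, hz₁, hg₁⟩ := exists_ne_zero_near hg hnc
  have hn₁ : 0 < ‖g z₁‖ := norm_pos_iff.2 hg₁
  obtain ⟨ε₀, hε₀⟩ : ∃ ε₀, ε₀ = min (1 / 4) (‖g z₁‖ / 4) := ⟨_, rfl⟩
  have e0 : 0 < ε₀ := by rw [hε₀]; positivity
  have e1 : ε₀ ≤ 1 / 4 := hε₀ ▸ min_le_left _ _
  have e2 : ε₀ ≤ ‖g z₁‖ / 4 := hε₀ ▸ min_le_right _ _
  obtain ⟨a₀, b₀, h₀⟩ := happ ε₀ e0
  apply hnl
  refine ⟨a₀, b₀, ?_⟩
  have hz : ∀ z, ‖z‖ ≤ 1 → G z - a₀ * g z - b₀ = 0 := by
    intro z hz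
    apply norm_le_zero_iff.1
    apply le_of_forall_pos_le_add
    intro ε hε
    obtain ⟨a, b, h⟩ := happ (min ε ε₀) (lt_min hε e0)
    have hm := min_le_right ε ε₀
    have hb : b - b₀ = 0 := by
      apply int_eq_zero_of_norm_lt_one
      have k1 := h 0 (by simp)
      have k2 := h₀ 0 (by simp)
      have k3 := norm_sub_le (G 0 - a₀ * g 0 - b₀) (G 0 - a * g 0 - b)
      have e : G 0 - a₀ * g 0 - b₀ - (G 0 - a * g 0 - b) = ((b - b₀ : ℤ) : ℂ) := by
        rw [h0]; push_cast; ring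
      rw [e] at k3
      linarith
    have hb' : b = b₀ := by omega
    have ha : a - a₀ = 0 := by
      apply int_eq_zero_of_norm_lt_one
      have k1 := h z₁ hz₁
      have k2 := h₀ z₁ hz₁
      have k3 := norm_sub_le (G z₁ - a₀ * g z₁ - b₀) (G z₁ - a * g z₁ - b)
      have e : G z₁ - a₀ * g z₁ - b₀ - (G z₁ - a * g z₁ - b) = ((a - a₀ : ℤ) : ℂ) * g z₁ := by
        rw [hb']; push_cast; ring
      rw [e, norm_mul] at k3
      have : ‖((a - a₀ : ℤ) : ℂ)‖ * ‖g z₁‖ < 1 * ‖g z₁‖ := by linarith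
      exact lt_of_mul_lt_mul_right this hn₁.le
    have ha' : a = a₀ := by omega
    have := h z hz
    rw [ha', hb'] at this
    linarith [min_le_left ε ε₀]
  by_contra hne
  push Not at hne
  obtain ⟨z, hzne⟩ := hne
  obtain ⟨w, hw, hw'⟩ := exists_ne_zero_near (g := fun z => G z - a₀ * g z - b₀) (by fun_prop)
    ⟨z, fun h => hzne (by linear_combination h)⟩
  exact hw' (hz w hw)

/-- Little Picard theorem in the form needed here. -/
theorem picard_int {β : ℂ → ℂ} (hβ : Differentiable ℂ β) (h : ∀ z (n : ℤ), β z ≠ n) (z w : ℂ) :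
    β z = β w := by
  by_cases hex : ∃ t, (β t).im = 0
  · obtain ⟨t, ht⟩ := hex
    have hg : Differentiable ℂ fun z => β (z + t) - β t := by fun_prop
    by_cases hb : ∃ z₀, 2 ^ 48 / (3 / 4) ^ 14 ≤ ‖β (z₀ + t) - β t‖
    · exfalso
      obtain ⟨z₀, hz₀⟩ := hb
      obtain ⟨M, x, x₀, ψ, hM, hx0, hx1, h1, -, -, hψ⟩ := geom hg (by simp)
        (R := 4 * ‖z₀‖ + 1) (by positivity) (by positivity) (z₀ := z₀) (by linarith) hz₀
      have hr : 2 ≤ M * x ^ 6 / 2 ^ 47 := by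
        rw [le_div_iff₀ (by positivity)]
        have h8 : x ^ 8 ≤ 1 := pow_le_one₀ hx0.le hx1
        have e : x ^ 14 * M = (M * x ^ 6) * x ^ 8 := by ring
        have h3 : 0 ≤ M * x ^ 6 := by positivity
        have e2 : ((3 : ℝ) / 4) ^ 14 * (2 ^ 48 / (3 / 4) ^ 14) = 2 * 2 ^ 47 := by norm_num
        rw [e2, e] at h1
        nlinarith
      have h2 := (hψ (((⌊x₀ + (β t).re⌋ - (β t).re : ℝ)) : ℂ) (by
        rw [mem_ball, dist_eq_norm, ← ofReal_sub, norm_real, Real.norm_eq_abs, abs_lt]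
        constructor <;>
          linarith [Int.floor_le (x₀ + (β t).re), Int.lt_floor_add_one (x₀ + (β t).re)])).2
      have e3 : β t = ((β t).re : ℂ) := by
        apply Complex.ext <;> simp [ht]
      apply h (ψ (((⌊x₀ + (β t).re⌋ - (β t).re : ℝ)) : ℂ) + t) ⌊x₀ + (β t).re⌋
      push_cast at h2 ⊢
      linear_combination h2 + e3
    · push Not at hb
      have hbd : Bornology.IsBounded (range fun z => β (z + t) - β t) := by
        apply (isBounded_closedBall (x := (0 : ℂ)) (r := 2 ^ 48 / (3 / 4) ^ 14)).subset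
        rintro _ ⟨y, rfl⟩
        simpa using (hb y).le
      have := hg.apply_eq_apply_of_bounded hbd (z - t) (w - t)
      simpa using this
  · push Not at hex
    have key : ∀ s : ℝ, (s = 1 ∨ s = -1) → (∀ t, 0 < s * (β t).im) → β z = β w := by
      intro s hs hpos
      have hn : ∀ t, 1 ≤ ‖β t + s * I‖ := fun t => by
        refine le_trans ?_ (abs_im_le_norm _)
        have := hpos t
        rcases hs with rfl | rfl
        · simp only [ofReal_one, one_mul, add_im, I_im] at this ⊢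
          rw [abs_of_pos] <;> linarith
        · simp only [ofReal_neg, ofReal_one, neg_mul, one_mul, add_im, neg_im, I_im] at this ⊢
          rw [abs_of_neg] <;> linarith
      have hne : ∀ t, β t + s * I ≠ 0 := fun t => norm_pos_iff.1 (by linarith [hn t])
      have hd : Differentiable ℂ fun t => (β t + s * I)⁻¹ := (hβ.add_const _).inv hne
      have hbd : Bornology.IsBounded (range fun t => (β t + s * I)⁻¹) := by
        apply (isBounded_closedBall (x := (0 : ℂ)) (r := 1)).subset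
        rintro _ ⟨y, rfl⟩
        simpa using inv_le_one_of_one_le₀ (hn y)
      have := hd.apply_eq_apply_of_bounded hbd z w
      simpa using this
    have hc : Continuous fun t => (β t).im := by have := hβ.continuous; fun_prop
    rcases lt_or_gt_of_ne (hex 0) with h0 | h0
    · refine key (-1) (Or.inr rfl) fun t => ?_
      by_contra h1
      have h2 : 0 ≤ (β t).im := by linarith
      obtain ⟨y, hy⟩ := intermediate_value_univ 0 t hc ⟨h0.le, h2⟩
      exact hex y hy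
    · refine key 1 (Or.inl rfl) fun t => ?_
      by_contra h1
      have h2 : (β t).im ≤ 0 := by linarith
      obtain ⟨y, hy⟩ := intermediate_value_univ t 0 hc ⟨h2, h0.le⟩
      exact hex y hy

end Pool.Agent.Lib.MP_b1b13a_lc
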