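import Pool.Agent.Lib.MP_b1b13a_lc.Zeros

/-!
One long chain of solutions of the Pell equation; only the last one is restricted.
-/

namespace Pool.Agent.Lib.MP_b1b13a_lc.Ser

open Complex Metric Set Filter Topology

/-- The system: one chain of `d` blocks of `L` links. -/
def SChain (L d : ℕ) (X : ℕ → ℕ → ℂ → ℂ) : Prop :=
  (∀ w, X 7 0 w = X 1 (d * L) w - 1) ∧
  (∀ j < d * L + 1, (∀ w, X 1 j w ^ 2 - (w ^ 2 + 2 * w) * X 2 j w ^ 2 = 1) ∧
      ∀ w, X 1 j w = w + 1 + (w ^ 2 + 2 * w) * X 3 j w) ∧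
    ∀ j < d * L, (∀ w, X 1 (j + 1) w - 1 = X 4 j w * (X 1 j w - 1)
        + (w ^ 2 + 2 * w) * X 5 j w * X 2 j w) ∧
      (∀ w, X 2 (j + 1) w = X 4 j w * X 2 j w + X 5 j w * (X 1 j w - 1)) ∧
      ∀ w, X 4 j w = 2 * X 0 (j / L) w + 1 + w * X 6 j w

open MvPolynomial in
theorem rep_schain (L d : ℕ) : Rep (SChain L d) :=
  ((rep_atom (X (some (7, 0))) (X (some (1, d * L)) - 1)).congr fun _ => by simp).and <|
  (Rep.ball (fun j =>
    ((rep_atom (X (some (1, j)) ^ 2 - (X none ^ 2 + Nat.cast 2 * X none)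
      * X (some (2, j)) ^ 2) 1).congr fun _ => by simp).and
    ((rep_atom (X (some (1, j))) (X none + 1 + (X none ^ 2 + Nat.cast 2 * X none)
      * X (some (3, j)))).congr fun _ => by simp)) _).and (Rep.ball (fun j =>
    ((rep_atom (X (some (1, j + 1)) - 1) (X (some (4, j))
      * (X (some (1, j)) - 1) + (X none ^ 2 + Nat.cast 2 * X none)
      * X (some (5, j)) * X (some (2, j)))).congr fun _ => by simp).and <|
    ((rep_atom (X (some (2, j + 1))) (X (some (4, j)) * X (some (2, j))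
      + X (some (5, j)) * (X (some (1, j)) - 1))).congr fun _ => by simp).and
    ((rep_atom (X (some (4, j))) (Nat.cast 2 * X (some (0, j / L)) + 1
      + X none * X (some (6, j)))).congr fun _ => by simp)) _)

theorem schain_rigid {K d : ℕ} {X : ℕ → ℕ → ℂ → ℂ} (hX : ∀ t i, Differentiable ℂ (X t i))
    (hs : Sparse K (X 7 0)) (h : SChain (K + 3) d X) {i : ℕ} (hi : i < d) :
    ∃ a : ℤ, X 0 i 0 = a := by
  obtain ⟨L, hL⟩ : ∃ L, L = K + 3 := ⟨_, rfl⟩
  rw [← hL] at h
  obtain ⟨h0, h1, h2⟩ := h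
  have hp := fun j hj => up_per (h1 j hj).1 (h1 j hj).2
  have hd := fun j => up_diff (hX 1 j) (hX 2 j)
  by_contra hcon
  have hstep : ∀ j < d * L, ∀ k, LBig k (up (X 1 j) (X 2 j)) →
      ((∃ a : ℤ, X 0 (j / L) 0 = a) ∧ LBig k (up (X 1 (j + 1)) (X 2 (j + 1)))) ∨
        LBig (k + 1) (up (X 1 (j + 1)) (X 2 (j + 1))) := fun j hj k hk => by
    obtain ⟨e1, e2, e3⟩ := h2 j hj
    refine (link_per hk (hp j (by omega)).1 (hp _ (by omega)).1 (hd _)
      (up_diff (hX 4 j) (hX 5 j)).continuous fun z => ?_).imp_left ?_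
    · have k1 := e1 (cosh z - 1)
      rw [sq_eq] at k1
      simp only [up]
      linear_combination k1 + sinh z * e2 (cosh z - 1)
    · rintro ⟨⟨a, ha⟩, hb⟩
      simp only [up, cosh_zero, sinh_zero, sub_self, e3] at ha
      exact ⟨⟨a, by linear_combination ha / 2⟩, hb⟩
  have hiL : i * L + L ≤ d * L := by
    have := Nat.mul_le_mul_right L (Nat.succ_le_of_lt hi)
    rwa [Nat.succ_mul] at this
  have hl : ∀ j ≤ L, LBig j (up (X 1 (i * L + j)) (X 2 (i * L + j))) := by
    intro j hj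
    induction j with
    | zero =>
      have := hp (i * L + 0) (by omega)
      exact lbig_zero (hd _) (fun z => right_ne_zero_of_mul_eq_one (this.1.inv z)) this.2
        (z₁ := Real.pi * I) (by rw [this.1.mid]; norm_num)
    | succ j ih =>
      refine (hstep (i * L + j) (by omega) j (ih (by omega))).resolve_left fun h3 => hcon ?_
      have e : (i * L + j) / L = i := by
        rw [Nat.mul_comm, Nat.mul_add_div (by omega), Nat.div_eq_of_lt (by omega), add_zero]
      exact e ▸ h3.1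
  have hl2 : ∀ j, i * L + L + j ≤ d * L →
      LBig L (up (X 1 (i * L + L + j)) (X 2 (i * L + L + j))) := by
    intro j hj
    induction j with
    | zero => exact hl L le_rfl
    | succ j ih =>
      exact (hstep (i * L + L + j) (by omega) L (ih (by omega))).elim (fun h3 => h3.2) LBig.mono
  have hfin := hl2 (d * L - (i * L + L)) (by omega)
  rw [Nat.add_sub_cancel' hiL] at hfin
  refine not_sparse (K := K) (hp (d * L) (by omega)).1 (hL ▸ hfin) ?_
  have : X 7 0 = fun z => X 1 (d * L) z - 1 := funext h0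
  exact this ▸ hs

theorem schain_witness (L d : ℕ) (y : ℕ → ℤ) :
    ∃ X : ℕ → ℕ → ℂ → ℂ, (∀ t i, X t i ∈ zpoly) ∧ SChain L d X ∧ ∀ i, X 0 i 0 = y i := by
  obtain ⟨a, b, c, p, r, e, h⟩ := exists_wit (n := fun j => 2 * y (j / L) + 1)
    fun j => odd_two_mul_add_one _
  refine ⟨fun t m z => Polynomial.aeval z (if t = 0 then Polynomial.C (y m) else
    [a, a, b, c, p, r, e, fun _ => a (d * L) - 1].getD t a m), fun t i => ⟨_, fun _ => rfl⟩,
    ⟨fun w => by simp, fun j _ => ⟨fun w => ?_, fun w => ?_⟩, fun j _ => ⟨fun w => ?_, fun w => ?_,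
      fun w => ?_⟩⟩, fun i => by simp⟩
  · simpa [map_ofNat] using congrArg (Polynomial.aeval w) (h j).1
  · simpa [map_ofNat] using congrArg (Polynomial.aeval w) (h j).2.1
  · simpa [map_ofNat] using congrArg (Polynomial.aeval w) (h j).2.2.1
  · simpa [map_ofNat] using congrArg (Polynomial.aeval w) (h j).2.2.2.1
  · simpa [map_ofNat] using congrArg (Polynomial.aeval w) (h j).2.2.2.2

open MvPolynomial in
/-- The reduction in the form of an inseparability statement with one restricted unknown. -/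
theorem insep_one (A : (ℂ → ℂ) → Prop) (T : Subring (ℂ → ℂ))
    (D : List (List (ℤ × List ℕ)) → Prop)
    (hlow : ∀ sys, (∃ xs, (∀ i, xs i ∈ T) ∧ Holds sys xs) → D sys)
    (hup : ∀ sys, D sys → ∃ xs, (∀ i, Differentiable ℂ (xs i)) ∧ A (xs 0) ∧ Holds sys xs)
    (hdiv : ∀ f ∈ T, f 0 = 0 → ∃ q ∈ T, ∀ w, f w = w * q w)
    (hdef : ∀ d : ℕ, ∃ S : (ℕ → ℕ → ℂ → ℂ) → Prop, Rep S ∧
      (∀ X, (∀ t i, Differentiable ℂ (X t i)) → A (X 7 0) → S X →
        ∀ i < d, ∃ a : ℤ, X 0 i 0 = a) ∧
      ∀ y : ℕ → ℤ, ∃ X, (∀ t i, X t i ∈ T) ∧ S X ∧ ∀ i, X 0 i 0 = y i) :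
    ¬ ComputablePred D := by
  classical
  obtain ⟨Q, hQ⟩ := Common.DPRM.exists_mvPoly_not_computable
  obtain ⟨d, hd⟩ : ∃ d, insert 0 Q.vars ⊆ Finset.range d := ⟨_, Finset.subset_range_sup_succ _⟩
  obtain ⟨S, hS, h1, h2⟩ := hdef d
  have hrep : Rep fun X => S (fun t => X (t + 1)) ∧
      (∀ w : ℂ, aeval (fun i => X 1 i w) Q = w * X 0 2 w) ∧ ∀ w : ℂ, X 0 0 w = X 8 0 w := by
    refine hS.shift.and (((rep_atom (rename (fun i => some (1, i)) Q)
      (MvPolynomial.X none * MvPolynomial.X (some (0, 2)))).congr fun X => ?_).and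
      ((rep_atom (MvPolynomial.X (some (0, 0))) (MvPolynomial.X (some (8, 0)))).congr
        fun X => by simp))
    simp only [aeval_rename, map_mul, aeval_X, Option.elim_none, Option.elim_some]
    rfl
  obtain ⟨sys, hsys⟩ := hrep Nat.pair
  obtain ⟨p, hp⟩ := exists_ev
    (MvPolynomial.X 0 * MvPolynomial.X (Nat.pair 0 1 + 1) - MvPolynomial.X (Nat.pair 1 0 + 1))
  have hcast : ∀ y : ℕ → ℤ, aeval (fun i => (y i : ℂ)) Q = ((eval y Q : ℤ) : ℂ) := fun y => by
    clear hQ hd hrep hsys
    induction Q using MvPolynomial.induction_on with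
    | C a => simp
    | add p q hp hq => simp [hp, hq]
    | mul_X p i hp => simp [hp]
  have hev : ∀ (n : ℕ) (y : ℕ → ℂ),
      ev ((List.range n).map (fun _ => ((1 : ℤ), ([] : List ℕ))) ++ p) y
        = n + (y 0 * y (Nat.pair 0 1 + 1) - y (Nat.pair 1 0 + 1)) := fun n y => by
    rw [ev_append, hp]
    simp [ev]
  have key : ∀ n : ℕ, D
      (((List.range n).map (fun _ => ((1 : ℤ), ([] : List ℕ))) ++ p) :: sys) ↔
      ∃ y : ℕ → ℤ, y 0 = n ∧ eval y Q = 0 := by
    intro n
    constructor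
    · intro hD
      obtain ⟨xs, hR, hA, hh⟩ := hup _ hD
      obtain ⟨k1, k2, k0⟩ := (hsys xs).1 fun q hq => hh q (List.mem_cons_of_mem _ hq)
      have k3 := hh _ List.mem_cons_self 0
      rw [hev] at k3
      simp only [val_zero, val_succ, zero_mul, zero_sub] at k3
      have hA' : A (xs (Nat.pair (7 + 1) 0)) := by
        have : xs 0 = xs (Nat.pair (7 + 1) 0) := funext k0
        exact this ▸ hA
      choose! y hy using h1 (fun t i => xs (Nat.pair (t + 1) i)) (fun t i => hR _) hA' k1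
      have hy' : ∀ i < d, xs (Nat.pair 1 i) 0 = y i := hy
      refine ⟨y, ?_, ?_⟩
      · have := hy' 0 (Finset.mem_range.1 (hd (Finset.mem_insert_self _ _)))
        have k4 : ((y 0 : ℤ) : ℂ) = (n : ℤ) := by push_cast; linear_combination -this - k3
        exact_mod_cast k4
      · have k4 := k2 0
        rw [zero_mul] at k4
        have k5 : aeval (fun i => xs (Nat.pair 1 i) 0) Q = aeval (fun i => (y i : ℂ)) Q :=
          eval₂Hom_congr' rfl (fun i hi _ => hy' i
            (Finset.mem_range.1 (hd (Finset.mem_insert_of_mem hi)))) rfl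
        rw [k5, hcast] at k4
        exact_mod_cast k4
    · rintro ⟨y, hy0, hyQ⟩
      apply hlow
      obtain ⟨X, hX, hSX, hXy⟩ := h2 y
      have m1 : (fun w => aeval (fun i => X 0 i w) Q) ∈ T := by
        clear hQ hd hrep hsys hcast hyQ
        induction Q using MvPolynomial.induction_on with
        | C a =>
          have : (fun w => aeval (fun i => X 0 i w) (C a : MvPolynomial ℕ ℤ))
              = ((a : ℤ) : ℂ → ℂ) := by
            funext w; simp
          rw [this]; exact intCast_mem T a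
        | add p q hp hq =>
          simp only [map_add]; exact T.add_mem hp hq
        | mul_X p i hp =>
          simp only [map_mul, aeval_X]; exact T.mul_mem hp (hX 0 i)
      obtain ⟨q₁, hq₁, e₁⟩ := hdiv _ m1 (by
        simp only [hXy]; rw [hcast, hyQ]; simp)
      obtain ⟨q₂, hq₂, e₂⟩ := hdiv (X 0 0 - (n : ℂ → ℂ)) (T.sub_mem (hX 0 0) (natCast_mem T n))
        (by simp [hXy, hy0])
      obtain ⟨X', hX'⟩ : ∃ X' : ℕ → ℕ → ℂ → ℂ, X' = fun t => Nat.casesOn t
        (fun i => if i = 0 then X 7 0 else if i = 1 then q₂ else q₁) X := ⟨_, rfl⟩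
      refine ⟨fun m => X' m.unpair.1 m.unpair.2, fun m => ?_, fun q hq => ?_⟩
      · rw [hX']
        beta_reduce
        rcases m.unpair.1 with _ | t
        · show (if m.unpair.2 = 0 then X 7 0 else if m.unpair.2 = 1 then q₂ else q₁) ∈ T
          split_ifs
          exacts [hX 7 0, hq₂, hq₁]
        · exact hX t _
      · rcases List.mem_cons.1 hq with rfl | hq
        · intro w
          rw [hev]
          simp only [val_zero, val_succ, Nat.unpair_pair, hX']
          have := e₂ w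
          simp only [Pi.sub_apply, Pi.natCast_apply] at this
          simp only [Nat.rec_zero, one_ne_zero, if_false, if_true]
          linear_combination -this
        · refine (hsys _).2 ⟨?_, fun w => ?_, fun w => ?_⟩ q hq
          · simpa only [Nat.unpair_pair, hX'] using hSX
          · simp only [Nat.unpair_pair, hX']
            exact e₁ w
          · simp only [Nat.unpair_pair, hX']
            rfl
  rintro ⟨inst, hc⟩
  apply hQ
  have hf : Computable fun n : ℕ =>
      (((List.range n).map (fun _ => ((1 : ℤ), ([] : List ℕ))) ++ p) :: sys) := by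
    apply Primrec.to_comp
    refine Primrec.list_cons.comp (Primrec.list_append.comp ?_ (Primrec.const _)) (Primrec.const _)
    exact Primrec.list_map Primrec.list_range (Primrec.const _).to₂
  refine ⟨inferInstance, (hc.comp hf).of_eq fun n => ?_⟩
  simp only [key]

theorem one_unknown (K : ℕ) (D : List (List (ℤ × List ℕ)) → Prop)
    (h1 : ∀ sys, (∃ xs : ℕ → ℂ → ℂ, (∀ i, ∃ p : Polynomial ℤ, ∀ z, xs i z = Polynomial.aeval z p) ∧
      Solves sys xs) → D sys)
    (h2 : ∀ sys, D sys → ∃ xs : ℕ → ℂ → ℂ, (∀ i, Differentiable ℂ (xs i)) ∧ Sparse K (xs 0) ∧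
      Solves sys xs) :
    ¬ ComputablePred D :=
  insep_one (Sparse K) zpoly D h1 h2 zpoly_div fun d => ⟨SChain (K + 3) d, rep_schain _ d,
    fun _ hX hs h _ hi => schain_rigid hX hs h hi, schain_witness _ d⟩

end Pool.Agent.Lib.MP_b1b13a_lc.Ser
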