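import Pool.Agent.Lib.MP_b1b13a_lc.Growth

/-!
The ring of entire functions bounded by powers of a tower, and explicit solutions in it.
-/

namespace Pool.Agent.Lib.MP_b1b13a_lc

open Complex Metric Set Filter Topology

def Small (k : ℕ) (c : ℝ) (f : ℂ → ℂ) : Prop :=
  Differentiable ℂ f ∧
    ∃ n : ℕ, ∀ᶠ r : ℝ in atTop, ∀ z, ‖z‖ ≤ r → ‖f z‖ ≤ (Real.exp^[k] (c * r)) ^ n

theorem tw_ge (k : ℕ) {c : ℝ} (hc : 0 < c) (A : ℝ) :
    ∀ᶠ r : ℝ in atTop, A ≤ Real.exp^[k] (c * r) := (tw_tendsto k hc).eventually_ge_atTop A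

def smallRing (k : ℕ) {c : ℝ} (hc : 0 < c) : Subring (ℂ → ℂ) where
  carrier := {f | Small k c f}
  mul_mem' := by
    rintro f g ⟨hf, n, hn⟩ ⟨hg, m, hm⟩
    refine ⟨hf.mul hg, n + m, ?_⟩
    filter_upwards [hn, hm] with r h1 h2 z hz
    rw [Pi.mul_apply, norm_mul, pow_add]
    exact mul_le_mul (h1 z hz) (h2 z hz) (norm_nonneg _) ((norm_nonneg _).trans (h1 z hz))
  one_mem' := ⟨differentiable_const _, 0, Eventually.of_forall fun r z _ => by simp⟩
  add_mem' := by
    rintro f g ⟨hf, n, hn⟩ ⟨hg, m, hm⟩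
    refine ⟨hf.add hg, n + m + 1, ?_⟩
    filter_upwards [hn, hm, tw_ge k hc 2] with r h1 h2 h3 z hz
    have k1 := (h1 z hz).trans (pow_le_pow_right₀ (by linarith) (Nat.le_add_right n m))
    have k2 := (h2 z hz).trans (pow_le_pow_right₀ (by linarith) (Nat.le_add_left m n))
    have k3 : 0 ≤ (Real.exp^[k] (c * r)) ^ (n + m) := (norm_nonneg _).trans k1
    refine (norm_add_le _ _).trans ?_
    rw [pow_succ]
    nlinarith
  zero_mem' := ⟨differentiable_const _, 0, Eventually.of_forall fun r z _ => by simp⟩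
  neg_mem' := by
    rintro f ⟨hf, n, hn⟩
    refine ⟨hf.neg, n, ?_⟩
    filter_upwards [hn] with r h1 z hz
    simpa using h1 z hz

variable {k : ℕ} {c : ℝ} {hc : 0 < c}

theorem const_mem (a : ℂ) : (fun _ => a) ∈ smallRing k hc := by
  refine ⟨differentiable_const _, 1, ?_⟩
  filter_upwards [tw_ge k hc ‖a‖] with r h z _
  simpa using h

theorem id_mem : (fun z => z) ∈ smallRing k hc := by
  refine ⟨differentiable_id, 2, ?_⟩
  filter_upwards [tw_ge k hc c⁻¹, eventually_ge_atTop 0] with r h h0 z hz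
  have h1 := le_tw k (c * r)
  calc ‖z‖ ≤ r := hz
    _ = (c * r) * c⁻¹ := by field_simp
    _ ≤ Real.exp^[k] (c * r) * Real.exp^[k] (c * r) :=
        mul_le_mul h1 h (by positivity) (le_trans (by positivity) h1)
    _ = _ := by ring

theorem div_mem {f : ℂ → ℂ} (hf : f ∈ smallRing k hc) {a : ℂ} (ha : f a = 0) :
    ∃ q ∈ smallRing k hc, ∀ w, f w = (w - a) * q w := by
  obtain ⟨hf, n, hn⟩ := hf
  have hfac : ∀ y, f y = (y - a) * dslope f a y := fun y => by
    have := sub_smul_dslope f a y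
    rw [ha, sub_zero, smul_eq_mul] at this
    exact this.symm
  have hd : Differentiable ℂ (dslope f a) :=
    differentiableOn_univ.1 ((Complex.differentiableOn_dslope univ_mem).2 hf.differentiableOn)
  refine ⟨dslope f a, ⟨hd, n, ?_⟩, hfac⟩
  filter_upwards [hn, eventually_ge_atTop (‖a‖ + 1)] with r h1 h2 z hz
  have hr : 0 < r := by linarith [norm_nonneg a]
  refine Complex.norm_le_of_forall_mem_frontier_norm_le (U := ball 0 r) isBounded_ball
    hd.diffContOnCl (fun y hy => ?_) ?_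
  · rw [frontier_ball _ hr.ne', mem_sphere, dist_zero_right] at hy
    have k1 := h1 y hy.le
    rw [hfac y, norm_mul] at k1
    have k2 : 1 ≤ ‖y - a‖ := by linarith [norm_le_norm_sub_add y a]
    nlinarith [norm_nonneg (dslope f a y)]
  · rw [closure_ball _ hr.ne']; simpa using hz

theorem comp_mem {L Φ : ℂ → ℂ} {j : ℕ} {c' : ℝ} (hL : Differentiable ℂ L) (hΦ : Differentiable ℂ Φ)
    (hb : ∀ w, ‖Φ w‖ ≤ 2 * Real.exp ‖w‖) (hj : j < k) (hc' : c' ≤ c)
    (h : ∀ᶠ r : ℝ in atTop, ∀ z, ‖z‖ ≤ r → ‖L z‖ ≤ Real.exp^[j] (c' * r)) :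
    (fun z => Φ (L z)) ∈ smallRing k hc := by
  refine ⟨hΦ.comp hL, 2, ?_⟩
  filter_upwards [h, tw_ge k hc 2, eventually_ge_atTop 0] with r h1 h2 h0 z hz
  have k1 : Real.exp ‖L z‖ ≤ Real.exp^[k] (c * r) := by
    calc Real.exp ‖L z‖ ≤ Real.exp (Real.exp^[j] (c' * r)) := Real.exp_le_exp.2 (h1 z hz)
      _ = Real.exp^[j + 1] (c' * r) := (tw_succ _ _).symm
      _ ≤ Real.exp^[k] (c' * r) := tw_level hj _
      _ ≤ _ := tw_mono _ (by gcongr)
  refine (hb _).trans ?_
  rw [sq]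
  exact mul_le_mul h2 k1 (Real.exp_pos _).le (by linarith)

theorem norm_exp_le_two (w : ℂ) : ‖exp w‖ ≤ 2 * Real.exp ‖w‖ := by
  have := Complex.norm_exp_le_exp_norm w
  linarith [Real.exp_pos ‖w‖]

theorem exp_sub_one (w : ℂ) : exp w - 1 = w * dslope exp 0 w := by
  simpa using (sub_smul_dslope exp 0 w).symm

theorem dslope_exp_zero : dslope exp 0 0 = (1 : ℂ) := by simp

theorem differentiable_dslope_exp : Differentiable ℂ (dslope exp 0) :=
  differentiableOn_univ.1
    ((Complex.differentiableOn_dslope univ_mem).2 Complex.differentiable_exp.differentiableOn)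

theorem norm_dslope_exp (w : ℂ) : ‖dslope exp 0 w‖ ≤ 2 * Real.exp ‖w‖ := by
  have h1 : 1 ≤ Real.exp ‖w‖ := Real.one_le_exp (norm_nonneg _)
  rcases eq_or_ne w 0 with rfl | hw
  · rw [dslope_exp_zero]; simp
  · have hn : 0 < ‖w‖ := norm_pos_iff.2 hw
    have e : ‖exp w - 1‖ = ‖w‖ * ‖dslope exp 0 w‖ := by rw [exp_sub_one, norm_mul]
    rcases le_total ‖w‖ 1 with h | h
    · have := Complex.norm_exp_sub_one_le h
      have k : ‖w‖ * ‖dslope exp 0 w‖ ≤ ‖w‖ * 2 := by linarith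
      linarith [le_of_mul_le_mul_left k hn]
    · have k1 := norm_sub_le (exp w) 1
      have k2 := Complex.norm_exp_le_exp_norm w
      rw [norm_one] at k1
      nlinarith [norm_nonneg (dslope exp 0 w)]

/-- Logarithms of the units of the explicit chain. -/
noncomputable def lg (N : ℕ) : ℕ → ℂ → ℂ
  | 0 => fun z => z * (Real.log 2 / N : ℝ)
  | j + 1 => fun z => -((exp (lg N j z) - 1) * (exp (lg N j z) - 2)) / 2

theorem lg_diff (N j : ℕ) : Differentiable ℂ (lg N j) := by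
  induction j with
  | zero => unfold lg; fun_prop
  | succ j ih => unfold lg; fun_prop

theorem lg_zero (N j : ℕ) : lg N j 0 = 0 := by
  induction j with
  | zero => simp [lg]
  | succ j ih => simp [lg, ih]

theorem lg_bound {N : ℕ} (hN : 0 < N) (j : ℕ) : ∀ᶠ r : ℝ in atTop, ∀ z, ‖z‖ ≤ r →
    ‖lg N j z‖ ≤ Real.exp^[j] (3 ^ j / N * r) := by
  have hN' : (0 : ℝ) < N := by exact_mod_cast hN
  induction j with
  | zero =>
    refine Eventually.of_forall fun r z hz => ?_
    have h2 : 0 < Real.log 2 := Real.log_pos (by norm_num)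
    have h3 : Real.log 2 ≤ 1 := by linarith [Real.log_two_lt_d9]
    simp only [lg, norm_mul, norm_real, Real.norm_eq_abs, Function.iterate_zero, id_eq, pow_zero]
    rw [abs_of_pos (by positivity), mul_comm]
    gcongr
  | succ j ih =>
    have ht : Tendsto (fun r : ℝ => 3 ^ j / N * r) atTop atTop :=
      tendsto_id.const_mul_atTop (by positivity)
    filter_upwards [ih, ht.eventually_ge_atTop 2] with r h1 h2 z hz
    obtain ⟨X, hX⟩ : ∃ X, X = Real.exp (Real.exp^[j] (3 ^ j / N * r)) := ⟨_, rfl⟩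
    have k1 : ‖exp (lg N j z)‖ ≤ X :=
      (Complex.norm_exp_le_exp_norm _).trans (hX ▸ Real.exp_le_exp.2 (h1 z hz))
    have k2 : 1 ≤ X := hX ▸ Real.one_le_exp (by linarith [le_tw j (3 ^ j / N * r)])
    have k3 : 3 * X ^ 2 ≤ Real.exp^[j + 1] (3 ^ (j + 1) / N * r) := by
      have e : (3 : ℝ) ^ (j + 1) / N * r = 3 * (3 ^ j / N * r) := by ring
      rw [e, tw_succ]
      refine le_trans ?_ (Real.exp_le_exp.2 (tw_double j h2))
      rw [two_mul, Real.exp_add, Real.exp_add, ← hX]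
      have := Real.add_one_le_exp 2
      nlinarith
    refine le_trans ?_ k3
    simp only [lg, norm_div, norm_neg, norm_mul, Complex.norm_ofNat]
    have k4 : ‖exp (lg N j z) - 1‖ ≤ X + 1 := by
      have := norm_sub_le (exp (lg N j z)) 1
      rw [norm_one] at this; linarith
    have k5 : ‖exp (lg N j z) - 2‖ ≤ X + 2 := by
      have := norm_sub_le (exp (lg N j z)) 2
      rw [Complex.norm_ofNat] at this; linarith
    have k6 := mul_le_mul k4 k5 (norm_nonneg _) (by linarith)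
    nlinarith

theorem exists_pow (T : Subring (ℂ → ℂ)) (hT : ∀ a : ℂ, (fun _ => a) ∈ T) {u u' : ℂ → ℂ}
    (hu : u ∈ T) (hu' : u' ∈ T) (e : ∀ w, u w * u' w = 1) (h0 : u 0 = 1) (a : ℤ) :
    ∃ (v v' h h' : ℂ → ℂ) (β : ℝ), v ∈ T ∧ v' ∈ T ∧ h ∈ T ∧ h' ∈ T ∧ 0 < β ∧ h 0 = a ∧
      (∀ w, v w * v' w = 1) ∧ (∀ w, v w - 1 = h w * (u w - 1)) ∧
      ∀ w, v w - β = h' w * (u w - 2) := by
  have h0' : u' 0 = 1 := by have := e 0; rwa [h0, one_mul] at this
  induction a using Int.induction_on with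
  | zero =>
    exact ⟨1, 1, 0, 0, 1, T.one_mem, T.one_mem, T.zero_mem, T.zero_mem, one_pos, by simp,
      by simp, by simp, by simp⟩
  | succ a ih =>
    obtain ⟨v, v', h, h', β, m1, m2, m3, m4, hβ, e0, e1, e2, e3⟩ := ih
    refine ⟨v * u, v' * u', h * u + 1, h' * u + fun _ => (β : ℂ), 2 * β, T.mul_mem m1 hu,
      T.mul_mem m2 hu', T.add_mem (T.mul_mem m3 hu) T.one_mem,
      T.add_mem (T.mul_mem m4 hu) (hT _), by positivity, by simp [e0, h0], fun w => ?_,
      fun w => ?_, fun w => ?_⟩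
    · simp only [Pi.mul_apply]; linear_combination (u w * u' w) * e1 w + e w
    · simp only [Pi.mul_apply, Pi.add_apply, Pi.one_apply]; linear_combination u w * e2 w
    · simp only [Pi.mul_apply, Pi.add_apply]; push_cast; linear_combination u w * e3 w
  | pred a ih =>
    obtain ⟨v, v', h, h', β, m1, m2, m3, m4, hβ, e0, e1, e2, e3⟩ := ih
    refine ⟨v * u', v' * u, h * u' - u', h' * u' - (fun _ => (β / 2 : ℂ)) * u', β / 2,
      T.mul_mem m1 hu', T.mul_mem m2 hu, T.sub_mem (T.mul_mem m3 hu') hu',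
      T.sub_mem (T.mul_mem m4 hu') (T.mul_mem (hT _) hu'), by positivity, by simp [e0, h0'],
      fun w => ?_, fun w => ?_, fun w => ?_⟩
    · simp only [Pi.mul_apply]; linear_combination (u w * u' w) * e1 w + e w
    · simp only [Pi.mul_apply, Pi.sub_apply]; linear_combination u' w * e2 w + e w
    · simp only [Pi.mul_apply, Pi.sub_apply]; push_cast
      linear_combination u' w * e3 w + (β / 2 : ℂ) * e w

theorem exists_pell (T : Subring (ℂ → ℂ)) (hT : (fun z => z) ∈ T) (a : ℤ) :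
    ∃ x y : ℂ → ℂ, x ∈ T ∧ y ∈ T ∧ x 0 = 1 ∧ y 0 = a ∧
      ∀ z, x z ^ 2 - (z ^ 2 + 2 * z) * y z ^ 2 = 1 := by
  have hs : (fun z : ℂ => z + 1) ∈ T := T.add_mem hT T.one_mem
  have hD : (fun z : ℂ => (z + 1) * (z + 1) - 1) ∈ T := T.sub_mem (T.mul_mem hs hs) T.one_mem
  induction a using Int.induction_on with
  | zero => exact ⟨1, 0, T.one_mem, T.zero_mem, rfl, by simp, by simp⟩
  | succ a ih =>
    obtain ⟨x, y, m1, m2, e1, e2, e⟩ := ih
    refine ⟨_, _, T.add_mem (T.mul_mem hs m1) (T.mul_mem hD m2), T.add_mem m1 (T.mul_mem hs m2),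
      by simp [e1], by simp [e1, e2, add_comm], fun z => ?_⟩
    simp only [Pi.mul_apply, Pi.add_apply]
    linear_combination e z
  | pred a ih =>
    obtain ⟨x, y, m1, m2, e1, e2, e⟩ := ih
    refine ⟨_, _, T.sub_mem (T.mul_mem hs m1) (T.mul_mem hD m2), T.sub_mem (T.mul_mem hs m2) m1,
      by simp [e1], by simp [e1, e2], fun z => ?_⟩
    simp only [Pi.mul_apply, Pi.sub_apply]
    linear_combination e z

end Pool.Agent.Lib.MP_b1b13a_lc
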