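import Mathlib

/-!
Complex-analytic tools: many zeros make a function small, logarithms, local inverses.
-/

namespace Pool.Agent.Lib.MP_b1b13a_lc

open Complex Metric Set Filter Topology
open scoped ComplexConjugate

theorem blaschke_factor {ρ δ : ℝ} (hδ : 0 < δ) (hδρ : δ ≤ ρ) {a ζ : ℂ} (ha : ‖a‖ ≤ ρ - δ)
    (hζ : ‖ζ‖ ≤ ρ / 2) :
    ρ * ‖ζ - a‖ ≤ Real.exp (-(δ / (6 * ρ))) * ‖(ρ : ℂ) ^ 2 - conj a * ζ‖ := by
  have hρ : 0 < ρ := hδ.trans_le hδρ
  obtain ⟨N, hN⟩ : ∃ N, N = ‖(ρ : ℂ) ^ 2 - conj a * ζ‖ := ⟨_, rfl⟩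
  rw [← hN]
  have hN0 : 0 ≤ N := hN ▸ norm_nonneg _
  have hid : (ρ * ‖ζ - a‖) ^ 2 = N ^ 2 - (ρ ^ 2 - ‖ζ‖ ^ 2) * (ρ ^ 2 - ‖a‖ ^ 2) := by
    rw [hN, mul_pow]
    simp only [Complex.sq_norm, Complex.normSq_apply, sub_re, sub_im, mul_re, mul_im, conj_re,
      conj_im, ← ofReal_pow, ofReal_re, ofReal_im]
    ring
  have hNle : N ≤ 3 / 2 * ρ ^ 2 := by
    rw [hN]
    refine (norm_sub_le _ _).trans ?_
    rw [norm_mul, norm_pow, norm_real, Real.norm_eq_abs, abs_of_pos hρ, RCLike.norm_conj]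
    have : ‖a‖ * ‖ζ‖ ≤ ρ * (ρ / 2) :=
      mul_le_mul (by linarith) hζ (norm_nonneg _) hρ.le
    nlinarith
  have h1 : 3 / 4 * ρ ^ 2 ≤ ρ ^ 2 - ‖ζ‖ ^ 2 := by nlinarith [norm_nonneg ζ]
  have h2 : δ * ρ ≤ ρ ^ 2 - ‖a‖ ^ 2 := by nlinarith [norm_nonneg a]
  have h3 : (3 / 4 * ρ ^ 2) * (δ * ρ) ≤ (ρ ^ 2 - ‖ζ‖ ^ 2) * (ρ ^ 2 - ‖a‖ ^ 2) :=
    mul_le_mul h1 h2 (by positivity) (by nlinarith)
  have h4 : N ^ 2 * (δ / (3 * ρ)) ≤ (3 / 4 * ρ ^ 2) * (δ * ρ) := by
    have : N ^ 2 ≤ (3 / 2 * ρ ^ 2) ^ 2 := pow_le_pow_left₀ hN0 hNle 2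
    calc N ^ 2 * (δ / (3 * ρ)) ≤ (3 / 2 * ρ ^ 2) ^ 2 * (δ / (3 * ρ)) := by gcongr
      _ = _ := by field_simp; ring
  have h5 : 1 - δ / (3 * ρ) ≤ Real.exp (-(δ / (6 * ρ))) ^ 2 := by
    rw [← Real.exp_nat_mul]
    have := Real.add_one_le_exp (-(δ / (3 * ρ)))
    have e : ((2 : ℕ) : ℝ) * -(δ / (6 * ρ)) = -(δ / (3 * ρ)) := by push_cast; field_simp; ring
    rw [e]; linarith
  apply (pow_le_pow_iff_left₀ (by positivity) (by positivity) two_ne_zero).1
  rw [hid, mul_pow]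
  nlinarith [sq_nonneg N]

/-- A bounded holomorphic function with many zeros is small in the middle of the disc. -/
theorem blaschke {c : ℂ} {ρ ρ' δ B : ℝ} (hδ : 0 < δ) (hδρ : δ ≤ ρ) (hρ' : ρ < ρ')
    (S : Finset ℂ) : ∀ {f : ℂ → ℂ}, DifferentiableOn ℂ f (ball c ρ') →
      (∀ z ∈ sphere c ρ, ‖f z‖ ≤ B) → (∀ w ∈ S, ‖w - c‖ ≤ ρ - δ ∧ f w = 0) →
      ∀ z, ‖z - c‖ ≤ ρ / 2 → ‖f z‖ ≤ B * Real.exp (-(S.card * (δ / (6 * ρ)))) := by
  classical
  have hρ : 0 < ρ := hδ.trans_le hδρ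
  induction S using Finset.induction_on with
  | empty =>
    intro f hf hB _ z hz
    simp only [Finset.card_empty, Nat.cast_zero, zero_mul, neg_zero, Real.exp_zero, mul_one]
    have hd : DiffContOnCl ℂ f (ball c ρ) := by
      apply DifferentiableOn.diffContOnCl
      rw [closure_ball c hρ.ne']
      exact hf.mono (closedBall_subset_ball hρ')
    refine Complex.norm_le_of_forall_mem_frontier_norm_le isBounded_ball hd ?_ ?_
    · rwa [frontier_ball c hρ.ne']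
    · rw [closure_ball c hρ.ne', mem_closedBall, dist_eq_norm]; linarith
  | insert w S hw ih =>
    intro f hf hB hS z hz
    obtain ⟨hw1, hw0⟩ := hS w (Finset.mem_insert_self _ _)
    have hwb : ball c ρ' ∈ 𝓝 w := isOpen_ball.mem_nhds (by
      rw [mem_ball, dist_eq_norm]; linarith)
    have hds : DifferentiableOn ℂ (dslope f w) (ball c ρ') :=
      (Complex.differentiableOn_dslope hwb).2 hf
    have hfac : ∀ y, f y = (y - w) * dslope f w y := fun y => by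
      have := sub_smul_dslope f w y
      rw [hw0, sub_zero, smul_eq_mul] at this
      exact this.symm
    have key := ih (f := fun y => dslope f w y * (((ρ : ℂ) ^ 2 - conj (w - c) * (y - c)) / ρ))
      (hds.mul (by fun_prop)) ?_ ?_ z hz
    · have hb := blaschke_factor hδ hδρ hw1 hz
      have e1 : z - c - (w - c) = z - w := by ring
      rw [e1] at hb
      rw [norm_mul, norm_div, norm_real, Real.norm_eq_abs, abs_of_pos hρ] at key
      rw [hfac z, norm_mul, Finset.card_insert_of_notMem hw]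
      have e2 : Real.exp (-(((S.card + 1 : ℕ) : ℝ) * (δ / (6 * ρ))))
          = Real.exp (-(δ / (6 * ρ))) * Real.exp (-(S.card * (δ / (6 * ρ)))) := by
        rw [← Real.exp_add]; congr 1; push_cast; ring
      rw [e2]
      have hb' : ‖z - w‖ ≤ Real.exp (-(δ / (6 * ρ))) * (‖(ρ : ℂ) ^ 2 - conj (w - c) * (z - c)‖ / ρ) := by
        rw [← mul_div_assoc, le_div_iff₀ hρ]; linarith
      calc ‖z - w‖ * ‖dslope f w z‖
          ≤ (Real.exp (-(δ / (6 * ρ))) * (‖(ρ : ℂ) ^ 2 - conj (w - c) * (z - c)‖ / ρ))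
            * ‖dslope f w z‖ := by gcongr
        _ = Real.exp (-(δ / (6 * ρ))) *
            (‖dslope f w z‖ * (‖(ρ : ℂ) ^ 2 - conj (w - c) * (z - c)‖ / ρ)) := by ring
        _ ≤ Real.exp (-(δ / (6 * ρ))) * (B * Real.exp (-(S.card * (δ / (6 * ρ))))) := by gcongr
        _ = _ := by ring
    · intro y hy
      have hy' : ‖y - c‖ = ρ := by rwa [mem_sphere, dist_eq_norm] at hy
      have e : (ρ : ℂ) ^ 2 - conj (w - c) * (y - c) = (y - c) * conj (y - w) := by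
        have : (ρ : ℂ) ^ 2 = (y - c) * conj (y - c) := by
          rw [Complex.mul_conj, Complex.normSq_eq_norm_sq, hy']; push_cast; ring
        rw [this]; simp only [map_sub]; ring
      have := hB y hy
      rw [hfac y, norm_mul] at this
      rw [e, norm_mul, norm_div, norm_mul, RCLike.norm_conj, hy', norm_real, Real.norm_eq_abs,
        abs_of_pos hρ]
      have e3 : ρ * ‖y - w‖ / ρ = ‖y - w‖ := by field_simp
      rw [e3]; linarith
    · intro y hy
      obtain ⟨h1, h2⟩ := hS y (Finset.mem_insert_of_mem hy)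
      refine ⟨h1, ?_⟩
      have hne : y - w ≠ 0 := sub_ne_zero.2 fun h => hw (h ▸ hy)
      have := hfac y
      rw [h2] at this
      have h3 : dslope f w y = 0 := (mul_eq_zero.1 this.symm).resolve_left hne
      simp [h3]

theorem exists_log {u : ℂ → ℂ} (hu : Differentiable ℂ u) (h0 : ∀ z, u z ≠ 0) (y : ℂ)
    (hy : u 0 = exp y) : ∃ g : ℂ → ℂ, Differentiable ℂ g ∧ g 0 = y ∧ ∀ z, u z = exp (g z) := by
  have hd : Differentiable ℂ fun z => deriv u z / u z := hu.deriv.div hu h0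
  obtain ⟨g, hg0, hg⟩ := hd.isExactOn_univ.with_val_at 0 y
  have hg' : ∀ z, HasDerivAt g (deriv u z / u z) z := fun z => hg z (mem_univ z)
  have hgd : Differentiable ℂ g := fun z => (hg' z).differentiableAt
  refine ⟨g, hgd, hg0, fun z => ?_⟩
  have hc : ∀ z, HasDerivAt (fun z => u z * exp (-g z)) 0 z := fun z => by
    have h1 := ((hu z).hasDerivAt).mul ((hg' z).neg.cexp)
    have e : deriv u z * cexp (-g z) + u z * (cexp (-g z) * -(deriv u z / u z)) = 0 := by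
      field_simp [h0 z]; ring
    rw [← e]; exact h1
  have h2 := is_const_of_deriv_eq_zero (f := fun z => u z * exp (-g z))
    (fun z => (hc z).differentiableAt) (fun z => (hc z).deriv) z 0
  simp only [hg0, hy, ← Complex.exp_add, add_neg_cancel, exp_zero] at h2
  have h3 : u z = u z * exp (-g z) * exp (g z) := by
    rw [mul_assoc, ← Complex.exp_add]; simp
  rw [h3, h2, one_mul]

theorem exists_inverse {g : ℂ → ℂ} (hg : Differentiable ℂ g) {t : ℂ} {r a : ℝ} (hr : 0 < r)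
    (ha : 0 < a) (h1 : a ≤ ‖deriv g t‖) (h2 : ∀ z ∈ ball t r, ‖deriv g z - deriv g t‖ ≤ a / 2) :
    ∃ ψ : ℂ → ℂ, DifferentiableOn ℂ ψ (ball (g t) (a * r / 4)) ∧
      ∀ y ∈ ball (g t) (a * r / 4), ψ y ∈ ball t r ∧ g (ψ y) = y := by
  obtain ⟨d, hd⟩ : ∃ d, d = deriv g t := ⟨_, rfl⟩
  rw [← hd] at h1 h2
  have hdn : 0 < ‖d‖ := ha.trans_le h1
  have hd0 : d ≠ 0 := norm_pos_iff.1 hdn
  have hder : ∀ z, HasDerivAt (fun z => g z / d) (deriv g z / d) z := fun z =>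
    (hg z).hasDerivAt.div_const d
  have hbd : ∀ z ∈ ball t r, ‖deriv g z / d - 1‖ ≤ 1 / 2 := fun z hz => by
    have : deriv g z / d - 1 = (deriv g z - d) / d := by field_simp
    rw [this, norm_div, div_le_iff₀ hdn]
    linarith [h2 z hz]
  have happ : ApproximatesLinearOn (fun z => g z / d)
      ((ContinuousLinearEquiv.refl ℂ ℂ : ℂ ≃L[ℂ] ℂ) : ℂ →L[ℂ] ℂ) (ball t r) (1 / 2) := by
    intro x hx y hy
    have := (convex_ball t r).norm_image_sub_le_of_norm_hasDerivWithin_le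
      (f := fun z => g z / d - z) (f' := fun z => deriv g z / d - 1) (C := 1 / 2)
      (fun z _ => ((hder z).sub (hasDerivAt_id z)).hasDerivWithinAt) hbd hy hx
    have e : g x / d - g y / d - (x - y) = g x / d - x - (g y / d - y) := by ring
    simpa [e] using this
  have hN : ‖((ContinuousLinearEquiv.refl ℂ ℂ : ℂ ≃L[ℂ] ℂ).symm : ℂ →L[ℂ] ℂ)‖₊ = 1 := by simp
  have hc : Subsingleton ℂ ∨ (1 / 2 : NNReal) <
      ‖((ContinuousLinearEquiv.refl ℂ ℂ : ℂ ≃L[ℂ] ℂ).symm : ℂ →L[ℂ] ℂ)‖₊⁻¹ := by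
    right; rw [hN]; norm_num
  obtain ⟨e, he⟩ : ∃ e, e = happ.toOpenPartialHomeomorph _ _ hc isOpen_ball := ⟨_, rfl⟩
  have hsrc : e.source = ball t r := by rw [he]; rfl
  have hcoe : (e : ℂ → ℂ) = fun z => g z / d := by rw [he]; rfl
  have htar : ∀ y ∈ ball (g t) (a * r / 4), y / d ∈ e.target := fun y hy => by
    rw [he]
    apply happ.closedBall_subset_target hc isOpen_ball (ε := r / 2) (by positivity)
      (closedBall_subset_ball (by linarith))
    rw [hN, mem_closedBall, dist_eq_norm, ← sub_div, norm_div, div_le_iff₀ hdn]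
    rw [mem_ball, dist_eq_norm] at hy
    have : a * r ≤ ‖d‖ * r := by gcongr
    push_cast
    nlinarith
  refine ⟨fun y => e.symm (y / d), fun y hy => ?_, fun y hy => ?_⟩
  · have hm : e.symm (y / d) ∈ ball t r := hsrc ▸ e.map_target (htar y hy)
    have hne : deriv g (e.symm (y / d)) / d ≠ 0 := fun h => by
      have := hbd _ hm
      rw [h] at this
      norm_num at this
    have h3 : HasDerivAt e.symm (deriv g (e.symm (y / d)) / d)⁻¹ (y / d) :=
      e.hasDerivAt_symm (htar y hy) hne (by rw [hcoe]; exact hder _)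
    exact (h3.differentiableAt.comp y (by fun_prop)).differentiableWithinAt
  · refine ⟨hsrc ▸ e.map_target (htar y hy), ?_⟩
    have := e.right_inv (htar y hy)
    rw [hcoe] at this
    exact (div_left_inj' hd0).1 this

/-- Harnack-type bound for maps into the left half plane. -/
theorem halfplane {k : ℂ → ℂ} {ρ : ℝ} (hk : DifferentiableOn ℂ k (ball 0 ρ))
    (hre : ∀ w ∈ ball (0 : ℂ) ρ, (k w).re ≤ 0) (h0 : k 0 ≠ 0) {w : ℂ} (hw : ‖w‖ < ρ) :
    ‖k w‖ * (ρ - ‖w‖) ≤ 3 * ρ * ‖k 0‖ := by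
  have hρ : 0 < ρ := (norm_nonneg _).trans_lt hw
  have hk0 : 0 < ‖k 0‖ := norm_pos_iff.2 h0
  have h := Complex.borelCaratheodory (M := ‖k 0‖ / 2) (by positivity) hk
    (fun z hz => (hre z hz).trans (by positivity)) hρ (mem_ball_zero_iff.2 hw)
  have hp : 0 < ρ - ‖w‖ := by linarith
  rw [← add_div, le_div_iff₀ hp] at h
  nlinarith [norm_nonneg w]

end Pool.Agent.Lib.MP_b1b13a_lc
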