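import Pool.Agent.Lib.MP_b1b13a_lc.PellSer
import Pool.Agent.Lib.MP_b1b13a_lc.OneDefs

/-!
A solution of the Pell equation with a big logarithm takes the value one very often.
-/

namespace Pool.Agent.Lib.MP_b1b13a_lc.Ser

open Complex Metric Set Filter Topology

theorem many_int {g : ℂ → ℂ} (hg : Differentiable ℂ g) (h0 : g 0 = 0) {R m : ℝ} (hR : 0 < R)
    (hm : 2 ^ 49 ≤ (3 / 4) ^ 14 * m) {z₀ : ℂ} (hz₀ : ‖z₀‖ ≤ R / 4) (hmz : m ≤ ‖g z₀‖) :
    ∃ S : Finset ℂ, (3 / 4) ^ 14 * m / 2 ^ 48 ≤ S.card ∧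
      ∀ s ∈ S, ‖s‖ ≤ R ∧ ∃ n : ℤ, g s = n := by
  classical
  have hm0 : 0 < m := by
    have : 0 < (3 / 4 : ℝ) ^ 14 * m := lt_of_lt_of_le (by positivity) hm
    exact pos_of_mul_pos_right this (by positivity)
  obtain ⟨M, x, x₀, ψ, hM, hx0, hx1, h1, -, -, hψ2⟩ := geom hg h0 hR hm0 hz₀ hmz
  obtain ⟨t, ht⟩ : ∃ t, t = (3 / 4 : ℝ) ^ 14 * m := ⟨_, rfl⟩
  rw [← ht] at hm h1 ⊢
  obtain ⟨ρ, hρ⟩ : ∃ ρ, ρ = M * x ^ 6 / 2 ^ 47 := ⟨_, rfl⟩
  rw [← hρ] at hψ2
  have hρt : t / 2 ^ 47 ≤ ρ := by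
    have h8 : x ^ 14 ≤ x ^ 6 := pow_le_pow_of_le_one hx0.le hx1 (by norm_num)
    have : x ^ 14 * M ≤ M * x ^ 6 := by rw [mul_comm]; gcongr
    rw [hρ]; gcongr; linarith
  have hρ4 : 4 ≤ ρ := by linarith
  obtain ⟨n, hn⟩ : ∃ n : ℤ, n = ⌊x₀⌋ := ⟨_, rfl⟩
  have hn1 : ‖(n : ℂ) - x₀‖ ≤ 1 := by
    have : (n : ℂ) - x₀ = ((n - x₀ : ℝ) : ℂ) := by push_cast; ring
    rw [this, norm_real, Real.norm_eq_abs, abs_le, hn]
    constructor <;> linarith [Int.floor_le x₀, Int.lt_floor_add_one x₀]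
  obtain ⟨L, hL⟩ : ∃ L : ℕ, L = ⌊ρ / 2⌋₊ := ⟨_, rfl⟩
  have hLa : (L : ℝ) ≤ ρ / 2 := hL ▸ Nat.floor_le (by positivity)
  have hLb : ρ / 2 < (L : ℝ) + 1 := hL ▸ Nat.lt_floor_add_one _
  have hin : ∀ i : ℕ, i ≤ L → (n : ℂ) + i ∈ ball (x₀ : ℂ) ρ := fun i hi => by
    have e : (n : ℂ) + i - x₀ = (n - x₀) + i := by ring
    have h1 : (i : ℝ) ≤ L := by exact_mod_cast hi
    rw [mem_ball, dist_eq_norm, e]
    refine (norm_add_le _ _).trans_lt ?_
    rw [Complex.norm_natCast]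
    linarith
  have hinj : Set.InjOn (fun i : ℕ => ψ (n + i)) (Finset.range (L + 1)) := fun i hi k hk hik => by
    have hi' : i ≤ L := by simpa [Nat.lt_succ_iff] using hi
    have hk' : k ≤ L := by simpa [Nat.lt_succ_iff] using hk
    have h3 := congrArg g hik
    simp only [(hψ2 _ (hin i hi')).2, (hψ2 _ (hin k hk')).2] at h3
    exact_mod_cast add_left_cancel h3
  refine ⟨(Finset.range (L + 1)).image fun i : ℕ => ψ (n + i), ?_, fun s hs => ?_⟩
  · rw [Finset.card_image_of_injOn hinj, Finset.card_range]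
    push_cast
    linarith
  · obtain ⟨i, hi, rfl⟩ := Finset.mem_image.1 hs
    have h3 := hψ2 _ (hin i (by simpa [Nat.lt_succ_iff] using hi))
    have : 0 < x * R := by positivity
    exact ⟨by linarith [h3.1], n + i, by rw [h3.2]; push_cast; ring⟩

theorem card_cosh {S : Finset ℂ} {r : ℝ} (hr : 1 ≤ r) (hS : ∀ s ∈ S, ‖s‖ ≤ r)
    [DecidableEq ℂ] : (S.card : ℝ) ≤ 10 * r * (S.image fun s => cosh s - 1).card := by
  obtain ⟨N, hN⟩ : ∃ N : ℕ, N = ⌈r⌉₊ := ⟨_, rfl⟩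
  have hN1 : r ≤ N := hN ▸ Nat.le_ceil r
  have hN2 : (N : ℝ) < r + 1 := hN ▸ Nat.ceil_lt_add_one (by linarith)
  have h := Finset.card_le_mul_card_image (f := fun s => cosh s - 1) S (2 * (2 * N + 1))
    fun c hc => by
      obtain ⟨s₀, hs₀, rfl⟩ := Finset.mem_image.1 hc
      have hsub : (S.filter fun s => cosh s - 1 = cosh s₀ - 1) ⊆
          ((Finset.Icc (-(N : ℤ)) N).image fun k : ℤ => s₀ + 2 * k * Real.pi * I) ∪
          ((Finset.Icc (-(N : ℤ)) N).image fun k : ℤ => -s₀ + 2 * k * Real.pi * I) := by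
        intro s hs
        obtain ⟨h1, h2⟩ := Finset.mem_filter.1 hs
        have h3 : cos (s₀ * I) = cos (s * I) := by
          rw [cos_mul_I, cos_mul_I]; linear_combination -h2
        have hk : ∀ (k : ℤ) (s₁ : ℂ), ‖s₁‖ ≤ r → s = s₁ + 2 * k * Real.pi * I →
            k ∈ Finset.Icc (-(N : ℤ)) N := fun k s₁ h4 h5 => by
          have h6 : ‖2 * (k : ℂ) * Real.pi * I‖ ≤ r + r := by
            have : 2 * (k : ℂ) * Real.pi * I = s - s₁ := by linear_combination -h5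
            rw [this]
            exact (norm_sub_le _ _).trans (add_le_add (hS s h1) h4)
          simp only [norm_mul, norm_I, mul_one, norm_real, Real.norm_eq_abs, Complex.norm_ofNat,
            abs_of_pos Real.pi_pos, Complex.norm_intCast] at h6
          have h7 : |(k : ℝ)| ≤ N := by nlinarith [Real.pi_gt_three, abs_nonneg (k : ℝ)]
          have h8 : |k| ≤ (N : ℤ) := by exact_mod_cast h7
          exact Finset.mem_Icc.2 (abs_le.1 h8)
        obtain ⟨k, h4 | h4⟩ := Complex.cos_eq_cos_iff.1 h3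
        · have h5 : s = s₀ + 2 * ((-k : ℤ) : ℂ) * Real.pi * I := by
            push_cast
            linear_combination (-I) * h4 + (s - s₀) * I_mul_I
          exact Finset.mem_union_left _
            (Finset.mem_image.2 ⟨-k, hk _ _ (hS _ hs₀) h5, h5.symm⟩)
        · have h5 : s = -s₀ + 2 * ((-k : ℤ) : ℂ) * Real.pi * I := by
            push_cast
            linear_combination (-I) * h4 + (s + s₀) * I_mul_I
          exact Finset.mem_union_right _
            (Finset.mem_image.2 ⟨-k, hk _ _ (by rw [norm_neg]; exact hS _ hs₀) h5, h5.symm⟩)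
      refine (Finset.card_le_card hsub).trans ((Finset.card_union_le _ _).trans ?_)
      have hc : (Finset.Icc (-(N : ℤ)) N).card = 2 * N + 1 := by
        rw [Int.card_Icc]; omega
      have a1 := Finset.card_image_le (s := Finset.Icc (-(N : ℤ)) N)
        (f := fun k : ℤ => s₀ + 2 * k * Real.pi * I)
      have a2 := Finset.card_image_le (s := Finset.Icc (-(N : ℤ)) N)
        (f := fun k : ℤ => -s₀ + 2 * k * Real.pi * I)
      omega
  have h' : (S.card : ℝ) ≤ 2 * (2 * N + 1) * (S.image fun s => cosh s - 1).card := by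
    exact_mod_cast h
  refine h'.trans (mul_le_mul_of_nonneg_right (by linarith) (Nat.cast_nonneg _))

theorem not_sparse {a b : ℂ → ℂ} {K : ℕ} (hp : Per (up a b)) (hb : LBig (K + 3) (up a b)) :
    ¬ Sparse K fun z => a z - 1 := by
  classical
  obtain ⟨g, hg, h0, hu, c, hc, hb⟩ := hb
  rintro (h | ha)
  · have h1 := hp.mid
    have h2 := h (cosh (Real.pi * I) - 1)
    simp only [up, sinh_mul_I, ← ofReal_sin, Real.sin_pi, ofReal_zero, zero_mul, mul_zero,
      add_zero] at h1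
    simp only [h1] at h2
    norm_num at h2
  obtain ⟨r₀, hr₀⟩ := eventually_small 3 (c / 4) 1 1 (by positivity) one_pos
  have ht : Tendsto (fun r : ℝ => Real.log (r - 1)) atTop atTop :=
    Real.tendsto_log_atTop.comp (tendsto_atTop_add_const_right _ (-1) tendsto_id)
  have ht4 : Tendsto (fun r : ℝ => Real.log (r - 1) / 4) atTop atTop :=
    ht.atTop_div_const (by norm_num)
  obtain ⟨κ, hκ⟩ : ∃ κ : ℝ, κ = (3 / 4) ^ 14 := ⟨_, rfl⟩
  have hκ0 : 0 < κ := by rw [hκ]; positivity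
  obtain ⟨ρ, h1, ⟨s, hs, h2⟩, h3, h4, h5, h6⟩ := (ha.and_eventually ((ht4.eventually hb).and
    ((ht.eventually_ge_atTop r₀).and ((ht.eventually_ge_atTop 1).and
      ((eventually_ge_atTop 2).and (eventually_ge_atTop (2 ^ 53 / κ))))))).exists
  obtain ⟨r, hr⟩ : ∃ r, r = Real.log (ρ - 1) := ⟨_, rfl⟩
  rw [← hr] at hs h2 h3 h4
  have he : Real.exp r = ρ - 1 := by rw [hr, Real.exp_log (by linarith)]
  have hrρ : r ≤ ρ := by linarith [Real.add_one_le_exp r]
  have k1 : ∀ s : ℂ, ‖s‖ ≤ r → ‖cosh s - 1‖ ≤ ρ := fun s hs => by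
    have e : cosh s = (exp s + exp (-s)) / 2 := rfl
    have b : ∀ x : ℂ, ‖x‖ ≤ r → ‖exp x‖ ≤ ρ - 1 := fun x hx =>
      he ▸ (Complex.norm_exp_le_exp_norm x).trans (Real.exp_le_exp.2 hx)
    have b1 := b s hs
    have b2 := b (-s) (by rwa [norm_neg])
    have b3 := norm_add_le (exp s) (exp (-s))
    have b4 := norm_sub_le (cosh s) 1
    rw [e, norm_div, Complex.norm_ofNat, norm_one] at b4
    rw [e]
    linarith
  have k2 : 3 * ρ ≤ Real.exp (Real.exp (c * (r / 4))) := by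
    have b1 := hr₀ r h3
    rw [Real.exp_neg, pow_one, ← div_eq_mul_inv, div_lt_one (Real.exp_pos _)] at b1
    have e : c / 4 * r = c * (r / 4) := by ring
    rw [e] at b1
    have b2 : Real.exp (r + 1 + 1) ≤ Real.exp (Real.exp (c * (r / 4))) :=
      Real.exp_le_exp.2 (by linarith)
    rw [Real.exp_add, Real.exp_add, he] at b2
    have b3 := Real.exp_one_gt_d9
    have b4 : 7 ≤ Real.exp 1 * Real.exp 1 := by nlinarith
    nlinarith
  have k3 := (tw_double K h5).trans (tw_mono K k2)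
  have k4 : Real.exp^[K + 3] (c * (r / 4))
      = Real.exp (Real.exp^[K] (Real.exp (Real.exp (c * (r / 4))))) := tw_succ (K + 2) _
  obtain ⟨E, hE⟩ : ∃ E, E = Real.exp^[K] ρ := ⟨_, rfl⟩
  rw [← hE] at k3 h1
  have hEρ : ρ ≤ E := hE ▸ le_tw K ρ
  obtain ⟨m, hm⟩ : ∃ m, m = Real.exp^[K + 3] (c * (r / 4)) := ⟨_, rfl⟩
  rw [← hm] at h2 k4
  have k5 : Real.exp E * Real.exp E ≤ m := by
    rw [k4, ← Real.exp_add]; exact Real.exp_le_exp.2 (by linarith)
  have k6 : E + 1 ≤ Real.exp E := Real.add_one_le_exp E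
  have k7 : ρ ^ 2 / 2 ≤ Real.exp E := by
    have := Real.pow_div_factorial_le_exp ρ (by linarith) 2
    simp only [Nat.factorial, Nat.succ_eq_add_one, Nat.reduceAdd, Nat.reduceMul,
      Nat.cast_ofNat] at this
    exact this.trans (Real.exp_le_exp.2 hEρ)
  have k8 : 2 ^ 53 ≤ κ * ρ := by rw [div_le_iff₀ hκ0] at h6; linarith
  have k9 : 2 ^ 52 * r * (E + 1) ≤ κ * m := by
    have b1 : 2 ^ 52 * r ≤ κ * Real.exp E := by
      calc 2 ^ 52 * r ≤ 2 ^ 53 * ρ / 2 := by linarith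
        _ ≤ κ * ρ * ρ / 2 := by gcongr
        _ = κ * (ρ ^ 2 / 2) := by ring
        _ ≤ _ := by gcongr
    calc 2 ^ 52 * r * (E + 1) ≤ κ * Real.exp E * Real.exp E := by
          have : 0 ≤ E + 1 := by linarith
          gcongr
      _ = κ * (Real.exp E * Real.exp E) := by ring
      _ ≤ _ := by gcongr
  have hrE : r ≤ r * (E + 1) := le_mul_of_one_le_right (by linarith) (by linarith)
  obtain ⟨S, hS1, hS2⟩ := many_int hg h0 (R := r) (m := m) (by linarith)
    (by rw [← hκ]; linarith) hs h2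
  rw [← hκ] at hS1
  have c1 := card_cosh h4 fun s hs => (hS2 s hs).1
  have c2 := h1 (S.image fun s => cosh s - 1) fun z hz => by
    obtain ⟨s, hs, rfl⟩ := Finset.mem_image.1 hz
    obtain ⟨b1, n, hn⟩ := hS2 s hs
    refine ⟨k1 s b1, ?_⟩
    have b2 : up a b s = 1 := by
      rw [hu, hn, mul_comm]; exact Complex.exp_int_mul_two_pi_mul_I n
    have b3 := hp.inv s
    rw [b2, mul_one] at b3
    simp only [up, cosh_neg, sinh_neg] at b2 b3
    linear_combination (b2 + b3) / 2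
  have c3 : 10 * r * ((S.image fun s => cosh s - 1).card : ℝ) ≤ 10 * r * E := by gcongr
  nlinarith

end Pool.Agent.Lib.MP_b1b13a_lc.Ser
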